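import Mathlib

/-!
# Polynomials acting on functions of a natural number

`act A h s = ∑ A_j h (s + j)`. Variances, their tensorization, and a comparison lemma.
-/

set_option autoImplicit false
open Polynomial

namespace Pool.Agent.Lib.MP_24a1b5_co.Gap

/-- the shift -/
noncomputable def Sh : Module.End ℝ (ℕ → ℝ) where
  toFun h := fun s => h (s + 1)
  map_add' _ _ := rfl
  map_smul' _ _ := rfl

lemma Sh_pow (j : ℕ) (h : ℕ → ℝ) (s : ℕ) : (Sh ^ j) h s = h (s + j) := by
  induction j generalizing s with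
  | zero => rfl
  | succ j ih =>
    rw [pow_succ', Module.End.mul_apply]
    change (Sh ^ j) h (s + 1) = _
    rw [ih]
    congr 1
    omega

/-- action of a polynomial -/
noncomputable def act (A : ℝ[X]) : Module.End ℝ (ℕ → ℝ) := aeval Sh A

lemma act_mul (A B : ℝ[X]) (h : ℕ → ℝ) : act (A * B) h = act A (act B h) := by
  rw [act, map_mul]; rfl

lemma act_comm (A B : ℝ[X]) (h : ℕ → ℝ) : act A (act B h) = act B (act A h) := by
  rw [← act_mul, mul_comm, act_mul]

lemma act_add (A B : ℝ[X]) (h : ℕ → ℝ) (s : ℕ) : act (A + B) h s = act A h s + act B h s := by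
  rw [act, map_add]; rfl

lemma act_sub (A B : ℝ[X]) (h : ℕ → ℝ) (s : ℕ) : act (A - B) h s = act A h s - act B h s := by
  rw [act, map_sub]; rfl

lemma act_one (h : ℕ → ℝ) : act 1 h = h := by
  rw [act, map_one]; rfl

lemma act_lX (l : ℝ) (A : ℝ[X]) (h : ℕ → ℝ) (s : ℕ) :
    act (C l * X * A) h s = l * act A h (s + 1) := by
  rw [act, map_mul, map_mul, aeval_C, aeval_X]
  rfl

lemma act_sum (A : ℝ[X]) (N : ℕ) (hN : A.natDegree < N) (h : ℕ → ℝ) (s : ℕ) :
    act A h s = ∑ j ∈ Finset.range N, A.coeff j * h (s + j) := by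
  rw [act, aeval_eq_sum_range' hN, LinearMap.sum_apply, Finset.sum_apply]
  apply Finset.sum_congr rfl
  intro j _
  rw [LinearMap.smul_apply, Pi.smul_apply, Sh_pow, smul_eq_mul]

lemma act_lin (A : ℝ[X]) (a b : ℝ) (f g : ℕ → ℝ) (s : ℕ) :
    act A (fun j => a * f j + b * g j) s = a * act A f s + b * act A g s := by
  have e : (fun j => a * f j + b * g j) = a • f + b • g := rfl
  rw [e, map_add, map_smul, map_smul]
  rfl

lemma act_const (A : ℝ[X]) (c : ℝ) (s : ℕ) : act A (fun _ => c) s = c * A.eval 1 := by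
  rw [act_sum A (A.natDegree + 1) (Nat.lt_succ_self _), eval_eq_sum_range, Finset.mul_sum]
  apply Finset.sum_congr rfl
  intro j _
  rw [one_pow]; ring

/-- nonnegative coefficients -/
def NR (A : ℝ[X]) : Prop := ∀ j, 0 ≤ A.coeff j

lemma NR.add {A B : ℝ[X]} (hA : NR A) (hB : NR B) : NR (A + B) := fun j => by
  rw [coeff_add]; exact add_nonneg (hA j) (hB j)

lemma NR.mul {A B : ℝ[X]} (hA : NR A) (hB : NR B) : NR (A * B) := fun j => by
  rw [coeff_mul]; exact Finset.sum_nonneg fun x _ => mul_nonneg (hA _) (hB _)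

lemma NR.lX {A : ℝ[X]} {l : ℝ} (hl : 0 ≤ l) (hA : NR A) : NR (C l * X * A) := by
  refine NR.mul (NR.mul ?_ ?_) hA
  · intro j
    rw [coeff_C]
    split_ifs
    · exact hl
    · exact le_rfl
  · intro j
    rw [coeff_X]
    split_ifs <;> norm_num

lemma NR.eval {A : ℝ[X]} (hA : NR A) : 0 ≤ A.eval 1 := by
  rw [eval_eq_sum_range]
  exact Finset.sum_nonneg fun j _ => mul_nonneg (hA j) (by positivity)

lemma act_nonneg {A : ℝ[X]} (hA : NR A) {h : ℕ → ℝ} (hh : ∀ j, 0 ≤ h j) (s : ℕ) :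
    0 ≤ act A h s := by
  rw [act_sum A (A.natDegree + 1) (Nat.lt_succ_self _)]
  exact Finset.sum_nonneg fun j _ => mul_nonneg (hA j) (hh _)

lemma act_mono {A : ℝ[X]} (hA : NR A) {f g : ℕ → ℝ} (h : ∀ j, f j ≤ g j) (s : ℕ) :
    act A f s ≤ act A g s := by
  have := act_nonneg hA (h := fun j => 1 * g j + (-1) * f j) (fun j => by linarith [h j]) s
  rw [act_lin] at this
  linarith

/-- Cauchy–Schwarz -/
lemma act_sq {A : ℝ[X]} (hA : NR A) (h : ℕ → ℝ) (s : ℕ) :
    (act A h s) ^ 2 ≤ A.eval 1 * act A (fun j => h j ^ 2) s := by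
  have h1 := act_const A 1 s
  rw [one_mul] at h1
  rw [← h1, act_sum A (A.natDegree + 1) (Nat.lt_succ_self _),
    act_sum A (A.natDegree + 1) (Nat.lt_succ_self _),
    act_sum A (A.natDegree + 1) (Nat.lt_succ_self _)]
  apply Finset.sum_sq_le_sum_mul_sum_of_sq_le_mul
  · intro j _
    rw [mul_one]
    exact hA j
  · intro j _
    exact mul_nonneg (hA j) (sq_nonneg _)
  · intro j _
    exact le_of_eq (by ring)

/-- variance times mass -/
noncomputable def V (A : ℝ[X]) (h : ℕ → ℝ) (s : ℕ) : ℝ :=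
  act A (fun j => h j ^ 2) s - (act A h s) ^ 2 / A.eval 1

lemma V_nonneg {A : ℝ[X]} (hA : NR A) (h1 : 0 < A.eval 1) (h : ℕ → ℝ) (s : ℕ) : 0 ≤ V A h s := by
  have := act_sq hA h s
  rw [V, sub_nonneg, div_le_iff₀ h1]
  linarith

/-- the variance inequality for a product of two finite measures -/
lemma anova {ι κ : Type*} (I : Finset ι) (J : Finset κ) (α : ι → ℝ) (β : κ → ℝ) (x : ι → κ → ℝ)
    (hα : ∀ i ∈ I, 0 ≤ α i) (hβ : ∀ j ∈ J, 0 ≤ β j) (ha : 0 < ∑ i ∈ I, α i)
    (hb : 0 < ∑ j ∈ J, β j) :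
    (∑ i ∈ I, α i * (∑ j ∈ J, β j * x i j) ^ 2) / (∑ j ∈ J, β j) +
      (∑ j ∈ J, β j * (∑ i ∈ I, α i * x i j) ^ 2) / (∑ i ∈ I, α i) ≤
      (∑ i ∈ I, α i * ∑ j ∈ J, β j * x i j ^ 2) +
        (∑ i ∈ I, α i * ∑ j ∈ J, β j * x i j) ^ 2 / ((∑ i ∈ I, α i) * ∑ j ∈ J, β j) := by
  set a := ∑ i ∈ I, α i with hadef
  set b := ∑ j ∈ J, β j with hbdef
  set U : ι → ℝ := fun i => ∑ j ∈ J, β j * x i j with hU
  set W : κ → ℝ := fun j => ∑ i ∈ I, α i * x i j with hW
  set Z := ∑ i ∈ I, α i * U i with hZ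
  have hZ2 : ∑ j ∈ J, β j * W j = Z := by
    rw [hZ]
    simp only [hU, hW, Finset.mul_sum]
    rw [Finset.sum_comm]
    apply Finset.sum_congr rfl
    intro i _
    apply Finset.sum_congr rfl
    intro j _
    ring
  -- Jensen for each `i`
  have j1 : ∀ i ∈ I, α i * (U i - Z / a) ^ 2 ≤ b * (α i * ∑ j ∈ J, β j * (x i j - W j / a) ^ 2) := by
    intro i hi
    have e : U i - Z / a = ∑ j ∈ J, β j * (x i j - W j / a) := by
      simp only [mul_sub, Finset.sum_sub_distrib]
      congr 1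
      rw [← hZ2, Finset.sum_div]
      apply Finset.sum_congr rfl
      intro j _
      ring
    have h1 : (∑ j ∈ J, β j * (x i j - W j / a)) ^ 2 ≤
        (∑ j ∈ J, β j) * ∑ j ∈ J, β j * (x i j - W j / a) ^ 2 := by
      apply Finset.sum_sq_le_sum_mul_sum_of_sq_le_mul
      · exact hβ
      · intro j hj
        exact mul_nonneg (hβ j hj) (sq_nonneg _)
      · intro j _
        exact le_of_eq (by ring)
    rw [e]
    calc α i * (∑ j ∈ J, β j * (x i j - W j / a)) ^ 2 ≤
        α i * ((∑ j ∈ J, β j) * ∑ j ∈ J, β j * (x i j - W j / a) ^ 2) :=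
          mul_le_mul_of_nonneg_left h1 (hα i hi)
      _ = _ := by ring
  have j2 := Finset.sum_le_sum j1
  rw [← Finset.mul_sum] at j2
  -- the left side
  have l1 : ∑ i ∈ I, α i * (U i - Z / a) ^ 2 = (∑ i ∈ I, α i * U i ^ 2) - Z ^ 2 / a := by
    have e : ∀ i ∈ I, α i * (U i - Z / a) ^ 2 =
        α i * U i ^ 2 - (2 * (Z / a)) * (α i * U i) + (Z / a) ^ 2 * α i := by
      intro i _
      ring
    rw [Finset.sum_congr rfl e, Finset.sum_add_distrib, Finset.sum_sub_distrib, ← Finset.mul_sum,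
      ← Finset.mul_sum, ← hZ, ← hadef]
    field_simp
    ring
  -- the right side
  have r1 : ∑ i ∈ I, α i * ∑ j ∈ J, β j * (x i j - W j / a) ^ 2 =
      (∑ i ∈ I, α i * ∑ j ∈ J, β j * x i j ^ 2) - (∑ j ∈ J, β j * W j ^ 2) / a := by
    have e0 : ∀ i ∈ I, α i * ∑ j ∈ J, β j * (x i j - W j / a) ^ 2 =
        ∑ j ∈ J, β j * (α i * (x i j - W j / a) ^ 2) := by
      intro i _
      rw [Finset.mul_sum]
      apply Finset.sum_congr rfl
      intro j _
      ring
    have e1 : ∀ i ∈ I, α i * ∑ j ∈ J, β j * x i j ^ 2 = ∑ j ∈ J, β j * (α i * x i j ^ 2) := by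
      intro i _
      rw [Finset.mul_sum]
      apply Finset.sum_congr rfl
      intro j _
      ring
    rw [Finset.sum_congr rfl e0, Finset.sum_congr rfl e1, Finset.sum_comm,
      Finset.sum_comm (s := I) (t := J), Finset.sum_div, ← Finset.sum_sub_distrib]
    apply Finset.sum_congr rfl
    intro j _
    rw [← Finset.mul_sum, ← Finset.mul_sum]
    have e2 : ∀ i ∈ I, α i * (x i j - W j / a) ^ 2 =
        α i * x i j ^ 2 - (2 * (W j / a)) * (α i * x i j) + (W j / a) ^ 2 * α i := by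
      intro i _
      ring
    rw [Finset.sum_congr rfl e2, Finset.sum_add_distrib, Finset.sum_sub_distrib, ← Finset.mul_sum,
      ← Finset.mul_sum, ← hadef]
    have e3 : ∑ i ∈ I, α i * x i j = W j := rfl
    rw [e3]
    field_simp
    ring
  rw [l1, r1] at j2
  have k1 : ((∑ i ∈ I, α i * U i ^ 2) - Z ^ 2 / a) / b ≤
      (∑ i ∈ I, α i * ∑ j ∈ J, β j * x i j ^ 2) - (∑ j ∈ J, β j * W j ^ 2) / a := by
    rw [div_le_iff₀ hb]
    linarith
  have k2 : Z ^ 2 / (a * b) = Z ^ 2 / a / b := by rw [div_div]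
  have k3 : ((∑ i ∈ I, α i * U i ^ 2) - Z ^ 2 / a) / b =
      (∑ i ∈ I, α i * U i ^ 2) / b - Z ^ 2 / a / b := by rw [sub_div]
  rw [k2]
  rw [k3] at k1
  linarith

/-- tensorization of variance -/
lemma V_mul {A B : ℝ[X]} (hA : NR A) (hB : NR B) (ha : 0 < A.eval 1) (hb : 0 < B.eval 1)
    (h : ℕ → ℝ) (s : ℕ) : V (A * B) h s ≤ act A (V B h) s + act B (V A h) s := by
  have e1 : act A (V B h) s = act A (act B fun j => h j ^ 2) s -
      (act A (fun j => (act B h j) ^ 2) s) / B.eval 1 := by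
    have : V B h = fun j => 1 * act B (fun j => h j ^ 2) j + (-(1 / B.eval 1)) *
        (fun j => (act B h j) ^ 2) j := by
      funext j
      rw [V]
      ring
    rw [this, act_lin]
    ring
  have e2 : act B (V A h) s = act B (act A fun j => h j ^ 2) s -
      (act B (fun j => (act A h j) ^ 2) s) / A.eval 1 := by
    have : V A h = fun j => 1 * act A (fun j => h j ^ 2) j + (-(1 / A.eval 1)) *
        (fun j => (act A h j) ^ 2) j := by
      funext j
      rw [V]
      ring
    rw [this, act_lin]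
    ring
  rw [e1, e2, V, act_mul, act_mul, eval_mul, act_comm B A]
  have hs : ∀ (D : ℝ[X]) (f : ℕ → ℝ) (t : ℕ), act D f t =
      ∑ j ∈ Finset.range (D.natDegree + 1), D.coeff j * f (t + j) := fun D f t =>
    act_sum D _ (Nat.lt_succ_self _) f t
  have key := anova (Finset.range (A.natDegree + 1)) (Finset.range (B.natDegree + 1))
    (fun i => A.coeff i) (fun j => B.coeff j) (fun i j => h (s + i + j))
    (fun i _ => hA i) (fun j _ => hB j)
    (by rw [eval_eq_sum_range] at ha; simpa using ha)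
    (by rw [eval_eq_sum_range] at hb; simpa using hb)
  have ma : ∑ i ∈ Finset.range (A.natDegree + 1), A.coeff i = A.eval 1 := by
    rw [eval_eq_sum_range]; simp
  have mb : ∑ i ∈ Finset.range (B.natDegree + 1), B.coeff i = B.eval 1 := by
    rw [eval_eq_sum_range]; simp
  rw [ma, mb] at key
  have f1 : act A (fun j => (act B h j) ^ 2) s =
      ∑ i ∈ Finset.range (A.natDegree + 1), A.coeff i *
        (∑ j ∈ Finset.range (B.natDegree + 1), B.coeff j * h (s + i + j)) ^ 2 := by
    rw [hs]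
    apply Finset.sum_congr rfl
    intro i _
    rw [hs]
  have f2 : act B (fun j => (act A h j) ^ 2) s =
      ∑ j ∈ Finset.range (B.natDegree + 1), B.coeff j *
        (∑ i ∈ Finset.range (A.natDegree + 1), A.coeff i * h (s + i + j)) ^ 2 := by
    rw [hs]
    apply Finset.sum_congr rfl
    intro j _
    rw [hs]
    congr 2
    apply Finset.sum_congr rfl
    intro i _
    rw [show s + j + i = s + i + j by omega]
  have f3 : act A (act B fun j => h j ^ 2) s =
      ∑ i ∈ Finset.range (A.natDegree + 1), A.coeff i *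
        ∑ j ∈ Finset.range (B.natDegree + 1), B.coeff j * h (s + i + j) ^ 2 := by
    rw [hs]
    apply Finset.sum_congr rfl
    intro i _
    rw [hs]
  have f4 : act A (act B h) s =
      ∑ i ∈ Finset.range (A.natDegree + 1), A.coeff i *
        ∑ j ∈ Finset.range (B.natDegree + 1), B.coeff j * h (s + i + j) := by
    rw [hs]
    apply Finset.sum_congr rfl
    intro i _
    rw [hs]
  rw [f1, f2, f3, f4]
  linarith

/-- comparison of the averages for two measures, one below the other -/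
lemma half {A B : ℝ[X]} (hA : NR A) (hAB : NR (B - A)) (ha : 0 < A.eval 1) (f : ℕ → ℝ) (s : ℕ) :
    (act A f s / A.eval 1 + act B f s / B.eval 1) ^ 2 ≤
      (B.eval 1 / A.eval 1 + 3) * (act B (fun j => f j ^ 2) s / B.eval 1) := by
  have hd := hAB.eval
  rw [eval_sub] at hd
  have hb : 0 < B.eval 1 := by linarith
  have hB : NR B := by
    have := hAB.add hA
    rwa [sub_add_cancel] at this
  have h1 := act_sq hA f s
  have h2 := act_sq hAB f s
  have h3 := act_sq hB f s
  rw [act_sub, act_sub, eval_sub] at h2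
  set a := A.eval 1 with hadef
  set b := B.eval 1 with hbdef
  set x := act A f s / a with hx
  set c := act B f s / b with hc
  set F2 := act B (fun j => f j ^ 2) s / b with hF2
  set X2 := act A (fun j => f j ^ 2) s / a with hX2
  set Y := b / a with hY
  have ex : act A f s = a * x := by rw [hx]; field_simp
  have ec : act B f s = b * c := by rw [hc]; field_simp
  have eF : act B (fun j => f j ^ 2) s = b * F2 := by rw [hF2]; field_simp
  have eX : act A (fun j => f j ^ 2) s = a * X2 := by rw [hX2]; field_simp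
  have eb : b = a * Y := by rw [hY]; field_simp
  have hY1 : 1 ≤ Y := by rw [hY, le_div_iff₀ ha]; linarith
  rw [ex, eX] at h1
  rw [ec, eF] at h3
  rw [ex, ec, eX, eF] at h2
  have g1 : x ^ 2 ≤ X2 := by
    have : a ^ 2 * x ^ 2 ≤ a ^ 2 * X2 := by nlinarith
    exact le_of_mul_le_mul_left this (by positivity)
  have g3 : c ^ 2 ≤ F2 := by
    have : b ^ 2 * c ^ 2 ≤ b ^ 2 * F2 := by nlinarith
    exact le_of_mul_le_mul_left this (by positivity)
  have g2 : (Y * c - x) ^ 2 ≤ (Y - 1) * (Y * F2 - X2) := by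
    have : a ^ 2 * (Y * c - x) ^ 2 ≤ a ^ 2 * ((Y - 1) * (Y * F2 - X2)) := by
      rw [eb] at h2
      nlinarith
    exact le_of_mul_le_mul_left this (by positivity)
  have g4 : Y * c ^ 2 - 2 * c * x + x ^ 2 ≤ (Y - 1) * F2 := by
    have h5 : (Y - 1) * x ^ 2 ≤ (Y - 1) * X2 := mul_le_mul_of_nonneg_left g1 (by linarith)
    have : Y * (Y * c ^ 2 - 2 * c * x + x ^ 2) ≤ Y * ((Y - 1) * F2) := by nlinarith
    exact le_of_mul_le_mul_left this (by linarith)
  rcases hY1.eq_or_lt with h0 | h0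
  · rw [← h0] at g4 ⊢
    have hxc : (c - x) ^ 2 ≤ 0 := by nlinarith
    have hxc' : c - x = 0 := by
      have := le_antisymm hxc (sq_nonneg _)
      exact pow_eq_zero_iff (two_ne_zero) |>.1 this
    have : x = c := by linarith
    rw [this]
    nlinarith
  · have h6 : (Y - 1) * (x + c) ^ 2 ≤ (Y - 1) * ((Y + 3) * F2) := by
      have h7 : (Y + 3) * (Y * c ^ 2 - 2 * c * x + x ^ 2) ≤ (Y + 3) * ((Y - 1) * F2) :=
        mul_le_mul_of_nonneg_left g4 (by linarith)
      nlinarith [sq_nonneg ((Y + 1) * c - 2 * x)]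
    exact le_of_mul_le_mul_left h6 (by linarith)

end Pool.Agent.Lib.MP_24a1b5_co.Gap
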