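import Pool.Agent.Lib.MP_24a1b5_co.Init.Nfam

/-!
# The inductive proof that `10 I' - (6 α - n) I` has nonnegative partial sums
-/

set_option autoImplicit false
open Polynomial
open scoped Classical

namespace Pool.Agent.Lib.MP_24a1b5_co.Init

open Pool.Agent.Lib.MP_24a1b5_co (F)

variable {V : Type*}

/-- the indicator of `0` -/
noncomputable def ind0 : ℕ → ℤ[X]
  | 0 => 1
  | _ + 1 => 0

lemma pat_nn : ∀ (f : F V) (φ : ℕ → ℤ[X]), (∀ t, NN (φ t)) → NN (Pat f φ)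
  | F.nil, φ, h => h 0
  | F.cons _ c r, φ, h => by
      rw [Pat]
      split_ifs
      · exact ((nnQ c).mul (pat_nn r _ fun t => h (t + 1))).add ((f1 c).mul (pat_nn r _ h))
      · exact (nnP c).mul (pat_nn r _ h)

lemma f15 : ∀ f : F V, NN ((nA f : ℤ[X]) * Q f - SA f)
  | F.nil => by simpa [SA, nA] using NN.zero
  | F.cons _ c r => by
      rw [Q_cons, SA, nA]
      split_ifs
      · refine NN.congr (((nnP c).mul (f15 r)).add ((f1 c).mul (nnQ r))) ?_
        push_cast; ring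
      · refine NN.congr ((nnP c).mul (f15 r)) ?_
        push_cast; ring

lemma f16 (f : F V) : NN (Q f - Pat f ind0) := by
  have h := pat_nn f (fun t => 1 * 1 + (-1) * ind0 t) (fun t => by
    cases t with
    | zero => exact NN.congr NN.zero (by simp [ind0])
    | succ t => exact NN.congr NN.one (by simp [ind0]))
  rw [pat_lin f 1 (-1) (fun _ => 1) ind0, pat_one] at h
  exact NN.congr h (by ring)

lemma pat_ind_succ : ∀ f : F V, Pat f (fun t => ind0 (t + 1)) = 0 := by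
  intro f
  have h := pat_lin f 0 0 (fun _ => 1) (fun _ => 1)
  have e : (fun t : ℕ => ind0 (t + 1)) = fun _ : ℕ => (0 : ℤ[X]) * 1 + 0 * 1 := by
    funext t; simp [ind0]
  rw [e, h]; ring

lemma f17 : ∀ f : F V, nA f ≠ 0 → NN ((nA f : ℤ[X]) * Q f - SA f - Pat f ind0)
  | F.nil, h => absurd rfl h
  | F.cons _ c r, h => by
      rw [Q_cons, SA, Pat]
      by_cases hc : nA c = 0
      · rw [if_pos hc, if_pos hc, nA, if_pos hc, pat_ind_succ r]
        refine NN.congr (((f1 c).mul (f16 r)).add ((nnP c).mul (f15 r))) ?_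
        push_cast; ring
      · rw [nA, if_neg hc, zero_add] at h
        rw [if_neg hc, if_neg hc, nA, if_neg hc]
        refine NN.congr ((nnP c).mul (f17 r h)) ?_
        push_cast; ring

lemma f18 : ∀ f : F V,
    NN ((nA f : ℤ[X]) * P f - (1 + X) * SAP f - ((nA f : ℤ[X]) * Q f - SA f))
  | F.nil => by simpa [SA, SAP, nA] using NN.zero
  | F.cons _ c r => by
      rw [P_cons, Q_cons, SA, SAP, nA]
      have h19 : NN ((nA r : ℤ[X]) * P r - (1 + X) * SAP r) :=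
        NN.congr ((f18 r).add (f15 r)) (by ring)
      split_ifs
      · refine NN.congr ((((nnP c).mul (f18 r)).add ((f1 c).mul (f1 r))).add
          (NN.X.mul ((nnQ c).mul h19))) ?_
        push_cast; ring
      · refine NN.congr (((nnP c).mul (f18 r)).add (NN.X.mul ((nnQ c).mul h19))) ?_
        push_cast; ring

lemma powR3 : ∀ k : ℕ, NN ((1 + X : ℤ[X]) ^ (k + 3) - 1 - ((k : ℤ[X]) + 3) * X -
    (3 * (k : ℤ[X]) + 3) * X ^ 2 - ((k : ℤ[X]) + 1) * X ^ 3)
  | 0 => by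
      refine NN.congr NN.zero ?_
      push_cast; ring
  | k + 1 => by
      have hk := NN.natCast k
      refine NN.congr (((NN.one.add NN.X).mul (powR3 k)).add
        (((hk.mul (NN.X.mul NN.X)).add ((((NN.num 3).mul hk).add (NN.num 2)).mul
          (NN.X.mul (NN.X.mul NN.X)))).add ((hk.add NN.one).mul
          (NN.X.mul (NN.X.mul (NN.X.mul NN.X)))))) ?_
      push_cast; ring

lemma powR0 : ∀ k : ℕ, NN ((1 + X : ℤ[X]) ^ k - 1)
  | 0 => NN.congr NN.zero (by ring)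
  | k + 1 => by
      refine NN.congr (((NN.one.add NN.X).mul (powR0 k)).add NN.X) ?_
      ring

lemma phiG (t : ℕ) : PSN (5 * (1 - X) * ((t : ℤ[X]) * (1 + X) ^ (t - 1)) + (1 + X) ^ t +
    (10 - 3 * X) - 5 * X * (t : ℤ[X])) := by
  match t with
  | 0 =>
    refine PSN.congr ((PSN.oneSub (NN.num 3)).add (PSN.ofNN (NN.num 8))) ?_
    push_cast; ring
  | 1 =>
    refine PSN.congr ((PSN.oneSub (NN.num 12)).add (PSN.ofNN (NN.num 4))) ?_
    push_cast; ring
  | 2 =>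
    refine PSN.congr ((PSN.oneSub ((NN.num 20).add ((NN.num 9).mul NN.X))).add
      (PSN.ofNN NN.one)) ?_
    push_cast; ring
  | k + 3 =>
    have hk := NN.natCast k
    have h1 : NN (5 * ((k : ℤ[X]) + 3) * (1 + X) ^ (k + 2) - (4 * (k : ℤ[X]) + 4) * X -
        ((k : ℤ[X]) + 1) * X ^ 2) := by
      refine NN.congr (((((NN.num 5).mul (hk.add (NN.num 3))).mul (powR (k + 1))).add
        ((NN.num 5).mul (hk.add (NN.num 3)))).add
        (((((NN.num 5).mul (hk.mul hk)).add ((NN.num 21).mul hk)).add (NN.num 26)).mul NN.X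
          |>.add (((((NN.num 5).mul (hk.mul hk)).add ((NN.num 19).mul hk)).add
            (NN.num 14)).mul (NN.X.mul NN.X)))) ?_
      push_cast; ring
    refine PSN.congr (((PSN.oneSub h1).add (PSN.oneSub (NN.num 11))).add
      (PSN.ofNN (powR3 k))) ?_
    rw [show k + 3 - 1 = k + 2 by omega]
    push_cast
    ring

lemma phiH (t : ℕ) : PSN ((3 - 2 * X) * ind0 t + 5 * (1 - X) * ((t : ℤ[X]) * (1 + X) ^ (t - 1)) +
    (1 + X) ^ t - (4 - 2 * X)) := by
  match t with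
  | 0 =>
    refine PSN.congr PSN.zero ?_
    rw [ind0]
    push_cast; ring
  | k + 1 =>
    have hk := NN.natCast k
    have h2 : NN ((1 + X : ℤ[X]) ^ (k + 1) - 1 - ((k : ℤ[X]) + 1) * X) := by
      refine NN.congr ((powR k).add (hk.mul (NN.X.mul NN.X))) ?_
      ring
    refine PSN.congr (((PSN.oneSub (((NN.num 5).mul (hk.add NN.one)).mul (powR0 k))).add
      (PSN.ofNN h2)).add ((PSN.oneSub (((NN.num 4).mul hk).add (NN.num 2))).add
      (PSN.ofNN hk))) ?_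
    rw [Nat.add_sub_cancel, ind0]
    push_cast
    ring

/-- the inductive statement -/
def Inv5 (f : F V) : Prop :=
  PSN (EP 10 0 6 (-1) f - (5 * (1 - X) * SAP f +
    (3 - 2 * X) * ((nA f : ℤ[X]) * P f - (1 + X) * SAP f) + 4 * X * (SP f - SAP f))) ∧
  PSN (EQ 10 0 6 (-1) f - (4 * ((nA f : ℤ[X]) * Q f - SA f) +
    (4 - 2 * X) * (SQ f - SA f) - ((m f : ℤ[X]) - (nA f : ℤ[X])) * Q f))

lemma mul32 {p : ℤ[X]} (h : NN p) : PSN ((3 - 2 * X) * p) := by
  refine PSN.congr ((PSN.oneSub ((NN.num 2).mul h)).add (PSN.ofNN h)) ?_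
  ring

lemma mul42 {p : ℤ[X]} (h : NN p) : PSN ((4 - 2 * X) * p) := by
  refine PSN.congr ((PSN.oneSub ((NN.num 2).mul h)).add (PSN.ofNN ((NN.num 2).mul h))) ?_
  ring

lemma treeA5 (c : F V) (hc : nA c = 0) (h : Inv5 c) :
    PSN (ET 10 0 6 (-1) c - (5 * (1 - X) * Q c + (3 - 2 * X) * (P c - Q c))) ∧
    PSN (EP 10 0 6 (-1) c - 4 * (P c - Q c)) := by
  obtain ⟨i1, i2⟩ := h
  rw [SAP_zero c hc, hc] at i1
  rw [SA_zero c hc, hc] at i2
  constructor
  · refine PSN.congr (((i1.add (PSN.mul' NN.X i2)).add ((PSN.oneSub (f10 c)).add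
      (PSN.ofNN ((NN.num 3).mul (f10 c))))).add
      (PSN.ofNN (NN.X.mul (NN.X.mul (f6 c))))) ?_
    rw [ET, if_pos hc, hc]; push_cast; ring
  · refine PSN.congr (i1.add (PSN.ofNN ((NN.num 4).mul (f2 c)))) ?_
    push_cast; ring

lemma patG (f : F V) :
    PSN (5 * (1 - X) * SAP f + P f + (10 - 3 * X) * Q f - 5 * X * SA f) := by
  have h := pat_psn f _ phiG
  have e : (fun t : ℕ => (5 * (1 - X) * ((t : ℤ[X]) * (1 + X) ^ (t - 1)) + (1 + X) ^ t +
      (10 - 3 * X) - 5 * X * (t : ℤ[X]))) =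
      fun t : ℕ => (5 * (1 - X)) * ((t : ℤ[X]) * (1 + X) ^ (t - 1)) +
        1 * (1 * (1 + X) ^ t + 1 * ((10 - 3 * X) * 1 + (-(5 * X)) * (t : ℤ[X]))) := by
    funext t; ring
  rw [e, pat_lin f (5 * (1 - X)) 1 (fun t => (t : ℤ[X]) * (1 + X) ^ (t - 1))
    (fun t => 1 * (1 + X) ^ t + 1 * ((10 - 3 * X) * 1 + (-(5 * X)) * (t : ℤ[X]))),
    pat_lin f 1 1 (fun t => (1 + X) ^ t) (fun t => (10 - 3 * X) * 1 + (-(5 * X)) * (t : ℤ[X])),
    pat_lin f (10 - 3 * X) (-(5 * X)) (fun _ => 1) (fun t => (t : ℤ[X])), pat_t, pat_one] at h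
  refine PSN.congr ((h.add (PSN.oneSub ((NN.num 5).mul (pat_SAP f)))).add
    (PSN.ofNN (pat_pow f))) ?_
  ring

lemma patH (f : F V) :
    PSN ((3 - 2 * X) * Pat f ind0 + 5 * (1 - X) * SAP f + P f - (4 - 2 * X) * Q f) := by
  have h := pat_psn f _ phiH
  have e : (fun t : ℕ => ((3 - 2 * X) * ind0 t + 5 * (1 - X) *
      ((t : ℤ[X]) * (1 + X) ^ (t - 1)) + (1 + X) ^ t - (4 - 2 * X))) =
      fun t : ℕ => (5 * (1 - X)) * ((t : ℤ[X]) * (1 + X) ^ (t - 1)) +
        1 * (1 * (1 + X) ^ t + 1 * ((-(4 - 2 * X)) * 1 + (3 - 2 * X) * ind0 t)) := by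
    funext t; ring
  rw [e, pat_lin f (5 * (1 - X)) 1 (fun t => (t : ℤ[X]) * (1 + X) ^ (t - 1))
    (fun t => 1 * (1 + X) ^ t + 1 * ((-(4 - 2 * X)) * 1 + (3 - 2 * X) * ind0 t)),
    pat_lin f 1 1 (fun t => (1 + X) ^ t) (fun t => (-(4 - 2 * X)) * 1 + (3 - 2 * X) * ind0 t),
    pat_lin f (-(4 - 2 * X)) (3 - 2 * X) (fun _ => 1) ind0, pat_one] at h
  refine PSN.congr ((h.add (PSN.oneSub ((NN.num 5).mul (pat_SAP f)))).add
    (PSN.ofNN (pat_pow f))) ?_
  ring

lemma treeB5 (c : F V) (hc : nA c ≠ 0) (h : Inv5 c) :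
    PSN (ET 10 0 6 (-1) c - 4 * X * Q c) ∧
    PSN (EP 10 0 6 (-1) c - ((4 - 2 * X) * Q c - P c)) := by
  obtain ⟨i1, i2⟩ := h
  constructor
  · have k1 : PSN (3 * ((1 - X) * ((nA c : ℤ[X]) * Q c - SA c))) :=
      PSN.congr (PSN.oneSub ((NN.num 3).mul (f15 c))) (by ring)
    have k2 : PSN (4 * X * (SP c - SAP c)) := PSN.ofNN (((NN.num 4).mul NN.X).mul (f8 c))
    have k3 : PSN ((4 - 2 * X) * (X * (SQ c - SA c))) := mul42 (NN.X.mul (f12 c))
    refine PSN.congr ((((((i1.add (PSN.mul' NN.X i2)).add (mul32 (f18 c))).add k1).add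
      k2).add k3).add (patG c)) ?_
    rw [ET, if_neg hc]; push_cast; ring
  · have k2 : PSN (4 * X * (SP c - SAP c)) := PSN.ofNN (((NN.num 4).mul NN.X).mul (f8 c))
    refine PSN.congr ((((i1.add (mul32 (f18 c))).add (mul32 (f17 c hc))).add k2).add
      (patH c)) ?_
    ring

lemma inv5 : ∀ f : F V, Inv5 f
  | F.nil => by
      refine ⟨?_, ?_⟩
      · refine PSN.congr PSN.zero ?_
        simp [EP, SAP, SP, P_nil, al, F.sz, nA]
      · refine PSN.congr PSN.zero ?_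
        simp [EQ, SA, SQ, Q_nil, alQ, szQ, nA, m]
  | F.cons v c r => by
      have ic := inv5 c
      obtain ⟨r1, r2⟩ := inv5 r
      by_cases h : nA c = 0
      · obtain ⟨t1, t2⟩ := treeA5 c h ic
        refine ⟨?_, ?_⟩
        · refine PSN.congr ((t1.mul (nnP r)).add (PSN.mul' (nnT c) r1)) ?_
          rw [EP_cons, SAP, SP, nA, P_cons, if_pos h, if_pos h]; push_cast; ring
        · refine PSN.congr ((t2.mul (nnQ r)).add (PSN.mul' (nnP c) r2)) ?_
          rw [EQ_cons, SA, SQ, nA, m, Q_cons, if_pos h, if_pos h]; push_cast; ring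
      · obtain ⟨t1, t2⟩ := treeB5 c h ic
        refine ⟨?_, ?_⟩
        · refine PSN.congr ((t1.mul (nnP r)).add (PSN.mul' (nnT c) r1)) ?_
          rw [EP_cons, SAP, SP, nA, P_cons, if_neg h, if_neg h]; push_cast; ring
        · refine PSN.congr ((t2.mul (nnQ r)).add (PSN.mul' (nnP c) r2)) ?_
          rw [EQ_cons, SA, SQ, nA, m, Q_cons, if_neg h, if_neg h]; push_cast; ring

/-- `10 P' - (6 α - n) P` has nonnegative partial sums -/
theorem ineqPSa (f : F V) : PSN (EP 10 0 6 (-1) f) := by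
  obtain ⟨i1, -⟩ := inv5 f
  have h19 : NN ((nA f : ℤ[X]) * P f - (1 + X) * SAP f) :=
    NN.congr ((f18 f).add (f15 f)) (by ring)
  refine PSN.congr (((i1.add (PSN.oneSub ((NN.num 5).mul (nnSAP f)))).add (mul32 h19)).add
    (PSN.ofNN (((NN.num 4).mul NN.X).mul (f8 f)))) ?_
  ring

end Pool.Agent.Lib.MP_24a1b5_co.Init
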