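import Pool.Agent.Lib.MP_24a1b5_co.Init.Gap2
import Pool.Agent.Lib.MP_24a1b5_co.InQ

/-!
# The Poincaré inequality for the independence sequence, and valleys
-/

set_option autoImplicit false
open N36365310 Polynomial
open scoped Classical

namespace Pool.Agent.Lib.MP_24a1b5_co.Gap

open Pool.Agent.Lib.MP_24a1b5_co (F)

variable {U : Type*}

/-- weights -/
noncomputable def wt [Fintype U] (G : SimpleGraph U) (l : ℝ) (j : ℕ) : ℝ :=
  (indepSeq G j : ℝ) * l ^ j

lemma wt_nonneg [Fintype U] (G : SimpleGraph U) {l : ℝ} (hl : 0 ≤ l) (j : ℕ) : 0 ≤ wt G l j := by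
  rw [wt]; positivity

lemma indepSeq_zero_of_lt [Fintype U] (G : SimpleGraph U) {j : ℕ} (h : Fintype.card U < j) :
    indepSeq G j = 0 := by
  rw [In.indepSeq_eq_cnt]
  exact cnt_eq_zero (by rw [Finset.card_univ]; exact h)

theorem poincare_seq [Fintype U] (G : SimpleGraph U) (hG : G.IsAcyclic) {l : ℝ} (hl : 0 < l)
    (hl1 : l ≤ 6 / 5) (h : ℕ → ℝ) :
    (∑ j ∈ Finset.range (Fintype.card U + 1), wt G l j * h j ^ 2) -
      (∑ j ∈ Finset.range (Fintype.card U + 1), wt G l j * h j) ^ 2 /
        (∑ j ∈ Finset.range (Fintype.card U + 1), wt G l j) ≤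
      51 * ∑ j ∈ Finset.range (Fintype.card U + 1),
        ((j : ℝ) + 1) * wt G l (j + 1) * (h (j + 1) - h j) ^ 2 := by
  obtain ⟨f, hf, hv⟩ := F.exists_fits G (degen_of_acyclic hG) _ (Finset.univ : Finset U) rfl
  have hP : PR l f = Z G (fun _ => C l * X) Finset.univ := by
    rw [← hv, (F.link G (C l * X) f hf).1]; rfl
  have hc : ∀ j, (PR l f).coeff j = wt G l j := by
    intro j
    rw [hP, Z_const_eq_sum, finsetSum_coeff]
    have e : ∀ k ∈ Finset.range ((Finset.univ : Finset U).card + 1),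
        ((cnt G Finset.univ k : ℝ[X]) * (C l * X) ^ k).coeff j =
          if k = j then (cnt G Finset.univ k : ℝ) * l ^ k else 0 := by
      intro k _
      rw [mul_pow, ← C_pow, ← mul_assoc]
      have e2 : (cnt G Finset.univ k : ℝ[X]) * C (l ^ k) = C ((cnt G Finset.univ k : ℝ) * l ^ k) := by
        rw [C_mul, C_eq_natCast]
      rw [e2, coeff_C_mul, coeff_X_pow]
      by_cases hkj : k = j
      · subst hkj; simp
      · rw [if_neg hkj, if_neg (fun h => hkj h.symm), mul_zero]
    rw [Finset.sum_congr rfl e, Finset.sum_ite_eq']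
    rw [wt, In.indepSeq_eq_cnt]
    split_ifs with hj
    · rfl
    · rw [Finset.mem_range, not_lt] at hj
      rw [cnt_eq_zero (by omega)]
      simp
  have hdeg : (PR l f).natDegree < Fintype.card U + 1 := by
    rw [Nat.lt_succ_iff, natDegree_le_iff_coeff_eq_zero]
    intro j hj
    rw [hc, wt, indepSeq_zero_of_lt G hj]
    simp
  have hdeg2 : (derivative (PR l f)).natDegree < Fintype.card U + 1 :=
    lt_of_le_of_lt (natDegree_derivative_le _) (by omega)
  have key := poincare hl hl1 f h
  rw [V, act_sum _ _ hdeg, act_sum _ _ hdeg, act_sum _ _ hdeg2] at key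
  have e1 : (PR l f).eval 1 = ∑ j ∈ Finset.range (Fintype.card U + 1), wt G l j := by
    rw [eval_eq_sum_range' hdeg]
    apply Finset.sum_congr rfl
    intro j _
    rw [hc, one_pow, mul_one]
  rw [e1] at key
  have e2 : ∀ g : ℕ → ℝ, ∑ j ∈ Finset.range (Fintype.card U + 1), (PR l f).coeff j * g (0 + j) =
      ∑ j ∈ Finset.range (Fintype.card U + 1), wt G l j * g j := by
    intro g
    apply Finset.sum_congr rfl
    intro j _
    rw [hc, Nat.zero_add]
  have e3 : ∑ j ∈ Finset.range (Fintype.card U + 1), (derivative (PR l f)).coeff j *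
      gr h (0 + j) = ∑ j ∈ Finset.range (Fintype.card U + 1),
        ((j : ℝ) + 1) * wt G l (j + 1) * (h (j + 1) - h j) ^ 2 := by
    apply Finset.sum_congr rfl
    intro j _
    rw [coeff_derivative, hc, Nat.zero_add, gr]
    ring
  rw [e2 h, e3] at key
  have e4 := e2 (fun j => h j ^ 2)
  rw [e4] at key
  exact key

/-- the ramp from `p` to `p + m` -/
noncomputable def ramp (p m j : ℕ) : ℝ := ((min m (j - p) : ℕ) : ℝ) / m

lemma valley {w : ℕ → ℝ} {N p m : ℕ} {K : ℝ} (hm : 0 < m) (hK : 0 ≤ K) (hw : ∀ j, 0 ≤ w j)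
    (hW : 0 < ∑ j ∈ Finset.range N, w j)
    (hPI : ∀ h : ℕ → ℝ, (∑ j ∈ Finset.range N, w j * h j ^ 2) -
      (∑ j ∈ Finset.range N, w j * h j) ^ 2 / (∑ j ∈ Finset.range N, w j) ≤
      K * ∑ j ∈ Finset.range N, ((j : ℝ) + 1) * w (j + 1) * (h (j + 1) - h j) ^ 2) :
    (∑ j ∈ (Finset.range N).filter (· ≤ p), w j) *
      (∑ j ∈ (Finset.range N).filter (p + m ≤ ·), w j) ≤
      (∑ j ∈ Finset.range N, w j) * (K * (((p : ℝ) + m) / m ^ 2 *
        ∑ i ∈ Finset.Ico p (p + m), w (i + 1))) := by
  set W := ∑ j ∈ Finset.range N, w j with hWdef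
  have hm' : (0 : ℝ) < m := by exact_mod_cast hm
  have key := hPI (ramp p m)
  have r0 : ∀ j, 0 ≤ ramp p m j := fun j => by rw [ramp]; positivity
  have r1 : ∀ j, j ≤ p → ramp p m j = 0 := by
    intro j hj
    rw [ramp, Nat.sub_eq_zero_of_le hj]
    simp
  have r2 : ∀ j, p + m ≤ j → ramp p m j = 1 := by
    intro j hj
    rw [ramp, min_eq_left (by omega)]
    exact div_self hm'.ne'
  -- the right side
  have k1 : ∑ j ∈ Finset.range N, ((j : ℝ) + 1) * w (j + 1) * (ramp p m (j + 1) - ramp p m j) ^ 2 ≤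
      ((p : ℝ) + m) / m ^ 2 * ∑ i ∈ Finset.Ico p (p + m), w (i + 1) := by
    have a1 : ∀ j : ℕ, ((j : ℝ) + 1) * w (j + 1) * (ramp p m (j + 1) - ramp p m j) ^ 2 ≤
        if j ∈ Finset.Ico p (p + m) then ((p : ℝ) + m) / m ^ 2 * w (j + 1) else 0 := by
      intro j
      split_ifs with hj
      · rw [Finset.mem_Ico] at hj
        have e : ramp p m (j + 1) - ramp p m j = 1 / m := by
          rw [ramp, ramp, min_eq_right (by omega), min_eq_right (by omega),
            show j + 1 - p = (j - p) + 1 by omega]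
          push_cast
          ring
        rw [e, div_pow, one_pow]
        have hj2 : (j : ℝ) + 1 ≤ (p : ℝ) + m := by exact_mod_cast (by omega : j + 1 ≤ p + m)
        have : ((j : ℝ) + 1) * w (j + 1) * (1 / m ^ 2) ≤
            ((p : ℝ) + m) * w (j + 1) * (1 / m ^ 2) := by
          apply mul_le_mul_of_nonneg_right _ (by positivity)
          exact mul_le_mul_of_nonneg_right hj2 (hw _)
        refine this.trans (le_of_eq ?_)
        ring
      · rw [Finset.mem_Ico, not_and_or, not_le, not_lt] at hj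
        have e : ramp p m (j + 1) - ramp p m j = 0 := by
          rcases hj with hj | hj
          · rw [r1 j hj.le, r1 (j + 1) (by omega), sub_zero]
          · rw [r2 j hj, r2 (j + 1) (by omega), sub_self]
        rw [e]
        simp
    refine (Finset.sum_le_sum fun j _ => a1 j).trans ?_
    rw [← Finset.sum_filter, Finset.mul_sum]
    apply Finset.sum_le_sum_of_subset_of_nonneg
    · intro x hx
      exact (Finset.mem_filter.1 hx).2
    · intro i _ _
      have := hw (i + 1)
      positivity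
  -- the left side
  set L := ∑ j ∈ (Finset.range N).filter (· ≤ p), w j with hL
  set H := ∑ j ∈ Finset.range N, w j * ramp p m j ^ 2 with hH
  have hLn : 0 ≤ L := Finset.sum_nonneg fun j _ => hw j
  have hHn : 0 ≤ H := Finset.sum_nonneg fun j _ => mul_nonneg (hw j) (sq_nonneg _)
  have hsplit : (∑ j ∈ (Finset.range N).filter (fun j => ¬ j ≤ p), w j) = W - L := by
    have := Finset.sum_filter_add_sum_filter_not (Finset.range N) (· ≤ p) w
    rw [← hL, ← hWdef] at this
    linarith
  have k2 : (∑ j ∈ Finset.range N, w j * ramp p m j) ^ 2 ≤ (W - L) * H := by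
    have e1 : ∑ j ∈ Finset.range N, w j * ramp p m j =
        ∑ j ∈ (Finset.range N).filter (fun j => ¬ j ≤ p), w j * ramp p m j := by
      symm
      apply Finset.sum_subset (Finset.filter_subset _ _)
      intro j hj hj2
      rw [Finset.mem_filter, not_and, not_not] at hj2
      rw [r1 j (hj2 hj), mul_zero]
    have e2 : (∑ j ∈ (Finset.range N).filter (fun j => ¬ j ≤ p), w j * ramp p m j) ^ 2 ≤
        (∑ j ∈ (Finset.range N).filter (fun j => ¬ j ≤ p), w j) *
        ∑ j ∈ (Finset.range N).filter (fun j => ¬ j ≤ p), w j * ramp p m j ^ 2 := by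
      apply Finset.sum_sq_le_sum_mul_sum_of_sq_le_mul
      · intro j _
        exact hw j
      · intro j _
        exact mul_nonneg (hw j) (sq_nonneg _)
      · intro j _
        exact le_of_eq (by ring)
    have e3 : ∑ j ∈ (Finset.range N).filter (fun j => ¬ j ≤ p), w j * ramp p m j ^ 2 ≤ H := by
      apply Finset.sum_le_sum_of_subset_of_nonneg (Finset.filter_subset _ _)
      intro j _ _
      exact mul_nonneg (hw j) (sq_nonneg _)
    rw [e1]
    refine e2.trans ?_
    rw [hsplit]
    apply mul_le_mul_of_nonneg_left e3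
    rw [← hsplit]
    exact Finset.sum_nonneg fun j _ => hw j
  have k3 : (∑ j ∈ (Finset.range N).filter (p + m ≤ ·), w j) ≤ H := by
    have e1 : (∑ j ∈ (Finset.range N).filter (p + m ≤ ·), w j) =
        ∑ j ∈ (Finset.range N).filter (p + m ≤ ·), w j * ramp p m j ^ 2 := by
      apply Finset.sum_congr rfl
      intro j hj
      rw [r2 j (Finset.mem_filter.1 hj).2]
      ring
    rw [e1]
    apply Finset.sum_le_sum_of_subset_of_nonneg (Finset.filter_subset _ _)
    intro j _ _
    exact mul_nonneg (hw j) (sq_nonneg _)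
  have k4 : (∑ j ∈ Finset.range N, w j * ramp p m j) ^ 2 / W ≤ (W - L) * H / W :=
    div_le_div_of_nonneg_right k2 hW.le
  have k5 : L * H / W ≤ K * (((p : ℝ) + m) / m ^ 2 * ∑ i ∈ Finset.Ico p (p + m), w (i + 1)) := by
    have e : L * H / W = H - (W - L) * H / W := by field_simp; ring
    rw [e]
    have := mul_le_mul_of_nonneg_left k1 hK
    linarith
  rw [div_le_iff₀ hW] at k5
  calc L * (∑ j ∈ (Finset.range N).filter (p + m ≤ ·), w j) ≤ L * H :=
        mul_le_mul_of_nonneg_left k3 hLn
    _ ≤ _ := by linarith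

end Pool.Agent.Lib.MP_24a1b5_co.Gap
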