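import Pool.Agent.Lib.MP_24a1b5_co.Ends

/-!
# The ratio of consecutive terms of the independence sequence of a forest does not drop quickly

`(k + 1) i_{k+1}² ≤ i_k ((k + 2) i_{k+2} + 3 i_{k+1})`.
-/

set_option autoImplicit false
open Finset
open scoped Classical

namespace Pool.Agent.Lib.MP_24a1b5_co.Init

open Pool.Agent.Lib.MP_24a1b5_co

variable {V : Type*}

lemma free_del (G : SimpleGraph V) {S I : Finset V} {v : V} (hv : v ∈ free G S I) :
    free G (del G v S) I = del G v (free G S I) := by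
  ext w
  simp only [free, mem_filter, mem_del] at hv ⊢
  constructor
  · rintro ⟨⟨h1, h2, h3⟩, h4⟩
    refine ⟨⟨h1, fun x hx => ?_⟩, h2, h3⟩
    have := h4 hx
    rw [mem_del, mem_del] at this
    rw [mem_del]
    exact ⟨this.1.1, this.2⟩
  · rintro ⟨⟨h1, h2⟩, h3, h4⟩
    refine ⟨⟨h1, h3, h4⟩, fun x hx => ?_⟩
    have a1 := mem_del.1 (h2 hx)
    have a2 := mem_del.1 (hv.2 hx)
    rw [mem_del, mem_del]
    exact ⟨⟨a1.1, a2.2⟩, a1.2⟩

lemma two_step (G : SimpleGraph V) (S : Finset V) (k : ℕ) :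
    (k + 1) * ((k + 2) * cnt G S (k + 2)) =
      ∑ I ∈ Ik G S k, ∑ v ∈ free G S I, (del G v (free G S I)).card := by
  have h1 : (k + 2) * cnt G S (k + 2) = ∑ v ∈ S, cnt G (del G v S) (k + 1) :=
    succ_mul_cnt G S (k + 1)
  rw [h1, Finset.mul_sum]
  have h2 : ∀ v ∈ S, (k + 1) * cnt G (del G v S) (k + 1) =
      ∑ I ∈ Ik G S k, if v ∈ free G S I then (del G v (free G S I)).card else 0 := by
    intro v hv
    rw [succ_mul_cnt', Ik_del, Finset.sum_filter]
    apply Finset.sum_congr rfl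
    intro I _
    have e : I ⊆ del G v S ↔ v ∈ free G S I := by
      rw [free, mem_filter]
      exact ⟨fun h => ⟨hv, h⟩, fun h => h.2⟩
    by_cases h : v ∈ free G S I
    · rw [if_pos (e.2 h), if_pos h, free_del G h]
    · rw [if_neg (fun h' => h (e.1 h')), if_neg h]
  rw [Finset.sum_congr rfl h2, Finset.sum_comm]
  apply Finset.sum_congr rfl
  intro I _
  rw [← Finset.sum_filter]
  apply Finset.sum_congr _ (fun _ _ => rfl)
  ext v
  rw [mem_filter]
  exact ⟨fun h => h.2, fun h => ⟨(mem_filter.1 h).1, h⟩⟩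

lemma card_del (G : SimpleGraph V) {H : Finset V} {v : V} (hv : v ∈ H) :
    (del G v H).card + (nb G v H).card + 1 = H.card := by
  have h1 : (H.erase v).filter (fun u => ¬ G.Adj v u) = del G v H := by
    ext u
    simp only [mem_filter, mem_erase, mem_del]
    tauto
  have h2 : (H.erase v).filter (fun u => G.Adj v u) = nb G v H := by
    ext u
    simp only [mem_filter, mem_erase, mem_nb]
    constructor
    · rintro ⟨⟨-, h⟩, h'⟩
      exact ⟨h, h'⟩
    · rintro ⟨h, h'⟩
      exact ⟨⟨fun e => G.irrefl (e ▸ h'), h⟩, h'⟩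
  have h3 := Finset.card_filter_add_card_filter_not (s := H.erase v) (fun u => G.Adj v u)
  rw [h1, h2, Finset.card_erase_of_mem hv] at h3
  have h4 : 0 < H.card := Finset.card_pos.2 ⟨v, hv⟩
  omega

lemma sq_le (G : SimpleGraph V) (hG : Degen G) (H : Finset V) :
    H.card ^ 2 ≤ (∑ v ∈ H, (del G v H).card) + 3 * H.card := by
  have h1 : ∑ v ∈ H, ((del G v H).card + (nb G v H).card + 1) = ∑ v ∈ H, H.card :=
    Finset.sum_congr rfl fun v hv => card_del G hv
  rw [Finset.sum_add_distrib, Finset.sum_add_distrib, Finset.sum_const, Finset.sum_const,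
    smul_eq_mul, smul_eq_mul, mul_one] at h1
  have h2 : ∑ v ∈ H, (nb G v H).card ≤ 2 * H.card := e2_le hG H.card H rfl
  have h3 : H.card ^ 2 = H.card * H.card := pow_two _
  omega

/-- The drop inequality. -/
theorem drop (G : SimpleGraph V) (hG : Degen G) (S : Finset V) (k : ℕ) :
    (k + 1) * cnt G S (k + 1) ^ 2 ≤
      cnt G S k * ((k + 2) * cnt G S (k + 2) + 3 * cnt G S (k + 1)) := by
  have h1 := two_step G S k
  have h2 := succ_mul_cnt' G S k
  have h3 : ∑ I ∈ Ik G S k, (free G S I).card ^ 2 ≤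
      (k + 1) * ((k + 2) * cnt G S (k + 2)) + 3 * ((k + 1) * cnt G S (k + 1)) := by
    rw [h1, h2, Finset.mul_sum, ← Finset.sum_add_distrib]
    exact Finset.sum_le_sum fun I _ => sq_le G hG _
  have h4 : ((k + 1) * cnt G S (k + 1)) ^ 2 ≤
      cnt G S k * ∑ I ∈ Ik G S k, (free G S I).card ^ 2 := by
    rw [h2, cnt_eq]
    have := sq_sum_le_card_mul_sum_sq (s := Ik G S k) (f := fun I => ((free G S I).card : ℤ))
    exact_mod_cast this
  have h5 := h4.trans (Nat.mul_le_mul_left _ h3)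
  have h6 : (k + 1) * ((k + 1) * cnt G S (k + 1) ^ 2) ≤
      (k + 1) * (cnt G S k * ((k + 2) * cnt G S (k + 2) + 3 * cnt G S (k + 1))) := by
    nlinarith [h5]
  exact Nat.le_of_mul_le_mul_left h6 (Nat.succ_pos k)

end Pool.Agent.Lib.MP_24a1b5_co.Init
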