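import Mathlib

/-!
# A lemma on sequences

If the ratio of consecutive terms of a sequence does not drop quickly and certain weighted partial
sums are bounded by the next term, then the sequence is increasing up to the corresponding place.
-/

set_option autoImplicit false

namespace Pool.Agent.Lib.MP_24a1b5_co.Init

/-- before a descent the terms of the sequence are not much smaller -/
lemma seqA {a : ℕ → ℤ} {k : ℕ} (h0 : ∀ j, 0 ≤ a j)
    (hD : ∀ j : ℕ, ((j : ℤ) + 1) * a (j + 1) ^ 2 ≤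
      a j * (((j : ℤ) + 2) * a (j + 2) + 3 * a (j + 1)))
    (hk : a (k + 1) < a k) : ∀ j m : ℕ, m + j = k →
      0 < a m ∧ ((m : ℤ) + 1) * a (m + 1) ≤ ((k : ℤ) + 1 + 3 * j) * a m
  | 0, m, h => by
      obtain rfl : m = k := by omega
      have := h0 (m + 1)
      refine ⟨by omega, ?_⟩
      push_cast
      nlinarith
  | j + 1, m, h => by
      obtain ⟨h1, h2⟩ := seqA h0 hD hk j (m + 1) (by omega)
      have h3 := hD m
      have h4 := h0 m
      have h5 : ((m : ℤ) + 1) * a (m + 1) * a (m + 1) ≤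
          ((k : ℤ) + 1 + 3 * ((j : ℤ) + 1)) * a m * a (m + 1) := by
        have h6 := mul_le_mul_of_nonneg_left h2 h4
        push_cast at h6
        have e : m + 1 + 1 = m + 2 := rfl
        rw [e] at h6
        nlinarith
      have h6 := le_of_mul_le_mul_right h5 h1
      refine ⟨?_, by push_cast; exact h6⟩
      rcases h4.lt_or_eq with h7 | h7
      · exact h7
      · exfalso
        rw [← h7, mul_zero] at h6
        have : 0 < ((m : ℤ) + 1) * a (m + 1) := by positivity
        omega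

lemma seqB {a : ℕ → ℤ} {k : ℕ} (h0 : ∀ j, 0 ≤ a j)
    (hD : ∀ j : ℕ, ((j : ℤ) + 1) * a (j + 1) ^ 2 ≤
      a j * (((j : ℤ) + 2) * a (j + 2) + 3 * a (j + 1)))
    (hk : a (k + 1) < a k) : ∀ j m : ℕ, m + j = k →
      ((k : ℤ) + 4 - 2 * j * (j + 1)) * a k ≤ ((k : ℤ) + 4) * a m
  | 0, m, h => by
      obtain rfl : m = k := by omega
      push_cast
      linarith
  | j + 1, m, h => by
      have h1 := seqB h0 hD hk j (m + 1) (by omega)
      have h2 := (seqA h0 hD hk (j + 1) m h).2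
      have hm : (m : ℤ) = k - j - 1 := by omega
      have h3 := h0 k
      have h4 := h0 m
      have hmn : (0 : ℤ) ≤ (m : ℤ) + 1 := by positivity
      have h5 := mul_le_mul_of_nonneg_left h1 hmn
      have h6 := mul_le_mul_of_nonneg_left h2 (by positivity : (0 : ℤ) ≤ (k : ℤ) + 4)
      have h7 : ((k : ℤ) + 4 + 3 * j) * (((k : ℤ) + 4 - 2 * ((j : ℤ) + 1) * (j + 1 + 1)) * a k) ≤
          ((k : ℤ) + 4 + 3 * j) * (((k : ℤ) + 4) * a m) := by
        have h8 : 0 ≤ (2 * (j : ℤ) * (j + 1) * (4 + j) + 6 * j * (j + 1) * (j + 2)) * a k := by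
          positivity
        rw [hm] at h5 h6
        push_cast at h6
        nlinarith
      have h8 := le_of_mul_le_mul_left h7 (by positivity)
      push_cast
      exact h8

lemma sumL (d e K : ℤ) (L : ℕ) :
    6 * ∑ l ∈ Finset.range (L + 1), (d + e * l) * (K - 2 * l * (l + 1)) =
      d * (6 * (L + 1) * K - 4 * L * (L + 1) * (L + 2)) +
        e * (3 * K * L * (L + 1) - L * (L + 1) * (L + 2) * (3 * L + 1)) := by
  induction L with
  | zero => simp; ring
  | succ L ih =>
    rw [Finset.sum_range_succ, mul_add, ih]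
    push_cast
    ring

lemma exL (K : ℕ) (hK : 0 < K) : ∃ L : ℕ, 2 * L * (L + 1) ≤ K ∧ K < 2 * (L + 1) * (L + 2) := by
  induction K with
  | zero => omega
  | succ K ih =>
    rcases Nat.eq_zero_or_pos K with h | h
    · subst h
      exact ⟨0, by norm_num, by norm_num⟩
    · obtain ⟨L, h1, h2⟩ := ih h
      by_cases h3 : K + 1 < 2 * (L + 1) * (L + 2)
      · exact ⟨L, by omega, h3⟩
      · refine ⟨L + 1, by linarith, ?_⟩
        have : K + 1 = 2 * (L + 1) * (L + 2) := by omega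
        rw [this]
        nlinarith

/-- The lemma on sequences. -/
theorem seqMain {a : ℕ → ℤ} {k : ℕ} (c e W d : ℤ) (hc : 0 < c) (he : 0 ≤ e) (hd : 0 ≤ d)
    (hW : W = d + e * k) (hk1 : 1 ≤ k) (h0 : ∀ j, 0 ≤ a j)
    (hD : ∀ j : ℕ, ((j : ℤ) + 1) * a (j + 1) ^ 2 ≤
      a j * (((j : ℤ) + 2) * a (j + 2) + 3 * a (j + 1)))
    (hS : ∑ j ∈ Finset.range (k + 1), (W - e * j) * a j ≤ c * ((k : ℤ) + 1) * a (k + 1))
    (hL : ∀ L : ℕ, 2 * L * (L + 1) ≤ k + 4 →
      24 * c * L ^ 2 + 72 * c * L ≤ 4 * d * (2 * L + 1) + e * (3 * L ^ 2 - L - 2)) :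
    a k ≤ a (k + 1) := by
  by_contra hcon
  rw [not_le] at hcon
  obtain ⟨L, hL1, hL2⟩ := exL (k + 4) (by omega)
  have hLk : L ≤ k := by
    by_contra h
    have : k + 1 ≤ L := by omega
    nlinarith
  have hl := hL L hL1
  have hK1 : 2 * (L : ℤ) * (L + 1) ≤ (k : ℤ) + 4 := by exact_mod_cast hL1
  have hK2 : (k : ℤ) + 4 + 1 ≤ 2 * ((L : ℤ) + 1) * (L + 2) := by exact_mod_cast hL2
  have hL0 : (0 : ℤ) ≤ L := Int.natCast_nonneg L
  have hak : 0 < a k := by have := h0 (k + 1); omega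
  -- the partial sum, reflected and truncated
  have s1 : ∑ l ∈ Finset.range (L + 1), (d + e * l) * a (k - l) ≤
      ∑ j ∈ Finset.range (k + 1), (W - e * j) * a j := by
    rw [← Finset.sum_range_reflect (fun j : ℕ => (W - e * j) * a j) (k + 1)]
    have e1 : ∀ l ∈ Finset.range (k + 1), (W - e * ((k + 1 - 1 - l : ℕ) : ℤ)) * a (k + 1 - 1 - l) =
        (d + e * l) * a (k - l) := by
      intro l hl
      rw [Finset.mem_range] at hl
      rw [Nat.add_sub_cancel, Nat.cast_sub (by omega), hW]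
      ring
    rw [Finset.sum_congr rfl e1]
    apply Finset.sum_le_sum_of_subset_of_nonneg
    · intro x hx
      rw [Finset.mem_range] at hx ⊢
      omega
    · intro l _ _
      exact mul_nonneg (by positivity) (h0 _)
  have s2 : (∑ l ∈ Finset.range (L + 1), (d + e * l) * ((k : ℤ) + 4 - 2 * l * (l + 1))) * a k ≤
      ((k : ℤ) + 4) * ∑ l ∈ Finset.range (L + 1), (d + e * l) * a (k - l) := by
    rw [Finset.sum_mul, Finset.mul_sum]
    apply Finset.sum_le_sum
    intro l hl
    rw [Finset.mem_range] at hl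
    have := seqB h0 hD hcon l (k - l) (by omega)
    have h5 := mul_le_mul_of_nonneg_left this (by positivity : (0 : ℤ) ≤ d + e * l)
    linarith
  have s3 := sumL d e ((k : ℤ) + 4) L
  set T := ∑ l ∈ Finset.range (L + 1), (d + e * l) * ((k : ℤ) + 4 - 2 * l * (l + 1)) with hT
  -- lower bound for `T`
  have t1 : 6 * c * ((k : ℤ) + 4) * (k + 1) ≤ 6 * T := by
    rw [s3]
    have b1 : ((k : ℤ) + 4) * (4 * L + 2) ≤ 6 * (L + 1) * ((k : ℤ) + 4) -
        4 * L * (L + 1) * (L + 2) := by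
      nlinarith
    have b2 : ((k : ℤ) + 4) * (3 * L ^ 2 - L - 2) ≤
        2 * (3 * ((k : ℤ) + 4) * L * (L + 1) - L * (L + 1) * (L + 2) * (3 * L + 1)) := by
      have : 0 ≤ ((k : ℤ) + 4 - 2 * (L : ℤ) * (L + 1)) * (((L : ℤ) + 2) * (3 * L + 1)) :=
        mul_nonneg (by linarith) (by positivity)
      nlinarith
    have b3 := mul_le_mul_of_nonneg_left b1 hd
    have b4 := mul_le_mul_of_nonneg_left b2 he
    have b5 : 12 * c * ((k : ℤ) + 1) ≤ 24 * c * L ^ 2 + 72 * c * L := by
      nlinarith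
    have b6 : ((k : ℤ) + 4) * (12 * c * ((k : ℤ) + 1)) ≤
        ((k : ℤ) + 4) * (4 * d * (2 * L + 1) + e * (3 * L ^ 2 - L - 2)) :=
      mul_le_mul_of_nonneg_left (b5.trans hl) (by positivity)
    nlinarith
  have u1 : c * ((k : ℤ) + 4) * (k + 1) * a k ≤ T * a k := by
    apply mul_le_mul_of_nonneg_right _ hak.le
    linarith
  have u2 : T * a k ≤ ((k : ℤ) + 4) * (c * ((k : ℤ) + 1) * a (k + 1)) :=
    s2.trans (mul_le_mul_of_nonneg_left (s1.trans hS) (by positivity))
  have u3 : c * ((k : ℤ) + 4) * (k + 1) * a (k + 1) < c * ((k : ℤ) + 4) * (k + 1) * a k :=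
    mul_lt_mul_of_pos_left hcon (by positivity)
  linarith

end Pool.Agent.Lib.MP_24a1b5_co.Init
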