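import Pool.Agent.Lib.MP_24a1b5_co.Init.Main
import Pool.Agent.Lib.MP_24a1b5_co.Init.Afam
import Pool.Agent.Lib.MP_24a1b5_co.Init.Drop
import Pool.Agent.Lib.MP_24a1b5_co.Init.Seq

/-!
# The independence sequence of a forest is increasing up to `7 α / 15`, `3 n / 11`, `(6 α - n) / 10`
-/

set_option autoImplicit false
open Polynomial
open scoped Classical
open N36365310

namespace Pool.Agent.Lib.MP_24a1b5_co.Init

open Pool.Agent.Lib.MP_24a1b5_co (F Ind cnt Degen degen_of_acyclic)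

variable {V : Type*}

lemma EP_coeff (G : SimpleGraph V) {f : F V} (hf : F.Fits G f) (c₀ d₀ a b : ℤ) (k : ℕ) :
    (EP c₀ d₀ a b f).coeff k =
      c₀ * ((k : ℤ) + 1) * (cnt G (F.verts f) (k + 1) : ℤ) +
        (d₀ * (k : ℤ) - (a * (al f : ℤ) + b * (F.sz f : ℤ))) * (cnt G (F.verts f) k : ℤ) := by
  have e : EP c₀ d₀ a b f = C c₀ * derivative (P f) + C d₀ * (X * derivative (P f)) -
      C (a * (al f : ℤ) + b * (F.sz f : ℤ)) * P f := by
    rw [EP]
    simp only [map_add, map_mul, eq_intCast, Int.cast_natCast]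
    ring
  rw [e, coeff_sub, coeff_add, coeff_C_mul, coeff_C_mul, coeff_C_mul, coeff_X_mul_derivative,
    coeff_derivative, coeff_P G hf, coeff_P G hf]
  ring

lemma EP_sum (G : SimpleGraph V) {f : F V} (hf : F.Fits G f) (c₀ d₀ a b : ℤ) (k : ℕ) :
    ∑ j ∈ Finset.range (k + 1), (EP c₀ d₀ a b f).coeff j =
      c₀ * ((k : ℤ) + 1) * (cnt G (F.verts f) (k + 1) : ℤ) -
        ∑ j ∈ Finset.range (k + 1), ((a * (al f : ℤ) + b * (F.sz f : ℤ)) - (c₀ + d₀) * j) *
          (cnt G (F.verts f) j : ℤ) := by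
  induction k with
  | zero =>
    rw [Finset.sum_range_one, Finset.sum_range_one, EP_coeff G hf]
    push_cast
    ring
  | succ k ih =>
    rw [Finset.sum_range_succ, ih, EP_coeff G hf, Finset.sum_range_succ _ (k + 1)]
    push_cast
    ring

lemma of_PSN (G : SimpleGraph V) {f : F V} (hf : F.Fits G f) {c₀ d₀ a b : ℤ}
    (h : PSN (EP c₀ d₀ a b f)) (k : ℕ) :
    ∑ j ∈ Finset.range (k + 1), ((a * (al f : ℤ) + b * (F.sz f : ℤ)) - (c₀ + d₀) * j) *
        (cnt G (F.verts f) j : ℤ) ≤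
      c₀ * ((k : ℤ) + 1) * (cnt G (F.verts f) (k + 1) : ℤ) := by
  have h1 := h.sum k
  rw [EP_sum G hf] at h1
  linarith

lemma main_aux2 [Fintype V] (G : SimpleGraph V) (hG : G.IsAcyclic) :
    ∃ f : F V, F.sz f = Fintype.card V ∧ G.indepNum ≤ al f ∧
      ∀ c₀ d₀ a b : ℤ, PSN (EP c₀ d₀ a b f) → ∀ k : ℕ,
        ∑ j ∈ Finset.range (k + 1),
            ((a * (al f : ℤ) + b * (Fintype.card V : ℤ)) - (c₀ + d₀) * j) *
              (indepSeq G j : ℤ) ≤
          c₀ * ((k : ℤ) + 1) * (indepSeq G (k + 1) : ℤ) := by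
  obtain ⟨f, hf, hv⟩ := F.exists_fits G (degen_of_acyclic hG) _ (Finset.univ : Finset V) rfl
  have hsz : F.sz f = Fintype.card V := by
    rw [F.sz_eq G f hf, hv, Finset.card_univ]
  refine ⟨f, hsz, ?_, ?_⟩
  · obtain ⟨s, hs⟩ := G.exists_isNIndepSet_indepNum
    rw [← hs.2]
    apply (card_le_al G f hf).1 s (by rw [hv]; exact Finset.subset_univ _)
    intro a ha b hb hab
    exact hs.1 ha hb (G.ne_of_adj hab) hab
  · intro c₀ d₀ a b h k
    have := of_PSN G hf h k
    rw [hv, hsz] at this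
    simp only [← indepSeq_eq'] at this
    exact this

lemma drop' [Fintype V] (G : SimpleGraph V) (hG : G.IsAcyclic) (j : ℕ) :
    ((j : ℤ) + 1) * (indepSeq G (j + 1) : ℤ) ^ 2 ≤
      (indepSeq G j : ℤ) * (((j : ℤ) + 2) * (indepSeq G (j + 2) : ℤ) +
        3 * (indepSeq G (j + 1) : ℤ)) := by
  have := drop G (degen_of_acyclic hG) Finset.univ j
  simp only [← indepSeq_eq'] at this
  exact_mod_cast this

/-- the partial sums -/
theorem partial_sums [Fintype V] (G : SimpleGraph V) (hG : G.IsAcyclic) (k : ℕ) :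
    ∑ j ∈ Finset.range (k + 1), (7 * (G.indepNum : ℤ) - 15 * j) * (indepSeq G j : ℤ) ≤
      9 * ((k : ℤ) + 1) * (indepSeq G (k + 1) : ℤ) := by
  obtain ⟨f, -, h2, h3⟩ := main_aux2 G hG
  refine le_trans (Finset.sum_le_sum fun j _ => ?_) (h3 9 6 7 0 (ineqPS f) k)
  apply mul_le_mul_of_nonneg_right _ (Int.natCast_nonneg _)
  have : (G.indepNum : ℤ) ≤ (al f : ℤ) := by exact_mod_cast h2
  linarith

/-- `i_k ≤ i_{k+1}` for `15 k + 11 √α + 73 ≤ 7 α`. -/
theorem first [Fintype V] (G : SimpleGraph V) (hG : G.IsAcyclic) (k : ℕ)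
    (hk : 15 * (k : ℝ) + 11 * Real.sqrt (G.indepNum : ℝ) + 73 ≤ 7 * (G.indepNum : ℝ)) :
    indepSeq G k ≤ indepSeq G (k + 1) := by
  have hs := Real.sqrt_nonneg (G.indepNum : ℝ)
  rcases Nat.eq_zero_or_pos k with h0 | h0
  · subst h0
    apply initial G hG
    left
    have h1 : (73 : ℝ) ≤ 7 * (G.indepNum : ℝ) := by
      have : ((0 : ℕ) : ℝ) = 0 := Nat.cast_zero
      linarith
    have h2 : 73 ≤ 7 * G.indepNum := by exact_mod_cast h1
    omega
  · have hd : (0 : ℤ) ≤ 7 * (G.indepNum : ℤ) - 15 * k := by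
      have h1 : 15 * (k : ℝ) ≤ 7 * (G.indepNum : ℝ) := by linarith
      have h2 : 15 * k ≤ 7 * G.indepNum := by exact_mod_cast h1
      omega
    have key := seqMain (a := fun j => (indepSeq G j : ℤ)) (k := k) 9 15
      (7 * (G.indepNum : ℤ)) (7 * (G.indepNum : ℤ) - 15 * k) (by norm_num) (by norm_num) hd
      (by ring) h0 (fun j => Int.natCast_nonneg _) (drop' G hG) (partial_sums G hG k) ?_
    · exact_mod_cast key
    · intro L hL
      have hL' : 2 * (L : ℝ) * (L + 1) ≤ (k : ℝ) + 4 := by exact_mod_cast hL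
      have hL0 : (0 : ℝ) ≤ L := Nat.cast_nonneg L
      have h1 : 2 * (L : ℝ) ≤ Real.sqrt (G.indepNum : ℝ) := by
        apply Real.le_sqrt_of_sq_le
        nlinarith
      have h2 : 22 * (L : ℝ) + 73 ≤ 7 * (G.indepNum : ℝ) - 15 * k := by linarith
      have h3 : 22 * (L : ℤ) + 73 ≤ 7 * (G.indepNum : ℤ) - 15 * k := by exact_mod_cast h2
      have h4 : (0 : ℤ) ≤ L := Int.natCast_nonneg L
      nlinarith

/-- the partial sums, with the number of vertices -/
theorem partial_sums_n [Fintype V] (G : SimpleGraph V) (hG : G.IsAcyclic) (k : ℕ) :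
    ∑ j ∈ Finset.range (k + 1), (3 * (Fintype.card V : ℤ) - 11 * j) * (indepSeq G j : ℤ) ≤
      8 * ((k : ℤ) + 1) * (indepSeq G (k + 1) : ℤ) := by
  obtain ⟨f, -, h2, h3⟩ := main_aux2 G hG
  refine le_trans (Finset.sum_le_sum fun j _ => ?_) (h3 8 3 0 3 (ineqPSn f) k)
  apply mul_le_mul_of_nonneg_right _ (Int.natCast_nonneg _)
  linarith

/-- `i_k ≤ i_{k+1}` for `11 k + 8 √n + 64 ≤ 3 n`. -/
theorem first_n [Fintype V] (G : SimpleGraph V) (hG : G.IsAcyclic) (k : ℕ)
    (hk : 11 * (k : ℝ) + 8 * Real.sqrt (Fintype.card V : ℝ) + 64 ≤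
      3 * (Fintype.card V : ℝ)) :
    indepSeq G k ≤ indepSeq G (k + 1) := by
  have hs := Real.sqrt_nonneg (Fintype.card V : ℝ)
  rcases Nat.eq_zero_or_pos k with h0 | h0
  · subst h0
    apply initial G hG
    right; left
    have h1 : (64 : ℝ) ≤ 3 * (Fintype.card V : ℝ) := by
      have : ((0 : ℕ) : ℝ) = 0 := Nat.cast_zero
      linarith
    have h2 : 64 ≤ 3 * Fintype.card V := by exact_mod_cast h1
    omega
  · have hd : (0 : ℤ) ≤ 3 * (Fintype.card V : ℤ) - 11 * k := by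
      have h1 : 11 * (k : ℝ) ≤ 3 * (Fintype.card V : ℝ) := by linarith
      have h2 : 11 * k ≤ 3 * Fintype.card V := by exact_mod_cast h1
      omega
    have key := seqMain (a := fun j => (indepSeq G j : ℤ)) (k := k) 8 11
      (3 * (Fintype.card V : ℤ)) (3 * (Fintype.card V : ℤ) - 11 * k) (by norm_num)
      (by norm_num) hd (by ring) h0 (fun j => Int.natCast_nonneg _) (drop' G hG)
      (partial_sums_n G hG k) ?_
    · exact_mod_cast key
    · intro L hL
      have hL' : 2 * (L : ℝ) * (L + 1) ≤ (k : ℝ) + 4 := by exact_mod_cast hL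
      have hL0 : (0 : ℝ) ≤ L := Nat.cast_nonneg L
      have h1 : 5 * (L : ℝ) / 2 ≤ Real.sqrt (Fintype.card V : ℝ) := by
        apply Real.le_sqrt_of_sq_le
        nlinarith
      have h2 : 20 * (L : ℝ) + 64 ≤ 3 * (Fintype.card V : ℝ) - 11 * k := by linarith
      have h3 : 20 * (L : ℤ) + 64 ≤ 3 * (Fintype.card V : ℤ) - 11 * k := by exact_mod_cast h2
      have h4 : (0 : ℤ) ≤ L := Int.natCast_nonneg L
      nlinarith

lemma indepNum_le_card' [Fintype V] (G : SimpleGraph V) : G.indepNum ≤ Fintype.card V := by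
  obtain ⟨s, hs⟩ := G.exists_isNIndepSet_indepNum
  rw [← hs.2]
  exact Finset.card_le_univ s

/-- the partial sums, with the independence number and the number of vertices -/
theorem partial_sums_a [Fintype V] (G : SimpleGraph V) (hG : G.IsAcyclic) (k : ℕ) :
    ∑ j ∈ Finset.range (k + 1), (6 * (G.indepNum : ℤ) - (Fintype.card V : ℤ) - 10 * j) *
        (indepSeq G j : ℤ) ≤
      10 * ((k : ℤ) + 1) * (indepSeq G (k + 1) : ℤ) := by
  obtain ⟨f, -, h2, h3⟩ := main_aux2 G hG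
  refine le_trans (Finset.sum_le_sum fun j _ => ?_) (h3 10 0 6 (-1) (ineqPSa f) k)
  apply mul_le_mul_of_nonneg_right _ (Int.natCast_nonneg _)
  have : (G.indepNum : ℤ) ≤ (al f : ℤ) := by exact_mod_cast h2
  linarith

/-- `i_k ≤ i_{k+1}` for `10 k + n + 14 √α + 78 ≤ 6 α`. -/
theorem first_a [Fintype V] (G : SimpleGraph V) (hG : G.IsAcyclic) (k : ℕ)
    (hk : 10 * (k : ℝ) + (Fintype.card V : ℝ) + 14 * Real.sqrt (G.indepNum : ℝ) + 78 ≤
      6 * (G.indepNum : ℝ)) :
    indepSeq G k ≤ indepSeq G (k + 1) := by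
  have hs := Real.sqrt_nonneg (G.indepNum : ℝ)
  have hn : (G.indepNum : ℝ) ≤ (Fintype.card V : ℝ) := by exact_mod_cast indepNum_le_card' G
  have hn0 : (0 : ℝ) ≤ (Fintype.card V : ℝ) := Nat.cast_nonneg _
  rcases Nat.eq_zero_or_pos k with h0 | h0
  · subst h0
    apply initial G hG
    left
    have h1 : (78 : ℝ) ≤ 6 * (G.indepNum : ℝ) := by
      have : ((0 : ℕ) : ℝ) = 0 := Nat.cast_zero
      linarith
    have h2 : 78 ≤ 6 * G.indepNum := by exact_mod_cast h1
    omega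
  · have hd : (0 : ℤ) ≤ 6 * (G.indepNum : ℤ) - (Fintype.card V : ℤ) - 10 * k := by
      have h1 : 10 * (k : ℝ) + (Fintype.card V : ℝ) ≤ 6 * (G.indepNum : ℝ) := by linarith
      have h2 : 10 * k + Fintype.card V ≤ 6 * G.indepNum := by exact_mod_cast h1
      omega
    have key := seqMain (a := fun j => (indepSeq G j : ℤ)) (k := k) 10 10
      (6 * (G.indepNum : ℤ) - (Fintype.card V : ℤ))
      (6 * (G.indepNum : ℤ) - (Fintype.card V : ℤ) - 10 * k) (by norm_num)
      (by norm_num) hd (by ring) h0 (fun j => Int.natCast_nonneg _) (drop' G hG)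
      (partial_sums_a G hG k) ?_
    · exact_mod_cast key
    · intro L hL
      have hL' : 2 * (L : ℝ) * (L + 1) ≤ (k : ℝ) + 4 := by exact_mod_cast hL
      have hL0 : (0 : ℝ) ≤ L := Nat.cast_nonneg L
      have h1 : 2 * (L : ℝ) ≤ Real.sqrt (G.indepNum : ℝ) := by
        apply Real.le_sqrt_of_sq_le
        nlinarith
      have h2 : 27 * (L : ℝ) + 78 ≤
          6 * (G.indepNum : ℝ) - (Fintype.card V : ℝ) - 10 * k := by linarith
      have h3 : 27 * (L : ℤ) + 78 ≤
          6 * (G.indepNum : ℤ) - (Fintype.card V : ℤ) - 10 * k := by exact_mod_cast h2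
      have h4 : (0 : ℤ) ≤ L := Int.natCast_nonneg L
      nlinarith

end Pool.Agent.Lib.MP_24a1b5_co.Init
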