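import Pool.Agent.Lib.MP_24a1b5_co.Forest
import Pool.Agent.Lib.MP_24a1b5_co.Init.Act

/-!
# A Poincaré inequality for the size of a random independent set of a forest

For the rooted forest `f` and `0 < l ≤ 6/5` the polynomial `PR l f = ∑ i_j l ^ j X ^ j`
satisfies `V (PR l f) h ≤ 51 * act (PR l f)' (h (j + 1) - h j) ^ 2` for every `h : ℕ → ℝ`.
-/

set_option autoImplicit false
open Polynomial

namespace Pool.Agent.Lib.MP_24a1b5_co.Gap

open Pool.Agent.Lib.MP_24a1b5_co (F)

variable {U : Type*}

/-- weighted independence polynomial of a rooted forest -/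
noncomputable def PR (l : ℝ) (f : F U) : ℝ[X] := (F.ZF (C l * X) f).1

/-- the same without the roots -/
noncomputable def QR (l : ℝ) (f : F U) : ℝ[X] := (F.ZF (C l * X) f).2

/-- the polynomial of one tree -/
noncomputable def TR (l : ℝ) (c : F U) : ℝ[X] := PR l c + C l * X * QR l c

lemma PR_nil (l : ℝ) : PR l (F.nil : F U) = 1 := rfl
lemma QR_nil (l : ℝ) : QR l (F.nil : F U) = 1 := rfl
lemma PR_cons (l : ℝ) (v : U) (c r : F U) : PR l (F.cons v c r) = TR l c * PR l r := rfl
lemma QR_cons (l : ℝ) (v : U) (c r : F U) : QR l (F.cons v c r) = PR l c * QR l r := rfl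

/-- mass -/
noncomputable def mP (l : ℝ) (f : F U) : ℝ := (PR l f).eval 1

/-- mass -/
noncomputable def mQ (l : ℝ) (f : F U) : ℝ := (QR l f).eval 1

lemma eval_TR (l : ℝ) (c : F U) : (TR l c).eval 1 = mP l c + l * mQ l c := by
  simp [TR, mP, mQ]

lemma mP_cons (l : ℝ) (v : U) (c r : F U) :
    mP l (F.cons v c r) = (mP l c + l * mQ l c) * mP l r := by
  rw [mP, PR_cons, eval_mul, eval_TR]; rfl

lemma mQ_cons (l : ℝ) (v : U) (c r : F U) : mQ l (F.cons v c r) = mP l c * mQ l r := by
  rw [mQ, QR_cons, eval_mul]; rfl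

lemma NR_one : NR (1 : ℝ[X]) := fun j => by
  rw [coeff_one]
  split_ifs <;> norm_num

lemma pos {l : ℝ} (hl : 0 < l) : ∀ f : F U, 0 < mP l f ∧ 0 < mQ l f
  | F.nil => by simp [mP, mQ, PR_nil, QR_nil]
  | F.cons v c r => by
      obtain ⟨h1, h2⟩ := pos hl c
      obtain ⟨h3, h4⟩ := pos hl r
      rw [mP_cons, mQ_cons]
      constructor <;> positivity

lemma nr {l : ℝ} (hl : 0 < l) : ∀ f : F U, NR (PR l f) ∧ NR (QR l f) ∧ NR (PR l f - QR l f)
  | F.nil => by
      refine ⟨NR_one, NR_one, ?_⟩
      rw [PR_nil, QR_nil, sub_self]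
      intro j
      simp
  | F.cons v c r => by
      obtain ⟨h1, h2, h3⟩ := nr hl c
      obtain ⟨h4, h5, h6⟩ := nr hl r
      rw [PR_cons, QR_cons, TR]
      refine ⟨(h1.add (h2.lX hl.le)).mul h4, h1.mul h5, ?_⟩
      have := (h1.mul h6).add ((h2.lX hl.le).mul h4)
      have e : (PR l c + C l * X * QR l c) * PR l r - PR l c * QR l r =
          PR l c * (PR l r - QR l r) + C l * X * QR l c * PR l r := by ring
      rw [e]
      exact this

lemma nrT {l : ℝ} (hl : 0 < l) (c : F U) : NR (TR l c) :=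
  (nr hl c).1.add ((nr hl c).2.1.lX hl.le)

lemma mQ_le {l : ℝ} (hl : 0 < l) (f : F U) : mQ l f ≤ mP l f := by
  have := ((nr hl f).2.2).eval
  rw [eval_sub] at this
  rw [mQ, mP]
  linarith

/-- ratio -/
noncomputable def th (l : ℝ) (c : F U) : ℝ := l * mQ l c / mP l c

/-- ratio -/
noncomputable def Yr (l : ℝ) (f : F U) : ℝ := mP l f / mQ l f

lemma th_pos {l : ℝ} (hl : 0 < l) (c : F U) : 0 < th l c := by
  obtain ⟨h1, h2⟩ := pos hl c
  rw [th]; positivity

lemma th_le {l : ℝ} (hl : 0 < l) (c : F U) : th l c ≤ l := by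
  obtain ⟨h1, h2⟩ := pos hl c
  rw [th, div_le_iff₀ h1]
  exact mul_le_mul_of_nonneg_left (mQ_le hl c) hl.le

lemma one_le_Yr {l : ℝ} (hl : 0 < l) (f : F U) : 1 ≤ Yr l f := by
  obtain ⟨h1, h2⟩ := pos hl f
  rw [Yr, le_div_iff₀ h2, one_mul]
  exact mQ_le hl f

lemma Yr_cons {l : ℝ} (hl : 0 < l) (v : U) (c r : F U) :
    Yr l (F.cons v c r) = (1 + th l c) * Yr l r := by
  obtain ⟨h1, h2⟩ := pos hl c
  obtain ⟨h3, h4⟩ := pos hl r
  rw [Yr, Yr, th, mP_cons, mQ_cons]
  field_simp

/-- the constant in the comparison of the forest with and without its roots -/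
noncomputable def Psi (l : ℝ) : F U → ℝ
  | F.nil => 0
  | F.cons _ c r => th l c * (Yr l r + 3) / 4 + (1 + th l c / 4) * Psi l r

lemma Psi_bounds {l : ℝ} (hl : 0 < l) (hl1 : l ≤ 6 / 5) : ∀ f : F U,
    0 ≤ Psi l f ∧ Psi l f ≤ Yr l f - 1 ∧ Psi l f ≤ 123 / 200 * (Yr l f + 6 / 5)
  | F.nil => by
      have : Yr l (F.nil : F U) = 1 := by simp [Yr, mP, mQ, PR_nil, QR_nil]
      rw [this, Psi]
      norm_num
  | F.cons v c r => by
      obtain ⟨h1, h2, h3⟩ := Psi_bounds hl hl1 r
      have h4 := one_le_Yr hl r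
      have h5 := th_pos hl c
      have h6 := (th_le hl c).trans hl1
      rw [Yr_cons hl, Psi]
      set y := Yr l r
      set t := th l c
      set p := Psi l r
      refine ⟨by positivity, ?_, ?_⟩
      · nlinarith [mul_nonneg h5.le (sub_nonneg.2 h4), mul_nonneg h5.le (sub_nonneg.2 h2)]
      · rcases le_total y (445 / 100) with hy | hy
        · have a1 : t * (y + 3) / 4 + (1 + t / 4) * p ≤ y - 1 + t * y / 2 + t / 2 := by
            nlinarith [mul_nonneg h5.le (sub_nonneg.2 h2)]
          have a2 : 0 ≤ (6 / 5 - t) * (y - 1) := mul_nonneg (by linarith) (by linarith)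
          have a3 : 0 ≤ t * (445 / 100 - y) := mul_nonneg h5.le (by linarith)
          nlinarith
        · have a1 : t * (y + 3) / 4 + (1 + t / 4) * p ≤
              t * (y + 3) / 4 + (1 + t / 4) * (123 / 200 * (y + 6 / 5)) := by
            have : 0 ≤ 1 + t / 4 := by positivity
            have := mul_le_mul_of_nonneg_left h3 this
            linarith
          have a3 : 0 ≤ t * (y - 445 / 100) := mul_nonneg h5.le (by linarith)
          nlinarith

/-- cost of the choice of the root -/
noncomputable def Rr (l : ℝ) (c : F U) (h : ℕ → ℝ) (s : ℕ) : ℝ :=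
  mP l c * (l * mQ l c) / (mP l c + l * mQ l c) *
    (act (QR l c) h (s + 1) / mQ l c - act (PR l c) h s / mP l c) ^ 2

/-- cost of the choice of the roots -/
noncomputable def RS (l : ℝ) : F U → (ℕ → ℝ) → (ℕ → ℝ)
  | F.nil, _ => fun _ => 0
  | F.cons _ c r, h => fun s => act (PR l r) (Rr l c h) s + act (TR l c) (RS l r h) s

lemma Rr_nonneg {l : ℝ} (hl : 0 < l) (c : F U) (h : ℕ → ℝ) (s : ℕ) : 0 ≤ Rr l c h s := by
  obtain ⟨h1, h2⟩ := pos hl c
  rw [Rr]; positivity

lemma RS_nonneg {l : ℝ} (hl : 0 < l) : ∀ (f : F U) (h : ℕ → ℝ) (s : ℕ), 0 ≤ RS l f h s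
  | F.nil, _, _ => le_rfl
  | F.cons v c r, h, s => by
      rw [RS]
      exact add_nonneg (act_nonneg (nr hl r).1 (Rr_nonneg hl c h) s)
        (act_nonneg (nrT hl c) (RS_nonneg hl r h) s)

lemma act_smul' (A : ℝ[X]) (a : ℝ) (f : ℕ → ℝ) (s : ℕ) :
    act A (fun j => a * f j) s = a * act A f s := by
  have := act_lin A a 0 f f s
  simpa using this

lemma comb {a1 a2 E1 E2 u1 u2 : ℝ} (ha1 : 0 ≤ a1) (ha2 : 0 ≤ a2) (hE1 : 0 ≤ E1) (hE2 : 0 ≤ E2)
    (h1 : u1 ^ 2 ≤ a1 * E1) (h2 : u2 ^ 2 ≤ a2 * E2) :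
    (u1 + u2) ^ 2 ≤ (a1 + a2) * (E1 + E2) := by
  have h3 : (2 * (u1 * u2)) ^ 2 ≤ (a1 * E2 + a2 * E1) ^ 2 := by
    have : u1 ^ 2 * u2 ^ 2 ≤ (a1 * E1) * (a2 * E2) := mul_le_mul h1 h2 (sq_nonneg _) (by positivity)
    nlinarith [sq_nonneg (a1 * E2 - a2 * E1)]
  have h4 := abs_le_of_sq_le_sq h3 (by positivity)
  have h5 := (abs_le.1 h4).2
  nlinarith

lemma b_lemma {l : ℝ} (hl : 0 < l) (hl1 : l ≤ 6 / 5) : ∀ (f : F U) (h : ℕ → ℝ) (s : ℕ),
    (act (QR l f) h s / mQ l f - act (PR l f) h s / mP l f) ^ 2 ≤ Psi l f * (RS l f h s / mP l f)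
  | F.nil, h, s => by
      simp [mP, mQ, PR_nil, QR_nil, act_one, Psi]
  | F.cons v c r, h, s => by
      obtain ⟨p1, q1⟩ := pos hl c
      obtain ⟨pr, qr⟩ := pos hl r
      have nc := nr hl c
      have nrr := nr hl r
      have nT := nrT hl c
      have ht : 0 < mP l c + l * mQ l c := by positivity
      have hth := th_pos hl c
      have hY := one_le_Yr hl r
      have hPsi := (Psi_bounds hl hl1 r).1
      -- the two functions
      set β : ℕ → ℝ := fun j => (1 / mP l c) * act (PR l c) h j +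
        (-(1 / (mP l c + l * mQ l c))) * act (TR l c) h j with hβ
      set b : ℕ → ℝ := fun j => (1 / mQ l r) * act (QR l r) h j +
        (-(1 / mP l r)) * act (PR l r) h j with hb
      have eβ : ∀ A : ℝ[X], act A β s = (1 / mP l c) * act A (act (PR l c) h) s +
          (-(1 / (mP l c + l * mQ l c))) * act A (act (TR l c) h) s := fun A =>
        act_lin A _ _ _ _ s
      have eb : ∀ A : ℝ[X], act A b s = (1 / mQ l r) * act A (act (QR l r) h) s +
          (-(1 / mP l r)) * act A (act (PR l r) h) s := fun A =>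
        act_lin A _ _ _ _ s
      have hβ2 : ∀ j, β j ^ 2 = (th l c / (mP l c + l * mQ l c)) * Rr l c h j := by
        intro j
        have eT : act (TR l c) h j = act (PR l c) h j + l * act (QR l c) h (j + 1) := by
          rw [TR, act_add, act_lX]
        rw [hβ, Rr, th]
        simp only
        rw [eT]
        field_simp
        ring
      have hb2 : ∀ j, b j ^ 2 ≤ (Psi l r / mP l r) * RS l r h j := by
        intro j
        have := b_lemma hl hl1 r h j
        have e : b j = act (QR l r) h j / mQ l r - act (PR l r) h j / mP l r := by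
          rw [hb]; simp only; ring
        rw [e]
        refine this.trans (le_of_eq ?_)
        ring
      have k1 := half (A := QR l r) (B := PR l r) nrr.2.1 nrr.2.2 qr β s
      have k2 := half (A := PR l c) (B := TR l c) nc.1
        (by rw [TR, add_sub_cancel_left]; exact nc.2.1.lX hl.le) p1 b s
      have k1' : act (PR l r) (fun j => β j ^ 2) s =
          (th l c / (mP l c + l * mQ l c)) * act (PR l r) (Rr l c h) s := by
        have : (fun j => β j ^ 2) = fun j => (th l c / (mP l c + l * mQ l c)) * Rr l c h j :=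
          funext hβ2
        rw [this, act_smul']
      have k2' : act (TR l c) (fun j => b j ^ 2) s ≤
          (Psi l r / mP l r) * act (TR l c) (RS l r h) s := by
        have := act_mono nT (f := fun j => b j ^ 2)
          (g := fun j => (Psi l r / mP l r) * RS l r h j) hb2 s
        rwa [act_smul'] at this
      rw [k1'] at k1
      rw [eval_TR] at k2
      change (act (QR l r) β s / mQ l r + act (PR l r) β s / mP l r) ^ 2 ≤
        (mP l r / mQ l r + 3) * _ at k1
      change (act (PR l c) b s / mP l c + _) ^ 2 ≤ ((mP l c + l * mQ l c) / mP l c + 3) * _ at k2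
      set E1 := act (PR l r) (Rr l c h) s / ((mP l c + l * mQ l c) * mP l r) with hE1
      set E2 := act (TR l c) (RS l r h) s / ((mP l c + l * mQ l c) * mP l r) with hE2
      have E1n : 0 ≤ E1 := by
        have := act_nonneg nrr.1 (Rr_nonneg hl c h) s
        rw [hE1]; positivity
      have E2n : 0 ≤ E2 := by
        have := act_nonneg nT (RS_nonneg hl r h) s
        rw [hE2]; positivity
      set u1 := (act (QR l r) β s / mQ l r + act (PR l r) β s / mP l r) / 2 with hu1
      set u2 := (act (PR l c) b s / mP l c + act (TR l c) b s / (mP l c + l * mQ l c)) / 2 with hu2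
      have g1 : u1 ^ 2 ≤ (th l c * (Yr l r + 3) / 4) * E1 := by
        have : (mP l r / mQ l r + 3) * ((th l c / (mP l c + l * mQ l c)) *
            act (PR l r) (Rr l c h) s / (PR l r).eval 1) = 4 * ((th l c * (Yr l r + 3) / 4) * E1) := by
          rw [hE1, Yr]
          change (mP l r / mQ l r + 3) * ((th l c / (mP l c + l * mQ l c)) *
            act (PR l r) (Rr l c h) s / mP l r) = _
          field_simp
        rw [this] at k1
        rw [hu1, div_pow]
        linarith
      have g2 : u2 ^ 2 ≤ ((1 + th l c / 4) * Psi l r) * E2 := by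
        have e : (mP l c + l * mQ l c) / mP l c + 3 = 4 * (1 + th l c / 4) := by
          rw [th]; field_simp; ring
        rw [e] at k2
        have : 4 * (1 + th l c / 4) * (act (TR l c) (fun j => b j ^ 2) s / (mP l c + l * mQ l c)) ≤
            4 * (1 + th l c / 4) * ((Psi l r / mP l r) * act (TR l c) (RS l r h) s /
              (mP l c + l * mQ l c)) := by
          apply mul_le_mul_of_nonneg_left _ (by positivity)
          exact div_le_div_of_nonneg_right k2' ht.le
        have e2 : 4 * (1 + th l c / 4) * ((Psi l r / mP l r) * act (TR l c) (RS l r h) s /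
              (mP l c + l * mQ l c)) = 4 * (((1 + th l c / 4) * Psi l r) * E2) := by
          rw [hE2]
          field_simp
        rw [hu2, div_pow]
        linarith
      have g3 := comb (by positivity) (by positivity) E1n E2n g1 g2
      have e3 : act (QR l (F.cons v c r)) h s / mQ l (F.cons v c r) -
          act (PR l (F.cons v c r)) h s / mP l (F.cons v c r) = u1 + u2 := by
        rw [hu1, hu2, eβ, eβ, eb, eb, mP_cons, mQ_cons, QR_cons, PR_cons, act_mul, act_mul,
          act_comm (QR l r) (PR l c), act_comm (QR l r) (TR l c), act_comm (PR l r) (PR l c),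
          act_comm (PR l r) (TR l c)]
        field_simp
        ring
      rw [e3, Psi]
      refine g3.trans (le_of_eq ?_)
      rw [RS, mP_cons, hE1, hE2]
      ring

end Pool.Agent.Lib.MP_24a1b5_co.Gap
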