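import Pool.Agent.Lib.MP_24a1b5_co.Init.Gap

/-!
# The Poincaré inequality: the induction
-/

set_option autoImplicit false
open Polynomial

namespace Pool.Agent.Lib.MP_24a1b5_co.Gap

open Pool.Agent.Lib.MP_24a1b5_co (F)

variable {U : Type*}

/-- squared increments -/
def gr (h : ℕ → ℝ) (j : ℕ) : ℝ := (h (j + 1) - h j) ^ 2

lemma gr_nonneg (h : ℕ → ℝ) (j : ℕ) : 0 ≤ gr h j := sq_nonneg _

lemma act_shift (A : ℝ[X]) (h : ℕ → ℝ) (s : ℕ) :
    act A h (s + 1) = act A (fun j => h (j + 1)) s := by
  rw [act_sum A (A.natDegree + 1) (Nat.lt_succ_self _),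
    act_sum A (A.natDegree + 1) (Nat.lt_succ_self _)]
  apply Finset.sum_congr rfl
  intro j _
  rw [show s + 1 + j = s + j + 1 by omega]

lemma Rr_bound {l : ℝ} (hl : 0 < l) (hl1 : l ≤ 6 / 5) (c : F U) (h : ℕ → ℝ) (s : ℕ) :
    Rr l c h s ≤ 29 / 4 * (l * act (QR l c) (gr h) s) +
      29 / 25 * (738 / 1000) * RS l c h s := by
  obtain ⟨p1, q1⟩ := pos hl c
  have nc := nr hl c
  have ht : 0 < mP l c + l * mQ l c := by positivity
  have hPsi := Psi_bounds hl hl1 c
  have hRS := RS_nonneg hl c h s
  have hb := b_lemma hl hl1 c h s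
  -- the increment
  have hD : act (QR l c) h (s + 1) - act (QR l c) h s =
      act (QR l c) (fun j => h (j + 1) - h j) s := by
    have := act_lin (QR l c) 1 (-1) (fun j => h (j + 1)) h s
    have e : (fun j => 1 * h (j + 1) + -1 * h j) = fun j => h (j + 1) - h j := by
      funext j; ring
    rw [e] at this
    rw [this, act_shift]
    ring
  have hD2 := act_sq nc.2.1 (fun j => h (j + 1) - h j) s
  change _ ≤ mQ l c * act (QR l c) (gr h) s at hD2
  have hG := act_nonneg nc.2.1 (gr_nonneg h) s
  set x := act (QR l c) h (s + 1) with hx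
  set y := act (QR l c) h s with hy
  set z := act (PR l c) h s with hz
  set G := act (QR l c) (gr h) s with hGdef
  set R := RS l c h s with hR
  rw [← hD] at hD2
  have h1 : (x / mQ l c - z / mP l c) ^ 2 ≤ 29 / 4 * ((x - y) / mQ l c) ^ 2 +
      29 / 25 * (y / mQ l c - z / mP l c) ^ 2 := by
    have e : x / mQ l c - z / mP l c = (x - y) / mQ l c + (y / mQ l c - z / mP l c) := by ring
    rw [e]
    nlinarith [sq_nonneg (5 / 2 * ((x - y) / mQ l c) - (2 / 5) * (y / mQ l c - z / mP l c))]
  have h2 : ((x - y) / mQ l c) ^ 2 ≤ G / mQ l c := by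
    rw [div_pow, div_le_div_iff₀ (by positivity) q1]
    nlinarith [mul_le_mul_of_nonneg_right hD2 q1.le]
  have h3 : (y / mQ l c - z / mP l c) ^ 2 ≤ 123 / 200 * (Yr l c + 6 / 5) * (R / mP l c) :=
    hb.trans (mul_le_mul_of_nonneg_right hPsi.2.2 (by positivity))
  rw [Rr]
  have hw : 0 ≤ mP l c * (l * mQ l c) / (mP l c + l * mQ l c) := by positivity
  have h4 : mP l c * (l * mQ l c) / (mP l c + l * mQ l c) * (G / mQ l c) ≤ l * G := by
    have e : mP l c * (l * mQ l c) / (mP l c + l * mQ l c) * (G / mQ l c) =
        (mP l c / (mP l c + l * mQ l c)) * (l * G) := by field_simp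
    rw [e]
    have : mP l c / (mP l c + l * mQ l c) ≤ 1 := by
      rw [div_le_one ht]
      have : 0 ≤ l * mQ l c := by positivity
      linarith
    calc _ ≤ 1 * (l * G) := mul_le_mul_of_nonneg_right this (by positivity)
      _ = _ := by ring
  have h5 : mP l c * (l * mQ l c) / (mP l c + l * mQ l c) *
      (123 / 200 * (Yr l c + 6 / 5) * (R / mP l c)) ≤ 738 / 1000 * R := by
    have e : mP l c * (l * mQ l c) / (mP l c + l * mQ l c) *
        (123 / 200 * (Yr l c + 6 / 5) * (R / mP l c)) =
        (123 / 200 * l * (mP l c + 6 / 5 * mQ l c) / (mP l c + l * mQ l c)) * R := by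
      rw [Yr]; field_simp
    rw [e]
    apply mul_le_mul_of_nonneg_right _ hRS
    rw [div_le_iff₀ ht]
    nlinarith [mul_nonneg (sub_nonneg.2 hl1) p1.le, mul_nonneg (sub_nonneg.2 hl1) q1.le]
  calc mP l c * (l * mQ l c) / (mP l c + l * mQ l c) * (x / mQ l c - z / mP l c) ^ 2
      ≤ mP l c * (l * mQ l c) / (mP l c + l * mQ l c) * (29 / 4 * (G / mQ l c) +
        29 / 25 * (123 / 200 * (Yr l c + 6 / 5) * (R / mP l c))) := by
        apply mul_le_mul_of_nonneg_left _ hw
        linarith
    _ = 29 / 4 * (mP l c * (l * mQ l c) / (mP l c + l * mQ l c) * (G / mQ l c)) +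
        29 / 25 * (mP l c * (l * mQ l c) / (mP l c + l * mQ l c) *
          (123 / 200 * (Yr l c + 6 / 5) * (R / mP l c))) := by ring
    _ ≤ 29 / 4 * (l * G) + 29 / 25 * (738 / 1000 * R) := by linarith
    _ = _ := by ring

lemma V_one (h : ℕ → ℝ) (s : ℕ) : V 1 h s = 0 := by
  rw [V, act_one, act_one]
  simp

lemma V_TR {l : ℝ} (hl : 0 < l) (c : F U) (h : ℕ → ℝ) (s : ℕ) :
    V (TR l c) h s = V (PR l c) h s + l * V (QR l c) h (s + 1) + Rr l c h s := by
  obtain ⟨p1, q1⟩ := pos hl c
  have ht : 0 < mP l c + l * mQ l c := by positivity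
  rw [V, V, V, Rr, eval_TR, TR, act_add, act_lX, act_add, act_lX]
  change _ = _ - _ / mP l c + l * (_ - _ / mQ l c) + _
  field_simp
  ring

theorem poincare_aux {l : ℝ} (hl : 0 < l) (hl1 : l ≤ 6 / 5) : ∀ (f : F U) (h : ℕ → ℝ),
    (∀ s, V (PR l f) h s + 595 / 100 * RS l f h s ≤
      51 * act (derivative (PR l f)) (gr h) s) ∧
    (∀ s, V (QR l f) h s ≤ 51 * act (derivative (QR l f)) (gr h) s)
  | F.nil, h => by
      constructor
      · intro s
        rw [PR_nil, V_one, RS, derivative_one]
        simp [act]
      · intro s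
        rw [QR_nil, V_one, derivative_one]
        simp [act]
  | F.cons v c r, h => by
      obtain ⟨p1, q1⟩ := pos hl c
      obtain ⟨pr, qr⟩ := pos hl r
      have nc := nr hl c
      have nrr := nr hl r
      have nT := nrT hl c
      obtain ⟨c1, c2⟩ := poincare_aux hl hl1 c h
      obtain ⟨r1, r2⟩ := poincare_aux hl hl1 r h
      constructor
      · intro s
        have hT1 : 0 < (TR l c).eval 1 := by rw [eval_TR]; positivity
        have hV := V_mul nT nrr.1 hT1 pr h s
        -- the tree part
        have k1 : ∀ j, 1 * V (TR l c) h j + 595 / 100 * Rr l c h j ≤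
            51 * act (derivative (TR l c)) (gr h) j := by
          intro j
          have a1 := c1 j
          have a2 := c2 (j + 1)
          have a3 := Rr_bound hl hl1 c h j
          have a4 : act (derivative (TR l c)) (gr h) j = act (derivative (PR l c)) (gr h) j +
              (l * act (QR l c) (gr h) j + l * act (derivative (QR l c)) (gr h) (j + 1)) := by
            have e : derivative (TR l c) = derivative (PR l c) + (C l * QR l c +
                C l * X * derivative (QR l c)) := by
              rw [TR, derivative_add, mul_assoc, derivative_C_mul, derivative_mul, derivative_X]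
              ring
            have e2 : act (C l * QR l c) (gr h) j = l * act (QR l c) (gr h) j := by
              rw [act, map_mul, aeval_C]
              rfl
            rw [e, act_add, act_add, act_lX, e2]
          have a5 := RS_nonneg hl c h j
          have a6 := act_nonneg nc.2.1 (gr_nonneg h) j
          have a7 : l * V (QR l c) h (j + 1) ≤
              l * (51 * act (derivative (QR l c)) (gr h) (j + 1)) :=
            mul_le_mul_of_nonneg_left a2 hl.le
          have a8 : 0 ≤ l * act (QR l c) (gr h) j := by positivity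
          rw [a4, V_TR hl]
          nlinarith
        have k2 : ∀ j, 1 * V (PR l r) h j + 595 / 100 * RS l r h j ≤
            51 * act (derivative (PR l r)) (gr h) j := by
          intro j
          have := r1 j
          linarith
        have m1 := act_mono nrr.1 k1 s
        have m2 := act_mono nT k2 s
        rw [act_lin, act_smul', ← act_mul] at m1 m2
        have e : derivative (PR l (F.cons v c r)) = PR l r * derivative (TR l c) +
            TR l c * derivative (PR l r) := by
          rw [PR_cons, derivative_mul]; ring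
        rw [e, act_add, RS, PR_cons]
        have e3 : act (TR l c) (RS l r h) s = act (TR l c) (fun j => RS l r h j) s := rfl
        have e4 : act (PR l r) (Rr l c h) s = act (PR l r) (fun j => Rr l c h j) s := rfl
        linarith
      · intro s
        have hV := V_mul nc.1 nrr.2.1 p1 qr h s
        have k1 : ∀ j, V (PR l c) h j ≤ 51 * act (derivative (PR l c)) (gr h) j := by
          intro j
          have a1 := c1 j
          have a5 := RS_nonneg hl c h j
          linarith
        have m1 := act_mono nrr.2.1 k1 s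
        have m2 := act_mono nc.1 r2 s
        rw [act_smul', ← act_mul] at m1 m2
        have e : derivative (QR l (F.cons v c r)) = QR l r * derivative (PR l c) +
            PR l c * derivative (QR l r) := by
          rw [QR_cons, derivative_mul]; ring
        rw [e, act_add, QR_cons]
        linarith

/-- the Poincaré inequality -/
theorem poincare {l : ℝ} (hl : 0 < l) (hl1 : l ≤ 6 / 5) (f : F U) (h : ℕ → ℝ) :
    V (PR l f) h 0 ≤ 51 * act (derivative (PR l f)) (gr h) 0 := by
  have h1 := (poincare_aux hl hl1 f h).1 0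
  have h2 := RS_nonneg hl f h 0
  linarith

end Pool.Agent.Lib.MP_24a1b5_co.Gap
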