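import Pool.Agent.Lib.MP_24a1b5_co.Init.Poly
import Pool.Prelude.Def_F_f5f3026a

/-!
# The beginning of the independence sequence of a forest: the statements for graphs
-/

set_option autoImplicit false
open Polynomial
open scoped Classical
open N36365310

namespace Pool.Agent.Lib.MP_24a1b5_co.Init

open Pool.Agent.Lib.MP_24a1b5_co (F Ind cnt Z Z_const_eq_sum cnt_eq_zero Degen degen_of_acyclic)

variable {V : Type*}

lemma card_le_al (G : SimpleGraph V) : ∀ f : F V, F.Fits G f →
    (∀ J : Finset V, J ⊆ F.verts f → Ind G J → J.card ≤ al f) ∧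
    (∀ J : Finset V, J ⊆ F.verts f \ F.roots f → Ind G J → J.card ≤ alQ f)
  | F.nil, _ => by
      constructor
      · intro J hJ _
        simp only [F.verts, Finset.subset_empty] at hJ
        simp [hJ]
      · intro J hJ _
        simp only [F.verts, Finset.empty_sdiff, Finset.subset_empty] at hJ
        simp [hJ]
  | F.cons v c r, h => by
      obtain ⟨h1, h2, h3, h4, h5, h6, h7, h8⟩ := h
      obtain ⟨c1, c2⟩ := card_le_al G c h1
      obtain ⟨r1, r2⟩ := card_le_al G r h2
      constructor
      · intro J hJ hI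
        have hsplit : J.card ≤ (J.filter (· = v)).card + (J ∩ F.verts c).card +
            (J ∩ F.verts r).card := by
          refine (Finset.card_le_card (t := (J.filter (· = v)) ∪ (J ∩ F.verts c) ∪
            (J ∩ F.verts r)) ?_).trans ?_
          · intro x hx
            have := hJ hx
            simp only [F.verts, Finset.mem_insert, Finset.mem_union] at this
            simp only [Finset.mem_union, Finset.mem_filter, Finset.mem_inter]
            tauto
          · exact (Finset.card_union_le _ _).trans
              (Nat.add_le_add_right (Finset.card_union_le _ _) _)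
        have hr := r1 (J ∩ F.verts r) Finset.inter_subset_right
          (hI.subset Finset.inter_subset_left)
        have hal := al_eq c
        by_cases hv : v ∈ J
        · have hc := c2 (J ∩ F.verts c) (by
            intro x hx
            rw [Finset.mem_inter] at hx
            rw [Finset.mem_sdiff]
            exact ⟨hx.2, fun hxr => hI v hv x hx.1 ((h6 x hx.2).2 hxr)⟩)
            (hI.subset Finset.inter_subset_left)
          have h1' : (J.filter (· = v)).card ≤ 1 := by
            rw [Finset.card_le_one]
            intro a ha b hb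
            rw [(Finset.mem_filter.1 ha).2, (Finset.mem_filter.1 hb).2]
          simp only [al]
          split_ifs with h0
          · omega
          · omega
        · have hc := c1 (J ∩ F.verts c) Finset.inter_subset_right
            (hI.subset Finset.inter_subset_left)
          have h1' : (J.filter (· = v)).card = 0 := by
            rw [Finset.card_eq_zero, Finset.filter_eq_empty_iff]
            intro x hx e
            exact hv (e ▸ hx)
          simp only [al]
          omega
      · intro J hJ hI
        have hsplit : J.card ≤ (J ∩ F.verts c).card +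
            (J ∩ (F.verts r \ F.roots r)).card := by
          refine (Finset.card_le_card (t := (J ∩ F.verts c) ∪
            (J ∩ (F.verts r \ F.roots r))) ?_).trans (Finset.card_union_le _ _)
          intro x hx
          have := hJ hx
          simp only [F.verts, F.roots, Finset.mem_insert, Finset.mem_union,
            Finset.mem_sdiff] at this
          simp only [Finset.mem_union, Finset.mem_inter, Finset.mem_sdiff]
          tauto
        have hc := c1 (J ∩ F.verts c) Finset.inter_subset_right
          (hI.subset Finset.inter_subset_left)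
        have hr := r2 (J ∩ (F.verts r \ F.roots r)) Finset.inter_subset_right
          (hI.subset Finset.inter_subset_left)
        simp only [alQ]
        omega

lemma coeff_P (G : SimpleGraph V) {f : F V} (hf : F.Fits G f) (k : ℕ) :
    (P f).coeff k = (cnt G (F.verts f) k : ℤ) := by
  rw [P, ← (F.link G (X : ℤ[X]) f hf).1, Z_const_eq_sum, Polynomial.finsetSum_coeff]
  simp only [Polynomial.coeff_natCast_mul, Polynomial.coeff_X_pow]
  rw [Finset.sum_eq_single k]
  · simp
  · intro b _ hb
    simp [Ne.symm hb]
  · intro hj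
    rw [Finset.mem_range, not_lt] at hj
    simp [cnt_eq_zero (G := G) (S := F.verts f) (k := k) (by omega)]

lemma coeff_X_mul_derivative (p : ℤ[X]) (k : ℕ) :
    (X * derivative p).coeff k = (k : ℤ) * p.coeff k := by
  cases k with
  | zero => simp
  | succ k => rw [coeff_X_mul, coeff_derivative]; push_cast; ring

lemma of_EP (G : SimpleGraph V) {f : F V} (hf : F.Fits G f) {c₀ d₀ a b : ℤ}
    (h : NN (EP c₀ d₀ a b f)) (k : ℕ) :
    (a * (al f : ℤ) + b * (F.sz f : ℤ)) * (cnt G (F.verts f) k : ℤ) ≤
      c₀ * ((k : ℤ) + 1) * (cnt G (F.verts f) (k + 1) : ℤ) +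
        d₀ * (k : ℤ) * (cnt G (F.verts f) k : ℤ) := by
  have h1 := h k
  have e : EP c₀ d₀ a b f = C c₀ * derivative (P f) + C d₀ * (X * derivative (P f)) -
      C (a * (al f : ℤ) + b * (F.sz f : ℤ)) * P f := by
    rw [EP]
    simp only [map_add, map_mul, eq_intCast, Int.cast_natCast]
    ring
  rw [e, coeff_sub, coeff_add, coeff_C_mul, coeff_C_mul, coeff_C_mul, coeff_X_mul_derivative,
    coeff_derivative, coeff_P G hf, coeff_P G hf] at h1
  nlinarith [h1]

lemma indepSeq_eq' [Fintype V] (G : SimpleGraph V) (k : ℕ) :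
    indepSeq G k = cnt G Finset.univ k := by
  rw [indepSeq, cnt]
  apply Nat.subtype_card
  intro s
  rw [Finset.mem_filter, Finset.mem_filter, Finset.mem_powerset]
  constructor
  · rintro ⟨⟨-, h1⟩, h2⟩
    exact ⟨h2, fun a ha b hb _ => h1 a ha b hb⟩
  · rintro ⟨h1, h2⟩
    refine ⟨⟨Finset.subset_univ _, fun a ha b hb hab => ?_⟩, h1⟩
    exact h2 ha hb (G.ne_of_adj hab) hab

lemma main_aux [Fintype V] (G : SimpleGraph V) (hG : G.IsAcyclic) :
    ∃ f : F V, F.sz f = Fintype.card V ∧ G.indepNum ≤ al f ∧
      ∀ c₀ d₀ a b : ℤ, NN (EP c₀ d₀ a b f) → ∀ k : ℕ,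
        (a * (al f : ℤ) + b * (Fintype.card V : ℤ)) * (indepSeq G k : ℤ) ≤
          c₀ * ((k : ℤ) + 1) * (indepSeq G (k + 1) : ℤ) + d₀ * (k : ℤ) * (indepSeq G k : ℤ) := by
  obtain ⟨f, hf, hv⟩ := F.exists_fits G (degen_of_acyclic hG) _ (Finset.univ : Finset V) rfl
  have hsz : F.sz f = Fintype.card V := by
    rw [F.sz_eq G f hf, hv, Finset.card_univ]
  refine ⟨f, hsz, ?_, ?_⟩
  · obtain ⟨s, hs⟩ := G.exists_isNIndepSet_indepNum
    rw [← hs.2]
    apply (card_le_al G f hf).1 s (by rw [hv]; exact Finset.subset_univ _)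
    intro a ha b hb hab
    exact hs.1 ha hb (G.ne_of_adj hab) hab
  · intro c₀ d₀ a b h k
    have := of_EP G hf h k
    rw [hv, hsz, ← indepSeq_eq', ← indepSeq_eq'] at this
    exact this

/-- The three inequalities. -/
theorem three [Fintype V] (G : SimpleGraph V) (hG : G.IsAcyclic) (k : ℕ) :
    10 * G.indepNum * indepSeq G k ≤
        11 * (k + 1) * indepSeq G (k + 1) + 16 * k * indepSeq G k ∧
      Fintype.card V * indepSeq G k ≤
        (k + 1) * indepSeq G (k + 1) + 3 * k * indepSeq G k ∧
      ∀ j : ℕ, 2 * j * (j + 2) * G.indepNum * indepSeq G k ≤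
        (j ^ 2 + 3 * j + 1) * (k + 1) * indepSeq G (k + 1) +
          (j * (j + 3) * k + j * (j + 1) * Fintype.card V) * indepSeq G k := by
  obtain ⟨f, -, h2, h3⟩ := main_aux G hG
  have h1 := h3 _ _ _ _ (ineq1 f) k
  have h4 := h3 _ _ _ _ (ineq2 f) k
  have h7 : (G.indepNum : ℤ) * (indepSeq G k : ℤ) ≤ (al f : ℤ) * (indepSeq G k : ℤ) := by
    apply mul_le_mul_of_nonneg_right _ (Int.natCast_nonneg _)
    exact_mod_cast h2
  refine ⟨?_, ?_, fun j => ?_⟩
  · zify; nlinarith
  · zify; nlinarith
  · have h5 := h3 _ _ _ _ (ineq3 j f) k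
    have h8 := mul_le_mul_of_nonneg_left h7 (by positivity : (0 : ℤ) ≤ 2 * j * (j + 2))
    zify
    nlinarith

/-- The initial segment. -/
theorem initial [Fintype V] (G : SimpleGraph V) (hG : G.IsAcyclic) (k : ℕ)
    (hk : 27 * k + 11 ≤ 10 * G.indepNum ∨ 4 * k + 1 ≤ Fintype.card V ∨
      ∃ j : ℕ, (2 * j ^ 2 + 6 * j + 1) * k + (j ^ 2 + 3 * j + 1) +
        j * (j + 1) * Fintype.card V ≤ 2 * j * (j + 2) * G.indepNum) :
    indepSeq G k ≤ indepSeq G (k + 1) := by
  obtain ⟨h1, h2, h3⟩ := three G hG k
  rcases hk with hk | hk | ⟨j, hk⟩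
  · have := (Nat.mul_le_mul_right (indepSeq G k) hk).trans h1
    have key : 11 * (k + 1) * indepSeq G k ≤ 11 * (k + 1) * indepSeq G (k + 1) := by nlinarith
    exact Nat.le_of_mul_le_mul_left key (by positivity)
  · have := (Nat.mul_le_mul_right (indepSeq G k) hk).trans h2
    have key : (k + 1) * indepSeq G k ≤ (k + 1) * indepSeq G (k + 1) := by nlinarith
    exact Nat.le_of_mul_le_mul_left key (by positivity)
  · have := (Nat.mul_le_mul_right (indepSeq G k) hk).trans (h3 j)
    have key : (j ^ 2 + 3 * j + 1) * (k + 1) * indepSeq G k ≤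
        (j ^ 2 + 3 * j + 1) * (k + 1) * indepSeq G (k + 1) := by nlinarith
    exact Nat.le_of_mul_le_mul_left key (by positivity)

end Pool.Agent.Lib.MP_24a1b5_co.Init
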