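import Pool.Agent.Lib.MP_24a1b5_co.Init.Psum2

/-!
# The inductive proof that `(8 + 3 X) I' - 3 n I` has nonnegative partial sums
-/

set_option autoImplicit false
open Polynomial
open scoped Classical

namespace Pool.Agent.Lib.MP_24a1b5_co.Init

open Pool.Agent.Lib.MP_24a1b5_co (F)

variable {V : Type*}

/-- sum over the pairs of trees of the sets containing both their roots and no other root -/
noncomputable def SS : F V → ℤ[X]
  | F.nil => 0
  | F.cons _ c r => Q c * SQ r + P c * SS r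

lemma nnSS : ∀ f : F V, NN (SS f)
  | F.nil => NN.zero
  | F.cons _ c r => ((nnQ c).mul (nnSQ r)).add ((nnP c).mul (nnSS r))

lemma f13 : ∀ f : F V, NN (P f - Q f - X * SQ f)
  | F.nil => by simpa [P_nil, Q_nil, SQ] using NN.zero
  | F.cons _ c r => by
      refine NN.congr (((nnP c).mul (f13 r)).add (NN.X.mul ((nnQ c).mul (f1 r)))) ?_
      rw [P_cons, Q_cons, SQ]; ring

lemma f14 : ∀ f : F V, NN (SP f - SQ f - 2 * X * SS f)
  | F.nil => by simpa [SP, SQ, SS] using NN.zero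
  | F.cons _ c r => by
      refine NN.congr ((((nnP c).mul (f14 r)).add ((nnQ c).mul (f13 r))).add
        (NN.X.mul ((nnQ c).mul (f6 r)))) ?_
      rw [SP, SQ, SS]; ring

lemma quadS : ∀ (f : F V) (k : ℕ),
    NN (2 * SS f - 2 * (k : ℤ[X]) * SQ f + (k : ℤ[X]) * ((k : ℤ[X]) + 1) * Q f)
  | F.nil, k => by
      refine NN.congr ((NN.natCast k).mul (NN.natCast (k + 1))) ?_
      simp [SS, SQ, Q_nil]
  | F.cons v c r, k => by
      rw [SS, SQ, Q_cons]
      cases k with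
      | zero =>
        refine NN.congr ((NN.num 2).mul (((nnQ c).mul (nnSQ r)).add
          ((nnP c).mul (nnSS r)))) ?_
        push_cast; ring
      | succ k =>
        refine NN.congr (((f1 c).mul (quadS r (k + 1))).add ((nnQ c).mul (quadS r k))) ?_
        push_cast; ring

/-- the inductive statement -/
def Inv4 (f : F V) : Prop :=
  PSN (EP 8 3 0 3 f - EM 8 3 0 3 f - 4 * (SP f - SQ f)) ∧
  PSN (EM 8 3 0 3 f + X * EQ 8 3 0 3 f - (2 * SQ f + 3 * (m f : ℤ[X]) * Q f)) ∧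
  PSN (EM 8 3 0 3 f - 4 * SQ f)

lemma treeN (c : F V) (h : Inv4 c) :
    PSN (ET 8 3 0 3 c - 4 * Q c) ∧
    PSN (ET 8 3 0 3 c + X * EP 8 3 0 3 c - (2 * Q c + 3 * P c)) := by
  obtain ⟨i1, i2, i3⟩ := h
  have q1 : NN (2 * SS c - 2 * SQ c + 2 * Q c) := by
    refine NN.congr (quadS c 1) ?_
    push_cast; ring
  constructor
  · refine PSN.half ?_
    have j1 := PSN.mul' (NN.num 2) (i1.add i2)
    have j2 := PSN.ofNN ((NN.num 3).mul (f10 c))
    have j3 : PSN ((1 - X) * (6 * ((m c : ℤ[X]) * Q c))) :=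
      PSN.oneSub ((NN.num 6).mul ((NN.natCast (m c)).mul (nnQ c)))
    have j4 : PSN ((1 - X) * (3 * (SP c - SQ c - 2 * X * SS c))) :=
      PSN.oneSub ((NN.num 3).mul (f14 c))
    have j5 : PSN (5 * (SP c - SQ c - 2 * X * SS c)) := PSN.ofNN ((NN.num 5).mul (f14 c))
    have j6 : PSN ((1 - X) * (4 * SQ c + 2 * Q c)) :=
      PSN.oneSub (((NN.num 4).mul (nnSQ c)).add ((NN.num 2).mul (nnQ c)))
    have j7 : PSN ((1 - X) * (X * ((2 * SS c - 2 * SQ c + 2 * Q c) + 14 * SS c))) :=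
      PSN.oneSub (NN.X.mul (q1.add ((NN.num 14).mul (nnSS c))))
    have j8 : PSN (X * (X * ((2 * SS c - 2 * SQ c + 2 * Q c) + 8 * SS c))) :=
      PSN.ofNN (NN.X.mul (NN.X.mul (q1.add ((NN.num 8).mul (nnSS c)))))
    refine PSN.congr (((((((j1.add j2).add j3).add j4).add j5).add j6).add j7).add j8) ?_
    rw [ET]; push_cast; ring
  · have j1 := PSN.mul' (NN.one.add NN.X) i1
    have j3 := PSN.mul' NN.X i3
    have j2 := PSN.ofNN ((NN.num 3).mul (f10 c))
    have j4 : PSN ((1 - X) * (3 * ((m c : ℤ[X]) * Q c))) :=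
      PSN.oneSub ((NN.num 3).mul ((NN.natCast (m c)).mul (nnQ c)))
    have j5 : PSN ((1 - X) * (2 * SQ c)) := PSN.oneSub ((NN.num 2).mul (nnSQ c))
    have j6 : PSN ((4 + X) * (SP c - SQ c)) :=
      PSN.ofNN (((NN.num 4).add NN.X).mul (f6 c))
    refine PSN.congr ((((((j1.add i2).add j3).add j2).add j4).add j5).add j6) ?_
    rw [ET]; push_cast; ring

lemma inv4 : ∀ f : F V, Inv4 f
  | F.nil => by
      refine ⟨?_, ?_, ?_⟩
      · refine PSN.congr PSN.zero ?_
        simp [EP, EM, SP, SQ, P_nil, al, F.sz]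
      · refine PSN.congr PSN.zero ?_
        simp [EQ, EM, SQ, Q_nil, alQ, szQ, m]
      · refine PSN.congr PSN.zero ?_
        simp [EM, SQ]
  | F.cons v c r => by
      obtain ⟨t1, t2⟩ := treeN c (inv4 c)
      obtain ⟨r1, r2, r3⟩ := inv4 r
      refine ⟨?_, ?_, ?_⟩
      · refine PSN.congr (((t1.mul (f1 r)).add (PSN.mul' (nnP c) r1)).add
          (PSN.mul' (NN.X.mul (nnQ c)) (r1.add r3))) ?_
        rw [EP_cons, EM, SP, SQ]; ring
      · refine PSN.congr ((t2.mul (nnQ r)).add (PSN.mul' (nnP c) r2)) ?_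
        rw [EQ_cons, EM, SQ, m, Q_cons]; push_cast; ring
      · refine PSN.congr ((t1.mul (nnQ r)).add (PSN.mul' (nnP c) r3)) ?_
        rw [EM, SQ]; ring

/-- `(8 + 3 X) P' - 3 n P` has nonnegative partial sums -/
theorem ineqPSn (f : F V) : PSN (EP 8 3 0 3 f) := by
  obtain ⟨i1, -, i3⟩ := inv4 f
  refine PSN.congr ((i1.add i3).add (PSN.ofNN ((NN.num 4).mul (nnSP f)))) ?_
  ring

end Pool.Agent.Lib.MP_24a1b5_co.Init
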