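import Pool.Agent.Lib.MP_24a1b5_co.Forest

/-!
# The beginning of the independence sequence of a forest: polynomial inequalities

For a rooted forest `f` let `P f` be its independence polynomial and `Q f` the independence
polynomial of `f` without its roots. Inequalities of the form
`(c + d X) P' ≥ (a α + b n) P` (coefficientwise) are proved by induction on `f`.
-/

set_option autoImplicit false
open Polynomial
open scoped Classical

namespace Pool.Agent.Lib.MP_24a1b5_co.Init

open Pool.Agent.Lib.MP_24a1b5_co (F)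

/-- all the coefficients are nonnegative -/
def NN (p : ℤ[X]) : Prop := ∀ n, 0 ≤ p.coeff n

namespace NN

lemma zero : NN 0 := fun n => by simp

lemma add {p q : ℤ[X]} (hp : NN p) (hq : NN q) : NN (p + q) := fun n => by
  rw [coeff_add]
  exact add_nonneg (hp n) (hq n)

lemma mul {p q : ℤ[X]} (hp : NN p) (hq : NN q) : NN (p * q) := fun n => by
  rw [coeff_mul]
  exact Finset.sum_nonneg fun x _ => mul_nonneg (hp _) (hq _)

lemma natCast (n : ℕ) : NN ((n : ℕ) : ℤ[X]) := fun k => by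
  rw [coeff_natCast_ite]
  split_ifs
  · exact Int.natCast_nonneg n
  · exact le_rfl

lemma one : NN 1 := by
  have := natCast 1
  rwa [Nat.cast_one] at this

lemma num (n : ℕ) [n.AtLeastTwo] : NN (OfNat.ofNat n : ℤ[X]) := by
  have := natCast n
  rwa [← Nat.cast_ofNat] 

lemma X : NN (X : ℤ[X]) := fun n => by
  rw [coeff_X]
  split_ifs <;> norm_num

lemma congr {p q : ℤ[X]} (h : NN p) (e : q = p) : NN q := e ▸ h

end NN

variable {V : Type*}

/-- independence polynomial of the forest -/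
noncomputable def P (f : F V) : ℤ[X] := (F.ZF X f).1

/-- independence polynomial of the forest without its roots -/
noncomputable def Q (f : F V) : ℤ[X] := (F.ZF X f).2

lemma P_nil : P (F.nil : F V) = 1 := rfl
lemma Q_nil : Q (F.nil : F V) = 1 := rfl
lemma P_cons (v : V) (c r : F V) : P (F.cons v c r) = (P c + X * Q c) * P r := rfl
lemma Q_cons (v : V) (c r : F V) : Q (F.cons v c r) = P c * Q r := rfl

/-- number of trees of the forest whose root lies in a maximum independent set chosen greedily from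
the leaves; a tree is of this kind if none of the subtrees at the children of its root is -/
def nA : F V → ℕ
  | F.nil => 0
  | F.cons _ c r => (if nA c = 0 then 1 else 0) + nA r

/-- number of trees -/
def m : F V → ℕ
  | F.nil => 0
  | F.cons _ _ r => 1 + m r

/-- size of the greedy independent set -/
def al : F V → ℕ
  | F.nil => 0
  | F.cons _ c r => al c + (if nA c = 0 then 1 else 0) + al r

/-- size of the greedy independent set of the forest without its roots -/
def alQ : F V → ℕ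
  | F.nil => 0
  | F.cons _ c r => al c + alQ r

/-- number of vertices which are not roots -/
def szQ : F V → ℕ
  | F.nil => 0
  | F.cons _ c r => F.sz c + szQ r

lemma al_eq : ∀ f : F V, al f = alQ f + nA f
  | F.nil => rfl
  | F.cons v c r => by
      have := al_eq r
      simp only [al, alQ, nA]
      omega

lemma sz_eq' : ∀ f : F V, F.sz f = szQ f + m f
  | F.nil => rfl
  | F.cons v c r => by
      have := sz_eq' r
      simp only [F.sz, szQ, m]
      omega

lemma nA_le_m : ∀ f : F V, nA f ≤ m f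
  | F.nil => le_rfl
  | F.cons v c r => by
      have := nA_le_m r
      simp only [nA, m]
      split_ifs <;> omega

/-- sum over the trees of the sets containing its root -/
noncomputable def SP : F V → ℤ[X]
  | F.nil => 0
  | F.cons _ c r => Q c * P r + (P c + X * Q c) * SP r

/-- the same, over the trees counted by `nA` -/
noncomputable def SAP : F V → ℤ[X]
  | F.nil => 0
  | F.cons _ c r => (if nA c = 0 then Q c * P r else 0) + (P c + X * Q c) * SAP r

/-- sum over the trees of the sets containing its root and no other root -/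
noncomputable def SQ : F V → ℤ[X]
  | F.nil => 0
  | F.cons _ c r => Q c * Q r + P c * SQ r

/-- the same, over the trees counted by `nA` -/
noncomputable def SA : F V → ℤ[X]
  | F.nil => 0
  | F.cons _ c r => (if nA c = 0 then Q c * Q r else 0) + P c * SA r

/-- the same, over the pairs of trees counted by `nA` -/
noncomputable def SAA : F V → ℤ[X]
  | F.nil => 0
  | F.cons _ c r => (if nA c = 0 then Q c * SA r else 0) + P c * SAA r

lemma nnPQ : ∀ f : F V, NN (P f) ∧ NN (Q f)
  | F.nil => ⟨NN.one, NN.one⟩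
  | F.cons v c r => by
      obtain ⟨c1, c2⟩ := nnPQ c
      obtain ⟨r1, r2⟩ := nnPQ r
      exact ⟨(c1.add (NN.X.mul c2)).mul r1, c1.mul r2⟩

lemma nnP (f : F V) : NN (P f) := (nnPQ f).1
lemma nnQ (f : F V) : NN (Q f) := (nnPQ f).2

lemma nnT (f : F V) : NN (P f + X * Q f) := (nnP f).add (NN.X.mul (nnQ f))

lemma nnSP : ∀ f : F V, NN (SP f)
  | F.nil => NN.zero
  | F.cons v c r => ((nnQ c).mul (nnP r)).add ((nnT c).mul (nnSP r))

lemma nnSAP : ∀ f : F V, NN (SAP f)
  | F.nil => NN.zero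
  | F.cons v c r => by
      rw [SAP]
      refine NN.add ?_ ((nnT c).mul (nnSAP r))
      split_ifs
      · exact (nnQ c).mul (nnP r)
      · exact NN.zero

lemma nnSA : ∀ f : F V, NN (SA f)
  | F.nil => NN.zero
  | F.cons v c r => by
      rw [SA]
      refine NN.add ?_ ((nnP c).mul (nnSA r))
      split_ifs
      · exact (nnQ c).mul (nnQ r)
      · exact NN.zero

lemma nnSAA : ∀ f : F V, NN (SAA f)
  | F.nil => NN.zero
  | F.cons v c r => by
      rw [SAA]
      refine NN.add ?_ ((nnP c).mul (nnSAA r))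
      split_ifs
      · exact (nnQ c).mul (nnSA r)
      · exact NN.zero

lemma f1 : ∀ f : F V, NN (P f - Q f)
  | F.nil => by simpa [P_nil, Q_nil] using NN.zero
  | F.cons v c r => by
      refine NN.congr (((nnP c).mul (f1 r)).add (NN.X.mul ((nnQ c).mul (nnP r)))) ?_
      rw [P_cons, Q_cons]; ring

lemma f2 : ∀ f : F V, NN (X * SP f - (P f - Q f))
  | F.nil => by simpa [P_nil, Q_nil, SP] using NN.zero
  | F.cons v c r => by
      refine NN.congr (((nnP c).mul (f2 r)).add
        (NN.X.mul (NN.X.mul ((nnQ c).mul (nnSP r))))) ?_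
      rw [P_cons, Q_cons, SP]; ring

lemma f4 : ∀ f : F V, NN (P f - Q f - X * SA f)
  | F.nil => by simpa [P_nil, Q_nil, SA] using NN.zero
  | F.cons v c r => by
      rw [P_cons, Q_cons, SA]
      split_ifs
      · refine NN.congr (((nnP c).mul (f4 r)).add (NN.X.mul ((nnQ c).mul (f1 r)))) ?_
        ring
      · refine NN.congr (((nnP c).mul (f4 r)).add (NN.X.mul ((nnQ c).mul (nnP r)))) ?_
        ring

lemma f5 : ∀ f : F V, NN (SAP f - SA f)
  | F.nil => by simpa [SA, SAP] using NN.zero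
  | F.cons v c r => by
      rw [SAP, SA]
      split_ifs
      · refine NN.congr ((((nnP c).mul (f5 r)).add ((nnQ c).mul (f1 r))).add
          (NN.X.mul ((nnQ c).mul (nnSAP r)))) ?_
        ring
      · refine NN.congr (((nnP c).mul (f5 r)).add (NN.X.mul ((nnQ c).mul (nnSAP r)))) ?_
        ring

lemma f3 : ∀ f : F V, NN (SAP f - SA f - 2 * X * SAA f)
  | F.nil => by simpa [SA, SAP, SAA] using NN.zero
  | F.cons v c r => by
      rw [SAP, SA, SAA]
      split_ifs
      · refine NN.congr ((((nnP c).mul (f3 r)).add ((nnQ c).mul (f4 r))).add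
          (NN.X.mul ((nnQ c).mul (f5 r)))) ?_
        ring
      · refine NN.congr (((nnP c).mul (f3 r)).add (NN.X.mul ((nnQ c).mul (nnSAP r)))) ?_
        ring

lemma f6 : ∀ f : F V, NN (SP f - SQ f)
  | F.nil => by simpa [SP, SQ] using NN.zero
  | F.cons v c r => by
      refine NN.congr ((((nnP c).mul (f6 r)).add ((nnQ c).mul (f1 r))).add
        (NN.X.mul ((nnQ c).mul (nnSP r)))) ?_
      rw [SP, SQ]; ring

lemma f7 : ∀ f : F V, NN ((m f : ℤ[X]) * Q f - SQ f)
  | F.nil => by simpa [SQ, m] using NN.zero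
  | F.cons v c r => by
      refine NN.congr (((nnP c).mul (f7 r)).add ((f1 c).mul (nnQ r))) ?_
      rw [Q_cons, SQ, m]; push_cast; ring

lemma f8 : ∀ f : F V, NN (SP f - SAP f)
  | F.nil => by simpa [SP, SAP] using NN.zero
  | F.cons v c r => by
      rw [SP, SAP]
      split_ifs
      · refine NN.congr ((nnT c).mul (f8 r)) ?_
        ring
      · refine NN.congr (((nnT c).mul (f8 r)).add ((nnQ c).mul (nnP r))) ?_
        ring

lemma f9 (f : F V) : NN (((m f : ℤ[X]) - (nA f : ℤ[X])) * Q f) := by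
  refine NN.congr ((NN.natCast (m f - nA f)).mul (nnQ f)) ?_
  rw [Nat.cast_sub (nA_le_m f)]

lemma SA_zero : ∀ f : F V, nA f = 0 → SA f = 0
  | F.nil, _ => rfl
  | F.cons _ c r, h => by
      rw [nA, Nat.add_eq_zero_iff] at h
      have h1 : nA c ≠ 0 := fun h' => by simp [h'] at h
      rw [SA, if_neg h1, SA_zero r h.2]; ring

lemma SAP_zero : ∀ f : F V, nA f = 0 → SAP f = 0
  | F.nil, _ => rfl
  | F.cons _ c r, h => by
      rw [nA, Nat.add_eq_zero_iff] at h
      have h1 : nA c ≠ 0 := fun h' => by simp [h'] at h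
      rw [SAP, if_neg h1, SAP_zero r h.2]; ring

/-- the coefficientwise form of `(t - k) (t - k - 1) ≥ 0` -/
lemma quad : ∀ (f : F V) (k : ℕ),
    NN (2 * SAA f - 2 * (k : ℤ[X]) * SA f + (k : ℤ[X]) * ((k : ℤ[X]) + 1) * Q f)
  | F.nil, k => by
      refine NN.congr ((NN.natCast k).mul (NN.natCast (k + 1))) ?_
      simp [SAA, SA, Q_nil]
  | F.cons v c r, k => by
      rw [SAA, SA, Q_cons]
      split_ifs
      · cases k with
        | zero =>
          refine NN.congr ((NN.num 2).mul (((nnQ c).mul (nnSA r)).add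
            ((nnP c).mul (nnSAA r)))) ?_
          push_cast; ring
        | succ k =>
          refine NN.congr (((f1 c).mul (quad r (k + 1))).add ((nnQ c).mul (quad r k))) ?_
          push_cast; ring
      · refine NN.congr ((nnP c).mul (quad r k)) ?_
        ring

lemma quad2 (f : F V) : NN (2 * SAA f - 4 * SA f + 6 * Q f) := by
  refine NN.congr (quad f 2) ?_
  push_cast; ring

/-- defect of the inequality `(c₀ + d₀ X) P' ≥ (a al + b sz) P` -/
noncomputable def EP (c₀ d₀ a b : ℤ) (f : F V) : ℤ[X] :=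
  ((c₀ : ℤ[X]) + (d₀ : ℤ[X]) * X) * derivative (P f) -
    ((a : ℤ[X]) * (al f : ℤ[X]) + (b : ℤ[X]) * (F.sz f : ℤ[X])) * P f

/-- the same for the forest without its roots -/
noncomputable def EQ (c₀ d₀ a b : ℤ) (f : F V) : ℤ[X] :=
  ((c₀ : ℤ[X]) + (d₀ : ℤ[X]) * X) * derivative (Q f) -
    ((a : ℤ[X]) * (alQ f : ℤ[X]) + (b : ℤ[X]) * (szQ f : ℤ[X])) * Q f

/-- the same for the tree with child forest `c` -/
noncomputable def ET (c₀ d₀ a b : ℤ) (c : F V) : ℤ[X] :=
  EP c₀ d₀ a b c - ((a : ℤ[X]) * (if nA c = 0 then 1 else 0) + (b : ℤ[X])) * P c +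
    ((c₀ : ℤ[X]) + (d₀ : ℤ[X]) * X) * Q c +
    X * (EQ c₀ d₀ a b c - ((a : ℤ[X]) * ((nA c : ℤ[X]) + (if nA c = 0 then 1 else 0)) +
      (b : ℤ[X]) * ((m c : ℤ[X]) + 1)) * Q c)

lemma EP_cons (c₀ d₀ a b : ℤ) (v : V) (c r : F V) : EP c₀ d₀ a b (F.cons v c r) =
    ET c₀ d₀ a b c * P r + (P c + X * Q c) * EP c₀ d₀ a b r := by
  have h1 : (al c : ℤ[X]) = (alQ c : ℤ[X]) + (nA c : ℤ[X]) := by
    rw [al_eq c]; push_cast; ring
  have h2 : (F.sz c : ℤ[X]) = (szQ c : ℤ[X]) + (m c : ℤ[X]) := by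
    rw [sz_eq' c]; push_cast; ring
  rw [EP, ET, EQ, EP, EP, P_cons, al, F.sz, derivative_mul, derivative_add, derivative_mul,
    derivative_X]
  push_cast
  rw [h1, h2]
  ring

lemma EQ_cons (c₀ d₀ a b : ℤ) (v : V) (c r : F V) : EQ c₀ d₀ a b (F.cons v c r) =
    EP c₀ d₀ a b c * Q r + P c * EQ c₀ d₀ a b r := by
  rw [EP, EQ, EQ, Q_cons, alQ, szQ, derivative_mul]
  push_cast
  ring

/-- the inductive statement -/
def Inv (c₀ d₀ a b : ℤ) (LA LB gA gB : ℤ[X]) (f : F V) : Prop :=
  NN (EP c₀ d₀ a b f - LA * SAP f - LB * (SP f - SAP f)) ∧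
  NN (EQ c₀ d₀ a b f - gA * ((nA f : ℤ[X]) * Q f - SA f) -
    gB * (((m f : ℤ[X]) - (nA f : ℤ[X])) * Q f - (SQ f - SA f)))

lemma Inv_all (c₀ d₀ a b : ℤ) (LA LB gA gB : ℤ[X])
    (hA : ∀ c : F V, nA c = 0 → Inv c₀ d₀ a b LA LB gA gB c →
      NN (ET c₀ d₀ a b c - LA * Q c) ∧ NN (EP c₀ d₀ a b c - gA * (P c - Q c)))
    (hB : ∀ c : F V, nA c ≠ 0 → Inv c₀ d₀ a b LA LB gA gB c →
      NN (ET c₀ d₀ a b c - LB * Q c) ∧ NN (EP c₀ d₀ a b c - gB * (P c - Q c))) :
    ∀ f : F V, Inv c₀ d₀ a b LA LB gA gB f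
  | F.nil => by
      constructor
      · refine NN.congr NN.zero ?_
        simp [EP, SAP, SP, P_nil, al, F.sz]
      · refine NN.congr NN.zero ?_
        simp [EQ, SA, SQ, Q_nil, alQ, szQ, nA, m]
  | F.cons v c r => by
      have ic := Inv_all c₀ d₀ a b LA LB gA gB hA hB c
      have ir := Inv_all c₀ d₀ a b LA LB gA gB hA hB r
      by_cases h : nA c = 0
      · obtain ⟨h1, h2⟩ := hA c h ic
        constructor
        · refine NN.congr ((h1.mul (nnP r)).add ((nnT c).mul ir.1)) ?_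
          rw [EP_cons, SAP, SP, if_pos h]; ring
        · refine NN.congr ((h2.mul (nnQ r)).add ((nnP c).mul ir.2)) ?_
          rw [EQ_cons, SA, SQ, nA, m, Q_cons, if_pos h, if_pos h]; push_cast; ring
      · obtain ⟨h1, h2⟩ := hB c h ic
        constructor
        · refine NN.congr ((h1.mul (nnP r)).add ((nnT c).mul ir.1)) ?_
          rw [EP_cons, SAP, SP, if_neg h]; ring
        · refine NN.congr ((h2.mul (nnQ r)).add ((nnP c).mul ir.2)) ?_
          rw [EQ_cons, SA, SQ, nA, m, Q_cons, if_neg h, if_neg h]; push_cast; ring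

/-- `(11 + 16 X) P' ≥ 10 α P` -/
theorem ineq1 (f : F V) : NN (EP 11 16 10 0 f) := by
  have key := Inv_all (V := V) 11 16 10 0 (1 + 6 * X) (10 * X) 10 0 ?_ ?_ f
  · refine NN.congr ((key.1.add ((NN.one.add ((NN.num 6).mul NN.X)).mul (nnSAP f))).add
      (((NN.num 10).mul NN.X).mul (f8 f))) ?_
    ring
  · rintro c hc ⟨e1, e2⟩
    rw [SAP_zero c hc] at e1
    rw [SA_zero c hc, hc] at e2
    constructor
    · refine NN.congr ((e1.add ((NN.num 10).mul (f2 c))).add (NN.X.mul e2)) ?_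
      rw [ET, if_pos hc, hc]; push_cast; ring
    · refine NN.congr (e1.add ((NN.num 10).mul (f2 c))) ?_
      ring
  · rintro c hc ⟨e1, e2⟩
    constructor
    · refine NN.congr ((((((e1.add (NN.X.mul e2)).add (f3 c)).add
        (((NN.num 6).mul NN.X).mul (f5 c))).add (((NN.num 10).mul NN.X).mul (f8 c))).add
        ((nnSA c).add ((NN.num 11).mul (nnQ c)))).add (NN.X.mul (quad2 c))) ?_
      rw [ET, if_neg hc]; push_cast; ring
    · refine NN.congr ((e1.add ((NN.one.add ((NN.num 6).mul NN.X)).mul (nnSAP c))).add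
        (((NN.num 10).mul NN.X).mul (f8 c))) ?_
      ring

/-- `(1 + 3 X) P' ≥ n P` -/
theorem ineq2 (f : F V) : NN (EP 1 3 0 1 f) := by
  have key := Inv_all (V := V) 1 3 0 1 (2 * X) (2 * X) 2 2 ?_ ?_ f
  · refine NN.congr (key.1.add (((NN.num 2).mul NN.X).mul (nnSP f))) ?_
    ring
  · rintro c hc ⟨e1, e2⟩
    constructor
    · refine NN.congr ((((e1.add (NN.X.mul e2)).add (f2 c)).add (NN.X.mul (f6 c))).add
        (NN.X.mul (f7 c))) ?_
      rw [ET]; push_cast; ring
    · refine NN.congr (e1.add ((NN.num 2).mul (f2 c))) ?_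
      ring
  · rintro c hc ⟨e1, e2⟩
    constructor
    · refine NN.congr ((((e1.add (NN.X.mul e2)).add (f2 c)).add (NN.X.mul (f6 c))).add
        (NN.X.mul (f7 c))) ?_
      rw [ET]; push_cast; ring
    · refine NN.congr (e1.add ((NN.num 2).mul (f2 c))) ?_
      ring

/-- `(j² + 3 j + 1 + j (j + 3) X) P' ≥ (2 j (j + 2) α - j (j + 1) n) P` -/
theorem ineq3 (j : ℕ) (f : F V) : NN (EP ((j : ℤ) ^ 2 + 3 * (j : ℤ) + 1)
    ((j : ℤ) * ((j : ℤ) + 3)) (2 * (j : ℤ) * ((j : ℤ) + 2))
    (-((j : ℤ) * ((j : ℤ) + 1))) f) := by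
  have hc : NN ((j : ℤ[X]) * ((j : ℤ[X]) + 3)) :=
    (NN.natCast j).mul ((NN.natCast j).add (NN.num 3))
  have hb : NN ((j : ℤ[X]) * ((j : ℤ[X]) + 1)) :=
    (NN.natCast j).mul ((NN.natCast j).add NN.one)
  have h0 : NN (2 * ((j : ℤ[X]) * (j : ℤ[X])) + 4 * (j : ℤ[X]) + 1) :=
    (((NN.num 2).mul ((NN.natCast j).mul (NN.natCast j))).add
      ((NN.num 4).mul (NN.natCast j))).add NN.one
  have hL : NN (2 * ((j : ℤ[X]) * (j : ℤ[X])) + 4 * (j : ℤ[X]) + 1 +
      (j : ℤ[X]) * ((j : ℤ[X]) + 3) * X) := h0.add (hc.mul NN.X)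
  have key := Inv_all (V := V) ((j : ℤ) ^ 2 + 3 * (j : ℤ) + 1)
    ((j : ℤ) * ((j : ℤ) + 3)) (2 * (j : ℤ) * ((j : ℤ) + 2)) (-((j : ℤ) * ((j : ℤ) + 1)))
    1 (2 * ((j : ℤ[X]) * (j : ℤ[X])) + 4 * (j : ℤ[X]) + 1 +
      (j : ℤ[X]) * ((j : ℤ[X]) + 3) * X) ((j : ℤ[X]) * ((j : ℤ[X]) + 3)) 0 ?_ ?_ f
  · refine NN.congr ((key.1.add (nnSAP f)).add (hL.mul (f8 f))) ?_
    ring
  · rintro c hcc ⟨e1, e2⟩
    rw [SAP_zero c hcc] at e1
    rw [SA_zero c hcc, hcc] at e2
    constructor
    · refine NN.congr (((((e1.add (NN.X.mul e2)).add (hc.mul (f2 c))).add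
        (h0.mul (nnSP c))).add
        (NN.X.mul (hb.mul ((NN.natCast (m c)).mul (nnQ c)))))) ?_
      rw [ET, if_pos hcc, hcc]; push_cast; ring
    · refine NN.congr ((e1.add (hc.mul (f2 c))).add (h0.mul (nnSP c))) ?_
      ring
  · rintro c hcc ⟨e1, e2⟩
    constructor
    · refine NN.congr ((((((((e1.add (NN.X.mul e2)).add (hL.mul (f8 c))).add (f3 c)).add
        (hb.mul (f4 c))).add (nnSA c)).add (NN.X.mul (quad c j))).add
        (NN.X.mul (hb.mul (f9 c))))) ?_
      rw [ET, if_neg hcc]; push_cast; ring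
    · refine NN.congr ((e1.add (nnSAP c)).add (hL.mul (f8 c))) ?_
      ring

end Pool.Agent.Lib.MP_24a1b5_co.Init
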