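import Pool.Agent.Lib.MP_24a1b5_co.Init.Poly

/-!
# Partial sums

For the independence polynomial `I` of a forest with independence number `α` the partial sums of the
coefficients of `(9 + 6 X) I' - 7 α I` are nonnegative.
-/

set_option autoImplicit false
open Polynomial
open scoped Classical

namespace Pool.Agent.Lib.MP_24a1b5_co.Init

open Pool.Agent.Lib.MP_24a1b5_co (F)

/-- the geometric series -/
noncomputable def geo : PowerSeries ℤ := PowerSeries.mk fun _ => 1

lemma geo_mul : geo * (1 - PowerSeries.X) = 1 := by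
  have := PowerSeries.mk_one_mul_one_sub_eq_one ℤ
  exact this

/-- the partial sums of the coefficients are nonnegative -/
def PSN (p : ℤ[X]) : Prop := ∀ n, 0 ≤ PowerSeries.coeff n (geo * (p : PowerSeries ℤ))

namespace PSN

lemma zero : PSN 0 := fun n => by simp

lemma add {p q : ℤ[X]} (hp : PSN p) (hq : PSN q) : PSN (p + q) := fun n => by
  rw [Polynomial.coe_add, mul_add, map_add]
  exact add_nonneg (hp n) (hq n)

lemma mul {p q : ℤ[X]} (hp : PSN p) (hq : NN q) : PSN (p * q) := fun n => by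
  rw [Polynomial.coe_mul, ← mul_assoc, PowerSeries.coeff_mul]
  refine Finset.sum_nonneg fun x _ => mul_nonneg (hp _) ?_
  rw [Polynomial.coeff_coe]
  exact hq _

lemma mul' {p q : ℤ[X]} (hp : NN p) (hq : PSN q) : PSN (p * q) := by
  rw [mul_comm]
  exact hq.mul hp

lemma congr {p q : ℤ[X]} (h : PSN p) (e : q = p) : PSN q := e ▸ h

lemma ofNN {p : ℤ[X]} (hp : NN p) : PSN p := fun n => by
  rw [PowerSeries.coeff_mul]
  refine Finset.sum_nonneg fun x _ => mul_nonneg ?_ ?_
  · rw [geo, PowerSeries.coeff_mk]; norm_num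
  · rw [Polynomial.coeff_coe]
    exact hp _

lemma oneSub {p : ℤ[X]} (hp : NN p) : PSN ((1 - X) * p) := fun n => by
  have e : (((1 - X) * p : ℤ[X]) : PowerSeries ℤ) = (1 - PowerSeries.X) * (p : PowerSeries ℤ) := by
    rw [Polynomial.coe_mul, Polynomial.coe_sub, Polynomial.coe_one, Polynomial.coe_X]
  rw [e, ← mul_assoc, geo_mul, one_mul, Polynomial.coeff_coe]
  exact hp n

lemma half {p : ℤ[X]} (h : PSN (2 * p)) : PSN p := fun n => by
  have h1 := h n
  have e : geo * ((2 * p : ℤ[X]) : PowerSeries ℤ) = 2 * (geo * (p : PowerSeries ℤ)) := by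
    rw [two_mul, Polynomial.coe_add]; ring
  rw [e, two_mul, map_add] at h1
  omega

lemma sum {p : ℤ[X]} (h : PSN p) (n : ℕ) : 0 ≤ ∑ j ∈ Finset.range (n + 1), p.coeff j := by
  have h1 := h n
  rw [mul_comm, PowerSeries.coeff_mul, Finset.Nat.sum_antidiagonal_eq_sum_range_succ_mk] at h1
  simpa [geo, Polynomial.coeff_coe] using h1

end PSN

lemma NN.C' {a : ℤ} (h : 0 ≤ a) : NN ((a : ℤ) : ℤ[X]) := by
  obtain ⟨n, rfl⟩ := Int.eq_ofNat_of_zero_le h
  have := NN.natCast n
  simpa using this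

variable {V : Type*}

/-- sum over the patterns: for each tree counted by `nA` either the sets containing the root or the
difference is chosen; `φ` is evaluated at the number of the former -/
noncomputable def Pat : F V → (ℕ → ℤ[X]) → ℤ[X]
  | F.nil, φ => φ 0
  | F.cons _ c r, φ => if nA c = 0 then Q c * Pat r (fun t => φ (t + 1)) + (P c - Q c) * Pat r φ
      else P c * Pat r φ

lemma pat_psn : ∀ (f : F V) (φ : ℕ → ℤ[X]), (∀ t, PSN (φ t)) → PSN (Pat f φ)
  | F.nil, φ, h => h 0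
  | F.cons _ c r, φ, h => by
      rw [Pat]
      split_ifs
      · exact (PSN.mul' (nnQ c) (pat_psn r _ fun t => h (t + 1))).add
          (PSN.mul' (f1 c) (pat_psn r _ h))
      · exact PSN.mul' (nnP c) (pat_psn r _ h)

lemma pat_lin : ∀ (f : F V) (a b : ℤ[X]) (φ ψ : ℕ → ℤ[X]),
    Pat f (fun t => a * φ t + b * ψ t) = a * Pat f φ + b * Pat f ψ
  | F.nil, a, b, φ, ψ => rfl
  | F.cons _ c r, a, b, φ, ψ => by
      rw [Pat, Pat, Pat]
      split_ifs
      · rw [pat_lin r a b (fun t => φ (t + 1)) (fun t => ψ (t + 1)), pat_lin r a b φ ψ]; ring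
      · rw [pat_lin r a b φ ψ]; ring

lemma pat_one : ∀ (f : F V), Pat f (fun _ => 1) = Q f
  | F.nil => rfl
  | F.cons _ c r => by
      rw [Pat, pat_one r, Q_cons]
      split_ifs <;> ring

lemma pat_t : ∀ (f : F V), Pat f (fun t => (t : ℤ[X])) = SA f
  | F.nil => by simp [Pat, SA]
  | F.cons _ c r => by
      rw [Pat, pat_t r, SA]
      split_ifs
      · have := pat_lin r 1 1 (fun t => (t : ℤ[X])) (fun _ => 1)
        simp only [one_mul] at this
        have e : (fun t : ℕ => ((t + 1 : ℕ) : ℤ[X])) = fun t : ℕ => ((t : ℤ[X]) + 1) := by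
          funext t; push_cast; ring
        rw [e, this, pat_t r, pat_one r]; ring
      · ring

lemma pat_pow : ∀ (f : F V), NN (P f - Pat f (fun t => (1 + X) ^ t))
  | F.nil => by simpa [Pat, P_nil] using NN.zero
  | F.cons _ c r => by
      rw [Pat, P_cons]
      split_ifs
      · have e : (fun t : ℕ => ((1 + X : ℤ[X])) ^ (t + 1)) =
            fun t : ℕ => (1 + X) * (1 + X) ^ t + 0 * (1 : ℤ[X]) := by
          funext t; ring
        rw [e, pat_lin r (1 + X) 0 (fun t => (1 + X) ^ t) (fun _ => 1)]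
        refine NN.congr ((nnT c).mul (pat_pow r)) ?_
        ring
      · refine NN.congr (((nnP c).mul (pat_pow r)).add (NN.X.mul ((nnQ c).mul (nnP r)))) ?_
        ring

lemma pat_SAP : ∀ (f : F V), NN (SAP f - Pat f (fun t => (t : ℤ[X]) * (1 + X) ^ (t - 1)))
  | F.nil => by simpa [Pat, SAP] using NN.zero
  | F.cons _ c r => by
      rw [Pat, SAP]
      split_ifs
      · have e : (fun t : ℕ => (((t + 1 : ℕ) : ℤ[X])) * (1 + X) ^ (t + 1 - 1)) =
            fun t : ℕ => (1 + X) * ((t : ℤ[X]) * (1 + X) ^ (t - 1)) + 1 * (1 + X) ^ t := by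
          funext t
          cases t with
          | zero => simp
          | succ t =>
            rw [Nat.add_sub_cancel, Nat.add_sub_cancel]
            push_cast
            ring
        rw [e, pat_lin r (1 + X) 1 (fun t => (t : ℤ[X]) * (1 + X) ^ (t - 1))
          (fun t => (1 + X) ^ t)]
        refine NN.congr (((nnT c).mul (pat_SAP r)).add ((nnQ c).mul (pat_pow r))) ?_
        ring
      · refine NN.congr (((nnP c).mul (pat_SAP r)).add (NN.X.mul ((nnQ c).mul (nnSAP r)))) ?_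
        ring

lemma powR : ∀ k : ℕ, NN ((1 + X : ℤ[X]) ^ (k + 1) - 1 - ((k : ℤ[X]) + 1) * X - (k : ℤ[X]) * X ^ 2)
  | 0 => by
      refine NN.congr NN.zero ?_
      push_cast; ring
  | k + 1 => by
      refine NN.congr (((NN.one.add NN.X).mul (powR k)).add
        ((NN.natCast k).mul ((NN.X.mul NN.X).add (NN.X.mul (NN.X.mul NN.X))))) ?_
      push_cast; ring

/-- `2 - X` is a multiplier -/
lemma mul2 {p : ℤ[X]} (h : NN p) : PSN ((2 - X) * p) := by
  refine PSN.congr ((PSN.oneSub h).add (PSN.ofNN h)) ?_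
  ring

lemma mul3 {p : ℤ[X]} (h : NN p) : PSN ((2 + X - X ^ 2) * p) := by
  refine PSN.congr ((PSN.oneSub (((NN.num 2).add ((NN.num 3).mul NN.X)).mul h)).add
    (PSN.ofNN ((NN.num 2).mul ((NN.X.mul NN.X).mul h)))) ?_
  ring

lemma phiE (t : ℕ) : PSN ((2 - X) * ((t : ℤ[X]) * (1 + X) ^ (t - 1) - (t : ℤ[X])) -
    6 * X * (t : ℤ[X]) + (4 + 6 * X)) := by
  match t with
  | 0 =>
    refine PSN.congr (PSN.ofNN ((NN.num 4).add ((NN.num 6).mul NN.X))) ?_
    push_cast; ring
  | 1 =>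
    refine PSN.congr (PSN.ofNN (NN.num 4)) ?_
    push_cast; ring
  | k + 2 =>
    have h2 : (0 : ℤ) ≤ 2 * (k : ℤ) ^ 2 - k := by
      have hk : (0 : ℤ) ≤ k := Int.natCast_nonneg k
      rcases Nat.eq_zero_or_pos k with h | h
      · simp [h]
      · have : (1 : ℤ) ≤ k := by exact_mod_cast h
        nlinarith
    have hk := NN.natCast k
    refine PSN.congr (((mul2 ((hk.add (NN.num 2)).mul (powR k))).add
      (PSN.oneSub (((NN.num 4).add (((((NN.num 2).mul (hk.mul hk)).add (NN.num 2))).mul NN.X)).add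
        ((((NN.num 3).mul (hk.mul hk)).add hk).mul (NN.X.mul NN.X))))).add
      (PSN.ofNN ((NN.C' h2).mul (NN.X.mul (NN.X.mul NN.X))))) ?_
    rw [show k + 2 - 1 = k + 1 by omega]
    push_cast
    ring

lemma phiF (t : ℕ) : PSN ((2 + X - X ^ 2) * ((t : ℤ[X]) * (1 + X) ^ (t - 1) - (t : ℤ[X])) -
    (4 * X + X ^ 2) * (t : ℤ[X]) + 6 * X) := by
  match t with
  | 0 =>
    refine PSN.congr (PSN.ofNN ((NN.num 6).mul NN.X)) ?_
    push_cast; ring
  | 1 =>
    refine PSN.congr ((PSN.oneSub NN.X).add (PSN.ofNN NN.X)) ?_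
    push_cast; ring
  | k + 2 =>
    have hk := NN.natCast k
    have a1 : NN ((2 * ((k : ℤ[X]) * (k : ℤ[X])) + 2 * (k : ℤ[X]) + 2) * X) :=
      ((((NN.num 2).mul (hk.mul hk)).add ((NN.num 2).mul hk)).add (NN.num 2)).mul NN.X
    have a2 : NN ((5 * ((k : ℤ[X]) * (k : ℤ[X])) + 8 * (k : ℤ[X]) + 2) * (X * X)) :=
      ((((NN.num 5).mul (hk.mul hk)).add ((NN.num 8).mul hk)).add (NN.num 2)).mul
        (NN.X.mul NN.X)
    have a3 : NN ((5 * ((k : ℤ[X]) * (k : ℤ[X])) + 7 * (k : ℤ[X])) * (X * (X * X))) :=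
      (((NN.num 5).mul (hk.mul hk)).add ((NN.num 7).mul hk)).mul (NN.X.mul (NN.X.mul NN.X))
    have a4 : NN ((4 * ((k : ℤ[X]) * (k : ℤ[X])) + 5 * (k : ℤ[X])) * (X * (X * (X * X)))) :=
      (((NN.num 4).mul (hk.mul hk)).add ((NN.num 5).mul hk)).mul
        (NN.X.mul (NN.X.mul (NN.X.mul NN.X)))
    refine PSN.congr (((mul3 ((hk.add (NN.num 2)).mul (powR k))).add
      (PSN.oneSub ((a1.add a2).add a3))).add (PSN.ofNN a4)) ?_
    rw [show k + 2 - 1 = k + 1 by omega]
    push_cast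
    ring

end Pool.Agent.Lib.MP_24a1b5_co.Init
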