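import Pool.Agent.Lib.MP_24a1b5_co.Init.Psum

/-!
# The inductive proof that `(9 + 6 X) I' - 7 α I` has nonnegative partial sums
-/

set_option autoImplicit false
open Polynomial
open scoped Classical

namespace Pool.Agent.Lib.MP_24a1b5_co.Init

open Pool.Agent.Lib.MP_24a1b5_co (F)

variable {V : Type*}

lemma f10 : ∀ f : F V, NN (X * (SP f + SQ f) - 2 * (P f - Q f))
  | F.nil => by simpa [P_nil, Q_nil, SP, SQ] using NN.zero
  | F.cons _ c r => by
      refine NN.congr (((nnP c).mul (f10 r)).add (NN.X.mul ((nnQ c).mul (f2 r)))) ?_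
      rw [P_cons, Q_cons, SP, SQ]; ring

lemma f11 : ∀ f : F V, NN ((SP f - SAP f) - (SQ f - SA f))
  | F.nil => by simpa [SP, SQ, SAP, SA] using NN.zero
  | F.cons _ c r => by
      rw [SP, SQ, SAP, SA]
      split_ifs
      · refine NN.congr (((nnP c).mul (f11 r)).add (NN.X.mul ((nnQ c).mul (f8 r)))) ?_
        ring
      · refine NN.congr ((((nnP c).mul (f11 r)).add (NN.X.mul ((nnQ c).mul (f8 r)))).add
          ((nnQ c).mul (f1 r))) ?_
        ring

lemma f12 : ∀ f : F V, NN (SQ f - SA f)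
  | F.nil => by simpa [SQ, SA] using NN.zero
  | F.cons _ c r => by
      rw [SQ, SA]
      split_ifs
      · refine NN.congr ((nnP c).mul (f12 r)) ?_
        ring
      · refine NN.congr (((nnP c).mul (f12 r)).add ((nnQ c).mul (nnQ r))) ?_
        ring

lemma nnSQ (f : F V) : NN (SQ f) := by
  refine NN.congr ((f12 f).add (nnSA f)) ?_
  ring

lemma patE (f : F V) :
    PSN ((2 - X) * (SAP f - SA f) - 6 * X * SA f + (4 + 6 * X) * Q f) := by
  have h := pat_psn f _ phiE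
  have e : (fun t : ℕ => ((2 - X) * ((t : ℤ[X]) * (1 + X) ^ (t - 1) - (t : ℤ[X])) -
      6 * X * (t : ℤ[X]) + (4 + 6 * X))) =
      fun t : ℕ => (2 - X) * ((t : ℤ[X]) * (1 + X) ^ (t - 1)) +
        1 * ((-2 - 5 * X) * (t : ℤ[X]) + (4 + 6 * X) * 1) := by
    funext t; ring
  rw [e, pat_lin f (2 - X) 1 (fun t => (t : ℤ[X]) * (1 + X) ^ (t - 1))
    (fun t => (-2 - 5 * X) * (t : ℤ[X]) + (4 + 6 * X) * 1),
    pat_lin f (-2 - 5 * X) (4 + 6 * X) (fun t => (t : ℤ[X])) (fun _ => 1), pat_t, pat_one] at h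
  refine PSN.congr (h.add (mul2 (pat_SAP f))) ?_
  ring

lemma patF (f : F V) :
    PSN ((2 + X - X ^ 2) * (SAP f - SA f) - (4 * X + X ^ 2) * SA f + 6 * X * Q f) := by
  have h := pat_psn f _ phiF
  have e : (fun t : ℕ => ((2 + X - X ^ 2) * ((t : ℤ[X]) * (1 + X) ^ (t - 1) - (t : ℤ[X])) -
      (4 * X + X ^ 2) * (t : ℤ[X]) + 6 * X)) =
      fun t : ℕ => (2 + X - X ^ 2) * ((t : ℤ[X]) * (1 + X) ^ (t - 1)) +
        1 * ((-2 - 5 * X) * (t : ℤ[X]) + (6 * X) * 1) := by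
    funext t; ring
  rw [e, pat_lin f (2 + X - X ^ 2) 1 (fun t => (t : ℤ[X]) * (1 + X) ^ (t - 1))
    (fun t => (-2 - 5 * X) * (t : ℤ[X]) + (6 * X) * 1),
    pat_lin f (-2 - 5 * X) (6 * X) (fun t => (t : ℤ[X])) (fun _ => 1), pat_t, pat_one] at h
  refine PSN.congr (h.add (mul3 (pat_SAP f))) ?_
  ring

/-- sum over the trees of the defect of the tree times `Q` of the others -/
noncomputable def EM (c₀ d₀ a b : ℤ) : F V → ℤ[X]
  | F.nil => 0
  | F.cons _ c r => ET c₀ d₀ a b c * Q r + P c * EM c₀ d₀ a b r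

/-- the inductive statement -/
def Inv3 (f : F V) : Prop :=
  PSN (EP 9 6 7 0 f - EM 9 6 7 0 f -
    ((2 - X) * (SAP f - SA f) + 5 * ((SP f - SAP f) - (SQ f - SA f)))) ∧
  PSN (EM 9 6 7 0 f + X * EQ 9 6 7 0 f -
    (7 * X * (nA f : ℤ[X]) * Q f - 6 * X * SA f + 9 * (SQ f - SA f))) ∧
  PSN (EM 9 6 7 0 f - ((2 - X) * SA f + 5 * (SQ f - SA f)))

lemma treeA (c : F V) (hc : nA c = 0) (h : Inv3 c) :
    PSN (ET 9 6 7 0 c - (2 - X) * Q c) ∧
    PSN (ET 9 6 7 0 c + X * EP 9 6 7 0 c - (7 * X * P c - 6 * X * Q c)) := by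
  obtain ⟨i1, i2, i3⟩ := h
  rw [SAP_zero c hc, SA_zero c hc] at i1
  rw [SA_zero c hc, hc] at i2
  rw [SA_zero c hc] at i3
  constructor
  · refine PSN.half ?_
    refine PSN.congr ((((PSN.mul' (NN.num 2) (i1.add i2)).add
      (PSN.ofNN ((NN.num 7).mul (f10 c)))).add
      (PSN.oneSub ((NN.num 7).mul ((nnSP c).add (nnSQ c))))).add
      (PSN.ofNN (((NN.num 3).mul (nnSP c)).add (nnSQ c)))) ?_
    rw [ET, if_pos hc, hc]; push_cast; ring
  · refine PSN.half ?_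
    have j1 : PSN (2 * ((1 + X) * (EP 9 6 7 0 c - EM 9 6 7 0 c -
        ((2 - X) * ((0 : ℤ[X]) - 0) + 5 * ((SP c - 0) - (SQ c - 0)))))) :=
      PSN.mul' (NN.num 2) (PSN.mul' (NN.one.add NN.X) i1)
    have j3 := PSN.mul' (NN.num 2) (PSN.mul' NN.X i3)
    have j2 := PSN.mul' (NN.num 2) i2
    have k1 : PSN (7 * (1 + X) * (X * (SP c + SQ c) - 2 * (P c - Q c))) :=
      PSN.ofNN (((NN.num 7).mul (NN.one.add NN.X)).mul (f10 c))
    have k2 : PSN ((1 - X) * ((18 + 14 * X) * SQ c)) :=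
      PSN.oneSub (((NN.num 18).add ((NN.num 14).mul NN.X)).mul (nnSQ c))
    have k3 : PSN ((1 - X) * ((10 + 13 * X) * (SP c - SQ c))) :=
      PSN.oneSub (((NN.num 10).add ((NN.num 13).mul NN.X)).mul (f6 c))
    have k4 : PSN (6 * (X * X) * (SP c - SQ c)) :=
      PSN.ofNN (((NN.num 6).mul (NN.X.mul NN.X)).mul (f6 c))
    have k5 : PSN ((1 - X) * (4 * Q c)) := PSN.oneSub ((NN.num 4).mul (nnQ c))
    refine PSN.congr (((((((j1.add j2).add j3).add k1).add k2).add k3).add k4).add k5) ?_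
    rw [ET, if_pos hc, hc]; push_cast; ring

lemma treeB (c : F V) (hc : nA c ≠ 0) (h : Inv3 c) :
    PSN (ET 9 6 7 0 c - 5 * Q c) ∧
    PSN (ET 9 6 7 0 c + X * EP 9 6 7 0 c - 9 * Q c) := by
  obtain ⟨i1, i2, i3⟩ := h
  constructor
  · refine PSN.congr ((((i1.add i2).add (patE c)).add
      (PSN.ofNN ((NN.num 5).mul (f11 c)))).add (PSN.ofNN ((NN.num 9).mul (f12 c)))) ?_
    rw [ET, if_neg hc]; push_cast; ring
  · have j1 := PSN.mul' (NN.one.add NN.X) i1
    have j3 := PSN.mul' NN.X i3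
    have k1 : PSN (5 * (1 + X) * ((SP c - SAP c) - (SQ c - SA c))) :=
      PSN.ofNN (((NN.num 5).mul (NN.one.add NN.X)).mul (f11 c))
    have k2 : PSN ((9 + 5 * X) * (SQ c - SA c)) :=
      PSN.ofNN (((NN.num 9).add ((NN.num 5).mul NN.X)).mul (f12 c))
    refine PSN.congr (((((j1.add i2).add j3).add (patF c)).add k1).add k2) ?_
    rw [ET, if_neg hc]; push_cast; ring

lemma inv3 : ∀ f : F V, Inv3 f
  | F.nil => by
      refine ⟨?_, ?_, ?_⟩
      · refine PSN.congr PSN.zero ?_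
        simp [EP, EM, SAP, SP, SQ, SA, P_nil, al, F.sz]
      · refine PSN.congr PSN.zero ?_
        simp [EQ, EM, SA, SQ, Q_nil, alQ, szQ, nA]
      · refine PSN.congr PSN.zero ?_
        simp [EM, SA, SQ]
  | F.cons v c r => by
      have ic := inv3 c
      have ir := inv3 r
      obtain ⟨r1, r2, r3⟩ := ir
      by_cases h : nA c = 0
      · obtain ⟨t1, t2⟩ := treeA c h ic
        refine ⟨?_, ?_, ?_⟩
        · refine PSN.congr (((t1.mul (f1 r)).add (PSN.mul' (nnP c) r1)).add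
            (PSN.mul' (NN.X.mul (nnQ c)) (r1.add r3))) ?_
          rw [EP_cons, EM, SAP, SA, SP, SQ, if_pos h, if_pos h]; ring
        · refine PSN.congr ((t2.mul (nnQ r)).add (PSN.mul' (nnP c) r2)) ?_
          rw [EQ_cons, EM, SA, SQ, nA, Q_cons, if_pos h, if_pos h]; push_cast; ring
        · refine PSN.congr ((t1.mul (nnQ r)).add (PSN.mul' (nnP c) r3)) ?_
          rw [EM, SA, SQ, if_pos h]; ring
      · obtain ⟨t1, t2⟩ := treeB c h ic
        refine ⟨?_, ?_, ?_⟩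
        · refine PSN.congr (((t1.mul (f1 r)).add (PSN.mul' (nnP c) r1)).add
            (PSN.mul' (NN.X.mul (nnQ c)) (r1.add r3))) ?_
          rw [EP_cons, EM, SAP, SA, SP, SQ, if_neg h, if_neg h]; ring
        · refine PSN.congr ((t2.mul (nnQ r)).add (PSN.mul' (nnP c) r2)) ?_
          rw [EQ_cons, EM, SA, SQ, nA, Q_cons, if_neg h, if_neg h]; push_cast; ring
        · refine PSN.congr ((t1.mul (nnQ r)).add (PSN.mul' (nnP c) r3)) ?_
          rw [EM, SA, SQ, if_neg h]; ring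

/-- `(9 + 6 X) P' - 7 α P` has nonnegative partial sums -/
theorem ineqPS (f : F V) : PSN (EP 9 6 7 0 f) := by
  obtain ⟨i1, -, i3⟩ := inv3 f
  refine PSN.congr (((i1.add i3).add (mul2 (nnSAP f))).add
    (PSN.ofNN ((NN.num 5).mul (f8 f)))) ?_
  ring

end Pool.Agent.Lib.MP_24a1b5_co.Init
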