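import Pool.Agent.Lib.MP_24a1b5_co.Init.Var
import Pool.Agent.Lib.MP_24a1b5_co.Init.Bott

/-!
# The mean size of a random independent set of a forest as a function of the fugacity
-/

set_option autoImplicit false
open N36365310 Polynomial
open scoped Classical

namespace Pool.Agent.Lib.MP_24a1b5_co.Gap

variable {U : Type*}

section
variable [Fintype U] (G : SimpleGraph U)

/-- mean at fugacity `t` -/
noncomputable def mn (t : ℝ) : ℝ := Wc.m G t Finset.univ

/-- variance at fugacity `t` -/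
noncomputable def va (t : ℝ) : ℝ := Wc.vr G t Finset.univ

/-- partition function -/
noncomputable def zz (t : ℝ) : ℝ := Wc.z G t Finset.univ

lemma zz_pos {t : ℝ} (ht : 0 < t) : 0 < zz G t := Wc.z_pos G ht _

lemma hn0 : ∀ j, Fintype.card U < j → cnt G Finset.univ j = 0 := fun j hj =>
  cnt_eq_zero (by rw [Finset.card_univ]; exact hj)

lemma zz_eq (t : ℝ) : zz G t = ∑ j ∈ Finset.range (Fintype.card U + 1), wt G t j := by
  rw [zz, Wc.z, Wc.PR_eq G Finset.univ (hn0 G), eval_finsetSum]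
  apply Finset.sum_congr rfl
  intro j _
  rw [wt, In.indepSeq_eq_cnt]
  simp

lemma D1_eq (t : ℝ) : (Wc.D (Wc.PR G Finset.univ)).eval t =
    ∑ j ∈ Finset.range (Fintype.card U + 1), (j : ℝ) * wt G t j := by
  rw [Wc.PR_eq G Finset.univ (hn0 G), Wc.D_sum, eval_finsetSum]
  apply Finset.sum_congr rfl
  intro j _
  rw [Wc.D_mon, wt, In.indepSeq_eq_cnt]
  simp only [eval_mul, eval_C, eval_pow, eval_X]
  ring

lemma D2_eq (t : ℝ) : (Wc.D (Wc.D (Wc.PR G Finset.univ))).eval t =
    ∑ j ∈ Finset.range (Fintype.card U + 1), (j : ℝ) ^ 2 * wt G t j := by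
  rw [Wc.PR_eq G Finset.univ (hn0 G), Wc.D_sum, Wc.D_sum, eval_finsetSum]
  apply Finset.sum_congr rfl
  intro j _
  rw [Wc.D_mon, Wc.D_mon, wt, In.indepSeq_eq_cnt]
  simp only [eval_mul, eval_C, eval_pow, eval_X]
  ring

lemma mn_eq (t : ℝ) : mn G t = (∑ j ∈ Finset.range (Fintype.card U + 1), (j : ℝ) * wt G t j) /
    ∑ j ∈ Finset.range (Fintype.card U + 1), wt G t j := by
  rw [mn, Wc.m, D1_eq, ← zz_eq]
  rfl

/-- second moment about any point -/
lemma second_moment {t : ℝ} (ht : 0 < t) (c : ℝ) :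
    ∑ j ∈ Finset.range (Fintype.card U + 1), ((j : ℝ) - c) ^ 2 * wt G t j =
      zz G t * (va G t + (mn G t - c) ^ 2) := by
  have hz := zz_pos G ht
  have e : ∑ j ∈ Finset.range (Fintype.card U + 1), ((j : ℝ) - c) ^ 2 * wt G t j =
      (∑ j ∈ Finset.range (Fintype.card U + 1), (j : ℝ) ^ 2 * wt G t j) -
      2 * c * (∑ j ∈ Finset.range (Fintype.card U + 1), (j : ℝ) * wt G t j) +
      c ^ 2 * ∑ j ∈ Finset.range (Fintype.card U + 1), wt G t j := by
    rw [Finset.mul_sum, Finset.mul_sum, ← Finset.sum_sub_distrib, ← Finset.sum_add_distrib]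
    apply Finset.sum_congr rfl
    intro j _
    ring
  rw [e, ← D1_eq, ← D2_eq, ← zz_eq, va, Wc.vr, mn, Wc.m]
  change _ = zz G t * (_ / zz G t - (_ / zz G t) ^ 2 + (_ / zz G t - c) ^ 2)
  field_simp
  ring

/-- extension bound -/
lemma ext_bound (k : ℕ) : ((k : ℝ) + 1) * (indepSeq G (k + 1) : ℝ) + k * (indepSeq G k : ℝ) ≤
    (Fintype.card U : ℝ) * (indepSeq G k : ℝ) := by
  have h := succ_mul_cnt' G Finset.univ k
  have h2 : ∀ I ∈ Ik G Finset.univ k, (free G Finset.univ I).card + k ≤ Fintype.card U := by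
    intro I hI
    rw [mem_Ik] at hI
    have hd : Disjoint (free G Finset.univ I) I := by
      rw [Finset.disjoint_left]
      intro v hv hvI
      rw [free, Finset.mem_filter] at hv
      have := hv.2 hvI
      rw [mem_del] at this
      exact this.2.1 rfl
    rw [← hI.2.2, ← Finset.card_union_of_disjoint hd]
    exact Finset.card_le_univ _
  have h3 : ∑ I ∈ Ik G Finset.univ k, ((free G Finset.univ I).card + k) ≤
      ∑ I ∈ Ik G Finset.univ k, Fintype.card U := Finset.sum_le_sum h2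
  rw [Finset.sum_add_distrib, ← h, Finset.sum_const, Finset.sum_const, smul_eq_mul, smul_eq_mul,
    ← cnt_eq, ← In.indepSeq_eq_cnt, ← In.indepSeq_eq_cnt] at h3
  have h4 : (((k + 1) * indepSeq G (k + 1) + indepSeq G k * k : ℕ) : ℝ) ≤
      ((indepSeq G k * Fintype.card U : ℕ) : ℝ) := by exact_mod_cast h3
  push_cast at h4
  linarith

lemma shift_sum (t : ℝ) : ∑ j ∈ Finset.range (Fintype.card U + 1), (j : ℝ) * wt G t j =
    t * ∑ j ∈ Finset.range (Fintype.card U + 1), ((j : ℝ) + 1) * (indepSeq G (j + 1) : ℝ) * t ^ j := by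
  have h1 := Finset.sum_range_succ' (fun j : ℕ => (j : ℝ) * wt G t j) (Fintype.card U + 1)
  have h2 := Finset.sum_range_succ (fun j : ℕ => (j : ℝ) * wt G t j) (Fintype.card U + 1)
  have h3 : wt G t (Fintype.card U + 1) = 0 := by
    rw [wt, indepSeq_zero_of_lt G (Nat.lt_succ_self _)]
    simp
  rw [h3, mul_zero, add_zero] at h2
  rw [← h2, h1, Finset.mul_sum]
  simp only [Nat.cast_zero, zero_mul, add_zero]
  apply Finset.sum_congr rfl
  intro j _
  rw [wt, pow_succ]
  push_cast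
  ring

lemma mn_le {t : ℝ} (ht : 0 < t) : mn G t ≤ (Fintype.card U : ℝ) * t / (1 + t) := by
  have hz := zz_pos G ht
  rw [mn_eq, ← zz_eq, div_le_div_iff₀ hz (by linarith)]
  have h1 := shift_sum G t
  have h2 : ∑ j ∈ Finset.range (Fintype.card U + 1),
      (((j : ℝ) + 1) * (indepSeq G (j + 1) : ℝ) + j * (indepSeq G j : ℝ)) * t ^ j ≤
      ∑ j ∈ Finset.range (Fintype.card U + 1),
        ((Fintype.card U : ℝ) * (indepSeq G j : ℝ)) * t ^ j := by
    apply Finset.sum_le_sum
    intro j _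
    exact mul_le_mul_of_nonneg_right (ext_bound G j) (by positivity)
  have e1 : ∑ j ∈ Finset.range (Fintype.card U + 1),
      (((j : ℝ) + 1) * (indepSeq G (j + 1) : ℝ) + j * (indepSeq G j : ℝ)) * t ^ j =
      (∑ j ∈ Finset.range (Fintype.card U + 1),
        ((j : ℝ) + 1) * (indepSeq G (j + 1) : ℝ) * t ^ j) +
      ∑ j ∈ Finset.range (Fintype.card U + 1), (j : ℝ) * wt G t j := by
    rw [← Finset.sum_add_distrib]
    apply Finset.sum_congr rfl
    intro j _
    rw [wt]
    ring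
  have e2 : ∑ j ∈ Finset.range (Fintype.card U + 1),
        ((Fintype.card U : ℝ) * (indepSeq G j : ℝ)) * t ^ j = (Fintype.card U : ℝ) * zz G t := by
    rw [zz_eq, Finset.mul_sum]
    apply Finset.sum_congr rfl
    intro j _
    rw [wt]
    ring
  rw [e1, e2] at h2
  have h3 := mul_le_mul_of_nonneg_left h2 ht.le
  rw [mul_add, ← h1] at h3
  nlinarith

lemma mn_ge (hG : G.IsAcyclic) : (Fintype.card U : ℝ) / 4 ≤ mn G 1 := by
  have hz := zz_pos G (t := 1) one_pos
  rw [mn_eq, ← zz_eq, div_le_div_iff₀ (by norm_num) hz]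
  have h1 := shift_sum G 1
  rw [one_mul] at h1
  have h2 : ∑ j ∈ Finset.range (Fintype.card U + 1),
      ((Fintype.card U : ℝ) - 3 * j) * (indepSeq G j : ℝ) ≤
      ∑ j ∈ Finset.range (Fintype.card U + 1),
        ((j : ℝ) + 1) * (indepSeq G (j + 1) : ℝ) * 1 ^ j := by
    apply Finset.sum_le_sum
    intro j _
    rw [one_pow, mul_one]
    exact_mod_cast (In.main' G hG j).2.1
  rw [← h1] at h2
  have e1 : ∑ j ∈ Finset.range (Fintype.card U + 1),
      ((Fintype.card U : ℝ) - 3 * j) * (indepSeq G j : ℝ) =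
      (Fintype.card U : ℝ) * zz G 1 -
        3 * ∑ j ∈ Finset.range (Fintype.card U + 1), (j : ℝ) * wt G 1 j := by
    rw [zz_eq, Finset.mul_sum, Finset.mul_sum, ← Finset.sum_sub_distrib]
    apply Finset.sum_congr rfl
    intro j _
    rw [wt]
    ring
  rw [e1] at h2
  linarith

lemma hasDeriv {t : ℝ} (ht : 0 < t) : HasDerivAt (mn G) (va G t / t) t := by
  have hz := zz_pos G ht
  have h1 := (Wc.D (Wc.PR G Finset.univ)).hasDerivAt t
  have h2 := (Wc.PR G Finset.univ).hasDerivAt t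
  have h3 := h1.div h2 (ne_of_gt hz)
  refine h3.congr_deriv ?_
  rw [va, Wc.vr, Wc.m]
  have e1 : (Wc.D (Wc.D (Wc.PR G Finset.univ))).eval t =
      t * (derivative (Wc.D (Wc.PR G Finset.univ))).eval t := by
    rw [Wc.D, eval_mul, eval_X]
  have e2 : (Wc.D (Wc.PR G Finset.univ)).eval t =
      t * (derivative (Wc.PR G Finset.univ)).eval t := by
    rw [Wc.D, eval_mul, eval_X]
  rw [e1, e2]
  change _ = (_ / zz G t - (_ / zz G t) ^ 2) / t
  change (_ * zz G t - _) / (zz G t) ^ 2 = _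
  field_simp

lemma mn_shift (hG : G.IsAcyclic) {s t : ℝ} (hs : 0 < s) (hst : s ≤ t) (ht : t ≤ 6 / 5) :
    mn G t - mn G s ≤ (Fintype.card U : ℝ) / (1 + s) * (t - s) := by
  have hpos : ∀ x ∈ Set.Icc s t, 0 < x := fun x hx => lt_of_lt_of_le hs hx.1
  refine Convex.image_sub_le_mul_sub_of_deriv_le (convex_Icc s t) ?_ ?_ ?_ s
    (Set.left_mem_Icc.2 hst) t (Set.right_mem_Icc.2 hst) hst
  · intro x hx
    exact (hasDeriv G (hpos x hx)).continuousAt.continuousWithinAt
  · intro x hx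
    exact (hasDeriv G (hpos x (interior_subset hx))).differentiableAt.differentiableWithinAt
  · intro x hx
    have hx' := interior_subset hx
    have hx0 := hpos x hx'
    rw [(hasDeriv G hx0).deriv]
    have h1 : va G x ≤ mn G x := var_le_mean2 hG hx0 (hx'.2.trans ht) _
    have h2 := mn_le G hx0
    rw [div_le_iff₀ hx0]
    refine (h1.trans h2).trans ?_
    have h3 : (Fintype.card U : ℝ) / (1 + s) * x = (Fintype.card U : ℝ) * x / (1 + s) := by ring
    rw [h3]
    exact div_le_div_of_nonneg_left (by positivity) (by linarith) (by linarith [hx'.1])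

end

end Pool.Agent.Lib.MP_24a1b5_co.Gap
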