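import Pool.Agent.Lib.MP_24a1b5_co.Init.Final

/-!
# Tail sums

For a forest with `n` vertices and independence number `α` the tail sums of the coefficients of
`(2 α + n) I - 3 (1 + X) I'` are nonnegative.
-/

set_option autoImplicit false
open Polynomial
open scoped Classical
open N36365310

namespace Pool.Agent.Lib.MP_24a1b5_co.Init

open Pool.Agent.Lib.MP_24a1b5_co (F Ind cnt Degen degen_of_acyclic)

/-- a sum of a polynomial with nonnegative coefficients and of `X - 1` times such a polynomial -/
def TSN (p : ℤ[X]) : Prop := ∃ q r : ℤ[X], NN q ∧ NN r ∧ p = (X - 1) * q + r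

namespace TSN

lemma ofNN {p : ℤ[X]} (hp : NN p) : TSN p := ⟨0, p, NN.zero, hp, by ring⟩

lemma zero : TSN 0 := ofNN NN.zero

lemma subOne {p : ℤ[X]} (hp : NN p) : TSN ((X - 1) * p) := ⟨p, 0, hp, NN.zero, by ring⟩

lemma add {p q : ℤ[X]} (hp : TSN p) (hq : TSN q) : TSN (p + q) := by
  obtain ⟨a, b, ha, hb, rfl⟩ := hp
  obtain ⟨c, d, hc, hd, rfl⟩ := hq
  exact ⟨a + c, b + d, ha.add hc, hb.add hd, by ring⟩

lemma mul {p q : ℤ[X]} (hp : TSN p) (hq : NN q) : TSN (p * q) := by
  obtain ⟨a, b, ha, hb, rfl⟩ := hp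
  exact ⟨a * q, b * q, ha.mul hq, hb.mul hq, by ring⟩

lemma congr {p q : ℤ[X]} (h : TSN p) (e : q = p) : TSN q := e ▸ h

lemma sum {p : ℤ[X]} (h : TSN p) : ∃ N₀ : ℕ, ∀ k N : ℕ, N₀ ≤ N → k + 1 ≤ N →
    0 ≤ ∑ j ∈ Finset.Ico (k + 1) N, p.coeff j := by
  obtain ⟨q, r, hq, hr, rfl⟩ := h
  refine ⟨q.natDegree + 2, fun k N hN hk => ?_⟩
  have e : ∀ j ∈ Finset.Ico (k + 1) N, ((X - 1) * q + r).coeff j =
      (q.coeff (j - 1) - q.coeff j) + r.coeff j := by
    intro j hj
    rw [Finset.mem_Ico] at hj
    obtain ⟨i, rfl⟩ : ∃ i, j = i + 1 := ⟨j - 1, by omega⟩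
    rw [coeff_add, sub_mul, coeff_sub, coeff_X_mul, one_mul, Nat.add_sub_cancel]
  rw [Finset.sum_congr rfl e, Finset.sum_add_distrib]
  have e2 : ∀ M : ℕ, k + 1 ≤ M → ∑ j ∈ Finset.Ico (k + 1) M, (q.coeff (j - 1) - q.coeff j) =
      q.coeff k - q.coeff (M - 1) := by
    intro M hM
    induction M, hM using Nat.le_induction with
    | base => simp
    | succ M hM ih =>
      rw [Finset.sum_Ico_succ_top hM, ih, Nat.add_sub_cancel]
      ring
  rw [e2 N hk, coeff_eq_zero_of_natDegree_lt (p := q) (n := N - 1) (by omega), sub_zero]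
  exact add_nonneg (hq k) (Finset.sum_nonneg fun j _ => hr j)

end TSN

variable {V : Type*}

/-- `(2 al + sz) P - 3 (1 + X) P'` -/
noncomputable def DP (f : F V) : ℤ[X] := -EP 3 3 2 1 f

/-- the same for the forest without its roots -/
noncomputable def DQ (f : F V) : ℤ[X] := -EQ 3 3 2 1 f

/-- the auxiliary statement -/
def Key (f : F V) : Prop :=
  nA f ≠ 0 → ∃ R S : ℤ[X], P f = R + X * S ∧ NN S ∧ NN (R - S) ∧ NN (R - Q f) ∧
    TSN (DP f - 3 * (R - S))

lemma treeTA (c : F V) (hc : nA c = 0) (h1 : TSN (DP c)) (h2 : TSN (DQ c)) :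
    TSN (-ET 3 3 2 1 c - 3 * (P c - Q c)) := by
  have h3 : TSN (X * DQ c) := by
    refine (h2.mul NN.X).congr ?_
    ring
  refine TSN.congr ((h1.add h3).add
    (TSN.ofNN (NN.X.mul ((NN.natCast (m c)).mul (nnQ c))))) ?_
  rw [ET, if_pos hc, hc, DP, DQ]; push_cast; ring

lemma treeTB (c : F V) (hc : nA c ≠ 0) (h1 : Key c) (h2 : TSN (DQ c)) :
    TSN (-ET 3 3 2 1 c) := by
  obtain ⟨R, S, e, hS, hRS, hRQ, hT⟩ := h1 hc
  have h3 : TSN (X * DQ c) := by
    refine (h2.mul NN.X).congr ?_
    ring
  have hm := nA_le_m c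
  have h4 : NN (X * (((2 * (nA c - 1) + (m c - 1) : ℕ) : ℤ[X]) * Q c)) :=
    NN.X.mul ((NN.natCast _).mul (nnQ c))
  have e1 : ((2 * (nA c - 1) + (m c - 1) : ℕ) : ℤ[X]) =
      2 * (nA c : ℤ[X]) + (m c : ℤ[X]) - 3 := by
    have : (2 * (nA c - 1) + (m c - 1)) + 3 = 2 * nA c + m c := by omega
    have h := congrArg (Nat.cast : ℕ → ℤ[X]) this
    push_cast at h ⊢
    linear_combination h
  rw [e1] at h4
  refine TSN.congr ((((hT.add h3).add (TSN.ofNN ((NN.num 2).mul hRS))).add
    (TSN.ofNN ((NN.num 2).mul hRQ))).add ((TSN.subOne (hS.add (nnQ c))).add (TSN.ofNN h4))) ?_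
  rw [ET, if_neg hc, DP, DQ, e]; push_cast; ring

lemma tail_all : ∀ f : F V, TSN (DP f) ∧ TSN (DQ f) ∧ Key f
  | F.nil => by
      refine ⟨?_, ?_, ?_⟩
      · refine TSN.congr TSN.zero ?_
        simp [DP, EP, P_nil, al, F.sz]
      · refine TSN.congr TSN.zero ?_
        simp [DQ, EQ, Q_nil, alQ, szQ]
      · intro h
        exact absurd rfl h
  | F.cons v c r => by
      obtain ⟨c1, c2, c3⟩ := tail_all c
      obtain ⟨r1, r2, r3⟩ := tail_all r
      have e1 : DP (F.cons v c r) = (-ET 3 3 2 1 c) * P r + (P c + X * Q c) * DP r := by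
        rw [DP, EP_cons, DP]; ring
      have e2 : DQ (F.cons v c r) = DP c * Q r + P c * DQ r := by
        rw [DQ, EQ_cons, DP, DQ]; ring
      have hQ : TSN (DQ (F.cons v c r)) := by
        rw [e2]
        refine TSN.congr ((c1.mul (nnQ r)).add (r2.mul (nnP c))) ?_
        ring
      by_cases h : nA c = 0
      · have t := treeTA c h c1 c2
        have t' : TSN (-ET 3 3 2 1 c) := by
          refine TSN.congr (t.add (TSN.ofNN ((NN.num 3).mul (f1 c)))) ?_
          ring
        refine ⟨?_, hQ, ?_⟩
        · rw [e1]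
          refine TSN.congr ((t'.mul (nnP r)).add (r1.mul (nnT c))) ?_
          ring
        · intro _
          refine ⟨P c * P r, Q c * P r, ?_, (nnQ c).mul (nnP r), ?_, ?_, ?_⟩
          · rw [P_cons]; ring
          · exact NN.congr ((f1 c).mul (nnP r)) (by ring)
          · rw [Q_cons]
            exact NN.congr ((nnP c).mul (f1 r)) (by ring)
          · rw [e1]
            refine TSN.congr ((t.mul (nnP r)).add (r1.mul (nnT c))) ?_
            ring
      · have t := treeTB c h c3 c2
        refine ⟨?_, hQ, ?_⟩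
        · rw [e1]
          refine TSN.congr ((t.mul (nnP r)).add (r1.mul (nnT c))) ?_
          ring
        · intro hn
          have hr : nA r ≠ 0 := by
            rw [nA, if_neg h, zero_add] at hn
            exact hn
          obtain ⟨R, S, e, hS, hRS, hRQ, hT⟩ := r3 hr
          refine ⟨(P c + X * Q c) * R, (P c + X * Q c) * S, ?_, (nnT c).mul hS, ?_, ?_, ?_⟩
          · rw [P_cons, e]; ring
          · exact NN.congr ((nnT c).mul hRS) (by ring)
          · rw [Q_cons]
            have hR : NN R := NN.congr (hRS.add hS) (by ring)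
            exact NN.congr (((nnP c).mul hRQ).add (NN.X.mul ((nnQ c).mul hR))) (by ring)
          · rw [e1]
            refine TSN.congr ((t.mul (nnP r)).add (hT.mul (nnT c))) ?_
            ring

/-- `(2 α + n) P - 3 (1 + X) P'` has nonnegative tail sums -/
theorem ineqT (f : F V) : TSN (-EP 3 3 2 1 f) := (tail_all f).1

/-- the greedy independent set -/
lemma greedy (G : SimpleGraph V) : ∀ f : F V, F.Fits G f →
    ∃ J : Finset V, J ⊆ F.verts f ∧ Ind G J ∧ J.card = al f ∧
      (nA f = 0 → Disjoint J (F.roots f))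
  | F.nil, _ => ⟨∅, by simp, by intro a ha; simp at ha, by simp [al], by simp⟩
  | F.cons v c r, h => by
      obtain ⟨h1, h2, h3, h4, h5, h6, h7, h8⟩ := h
      obtain ⟨J, j1, j2, j3, j4⟩ := greedy G c h1
      obtain ⟨K, k1, k2, k3, k4⟩ := greedy G r h2
      have hdis : Disjoint J K := h5.mono j1 k1
      have hJK : Ind G (J ∪ K) := by
        intro a ha b hb
        rw [Finset.mem_union] at ha hb
        rcases ha with ha | ha <;> rcases hb with hb | hb
        · exact j2 a ha b hb
        · exact h8 a (j1 ha) b (k1 hb)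
        · exact fun hab => h8 b (j1 hb) a (k1 ha) hab.symm
        · exact k2 a ha b hb
      by_cases hc : nA c = 0
      · refine ⟨insert v (J ∪ K), ?_, ?_, ?_, ?_⟩
        · rw [F.verts]
          exact Finset.insert_subset_insert v (Finset.union_subset_union j1 k1)
        · have hv : ∀ b ∈ J ∪ K, ¬ G.Adj v b := by
            intro b hb
            rw [Finset.mem_union] at hb
            rcases hb with hb | hb
            · intro hab
              have := (h6 b (j1 hb)).1 hab
              exact Finset.disjoint_left.1 (j4 hc) hb this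
            · exact h7 b (k1 hb)
          intro a ha b hb
          rw [Finset.mem_insert] at ha hb
          rcases ha with rfl | ha <;> rcases hb with rfl | hb
          · exact G.irrefl
          · exact hv b hb
          · exact fun hab => hv a ha hab.symm
          · exact hJK a ha b hb
        · rw [Finset.card_insert_of_notMem, Finset.card_union_of_disjoint hdis, j3, k3, al,
            if_pos hc]
          · ring
          · rw [Finset.mem_union]
            rintro (h | h)
            · exact h3 (j1 h)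
            · exact h4 (k1 h)
        · intro h
          rw [nA, if_pos hc] at h
          omega
      · refine ⟨J ∪ K, ?_, hJK, ?_, ?_⟩
        · rw [F.verts]
          exact (Finset.union_subset_union j1 k1).trans (Finset.subset_insert v _)
        · rw [Finset.card_union_of_disjoint hdis, j3, k3, al, if_neg hc]; ring
        · intro h
          have hr : nA r = 0 := by
            rw [nA, if_neg hc, zero_add] at h
            exact h
          rw [F.roots, Finset.disjoint_left]
          intro x hx hx'
          rw [Finset.mem_union] at hx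
          rw [Finset.mem_insert] at hx'
          rcases hx with hx | hx
          · rcases hx' with rfl | hx'
            · exact h3 (j1 hx)
            · exact Finset.disjoint_left.1 h5 (j1 hx) (F.roots_subset r hx')
          · rcases hx' with rfl | hx'
            · exact h4 (k1 hx)
            · exact Finset.disjoint_left.1 (k4 hr) hx hx'

end Pool.Agent.Lib.MP_24a1b5_co.Init
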