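import Pool.Agent.Lib.MP_24a1b5_co.Init.Tail

/-!
# The independence sequence of a forest is decreasing from `(2 α + n) / 6` on
-/

set_option autoImplicit false
open Polynomial
open scoped Classical
open N36365310

namespace Pool.Agent.Lib.MP_24a1b5_co.Init

open Pool.Agent.Lib.MP_24a1b5_co (F Ind cnt Degen degen_of_acyclic cnt_eq_zero)

/-- after an ascent the terms of the sequence are not much smaller -/
lemma seqA' {a : ℕ → ℤ} {k : ℕ} (h0 : ∀ j, 0 ≤ a j)
    (hD : ∀ j : ℕ, ((j : ℤ) + 1) * a (j + 1) ^ 2 ≤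
      a j * (((j : ℤ) + 2) * a (j + 2) + 3 * a (j + 1)))
    (hk : a k ≤ a (k + 1)) : ∀ l : ℕ,
      ((k : ℤ) + 1 - 3 * l) * a (k + l) ≤ ((k : ℤ) + l + 1) * a (k + l + 1)
  | 0 => by
      push_cast
      have := h0 k
      rw [sub_zero, add_zero, Nat.add_zero]
      exact mul_le_mul_of_nonneg_left hk (by positivity)
  | l + 1 => by
      have ih := seqA' h0 hD hk l
      have h1 := hD (k + l)
      have h2 := h0 (k + l)
      have h3 := h0 (k + l + 1)
      have h4 := h0 (k + l + 2)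
      rw [show k + (l + 1) = k + l + 1 by omega]
      push_cast at h1 ⊢
      rcases le_or_gt ((k : ℤ) + 1 - 3 * l) 0 with hn | hp
      · have hx : ((k : ℤ) + 1 - 3 * (l + 1)) * a (k + l + 1) ≤ 0 :=
          mul_nonpos_of_nonpos_of_nonneg (by linarith) h3
        have hy : 0 ≤ ((k : ℤ) + (l + 1) + 1) * a (k + l + 1 + 1) :=
          mul_nonneg (by positivity) h4
        linarith
      · rcases h3.lt_or_eq with h5 | h5
        · have h6 := mul_le_mul_of_nonneg_left h1 hp.le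
          have h7 : 0 ≤ ((k : ℤ) + l + 2) * a (k + l + 2) + 3 * a (k + l + 1) := by positivity
          have h8 := mul_le_mul_of_nonneg_right ih h7
          have h9 : (((k : ℤ) + l + 1) * a (k + l + 1)) *
              (((k : ℤ) + 1 - 3 * l) * a (k + l + 1)) ≤
              (((k : ℤ) + l + 1) * a (k + l + 1)) *
                (((k : ℤ) + l + 2) * a (k + l + 2) + 3 * a (k + l + 1)) := by
            nlinarith
          have h10 := le_of_mul_le_mul_left h9 (by positivity)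
          have e : k + l + 1 + 1 = k + l + 2 := rfl
          rw [e]
          linarith
        · rw [← h5, mul_zero]
          exact mul_nonneg (by positivity) h4

lemma seqB' {a : ℕ → ℤ} {k : ℕ} (h0 : ∀ j, 0 ≤ a j)
    (hD : ∀ j : ℕ, ((j : ℤ) + 1) * a (j + 1) ^ 2 ≤
      a j * (((j : ℤ) + 2) * a (j + 2) + 3 * a (j + 1)))
    (hk : a k ≤ a (k + 1)) : ∀ l : ℕ,
      ((k : ℤ) + 1 - 2 * l * (l + 1)) * a (k + 1) ≤ ((k : ℤ) + 1) * a (k + 1 + l)
  | 0 => by
      push_cast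
      rw [sub_zero, Nat.add_zero]
  | l + 1 => by
      have ih := seqB' h0 hD hk l
      have h1 := seqA' h0 hD hk (l + 1)
      rw [show k + (l + 1) + 1 = k + 1 + (l + 1) by omega,
        show k + (l + 1) = k + 1 + l by omega] at h1
      have h2 := h0 (k + 1)
      have h3 := h0 (k + 1 + (l + 1))
      have hl : (0 : ℤ) ≤ l := Int.natCast_nonneg l
      have hk0 : (0 : ℤ) ≤ k := Int.natCast_nonneg k
      push_cast at h1 ⊢
      rcases le_or_gt ((k : ℤ) + 1 - 2 * ((l : ℤ) + 1) * (l + 1 + 1)) 0 with hn | hp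
      · have hx := mul_nonpos_of_nonpos_of_nonneg hn h2
        have hy : 0 ≤ ((k : ℤ) + 1) * a (k + 1 + (l + 1)) := mul_nonneg (by positivity) h3
        linarith
      · have hq : 0 ≤ (k : ℤ) + 1 - 3 * (l + 1) := by nlinarith
        have s1 := mul_le_mul_of_nonneg_left ih hq
        have s2 := mul_le_mul_of_nonneg_left h1 (by positivity : (0 : ℤ) ≤ (k : ℤ) + 1)
        have s3 : ((k : ℤ) + (l + 1) + 1) *
            (((k : ℤ) + 1 - 2 * ((l : ℤ) + 1) * (l + 1 + 1)) * a (k + 1)) ≤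
            ((k : ℤ) + (l + 1) + 1) * (((k : ℤ) + 1) * a (k + 1 + (l + 1))) := by
          have h8 : 0 ≤ (6 * (l : ℤ) * (l + 1) ^ 2 + 2 * (l + 1) ^ 2 * (l + 2)) * a (k + 1) := by
            positivity
          nlinarith
        exact le_of_mul_le_mul_left s3 (by positivity)

/-- The lemma on sequences for the tail. -/
theorem seqTail {a : ℕ → ℤ} {k : ℕ} (d : ℤ) (hd : 0 ≤ d) (h0 : ∀ j, 0 ≤ a j)
    (hD : ∀ j : ℕ, ((j : ℤ) + 1) * a (j + 1) ^ 2 ≤
      a j * (((j : ℤ) + 2) * a (j + 2) + 3 * a (j + 1)))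
    (hS : ∀ M : ℕ, ∑ l ∈ Finset.range (M + 1), (d + 6 + 6 * l) * a (k + 1 + l) ≤
      (3 * (k : ℤ) - d) * a k)
    (hL : ∀ L : ℕ, 2 * L * (L + 1) ≤ k + 1 → 7 * (L : ℤ) + 8 ≤ d) :
    a (k + 1) ≤ a k := by
  by_contra hcon
  rw [not_le] at hcon
  obtain ⟨L, hL1, hL2⟩ := exL (k + 1) (by omega)
  have hl := hL L hL1
  have hK1 : 2 * (L : ℤ) * (L + 1) ≤ (k : ℤ) + 1 := by exact_mod_cast hL1
  have hK2 : (k : ℤ) + 1 + 1 ≤ 2 * ((L : ℤ) + 1) * (L + 2) := by exact_mod_cast hL2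
  have hL0 : (0 : ℤ) ≤ L := Int.natCast_nonneg L
  have hk0 : (0 : ℤ) ≤ k := Int.natCast_nonneg k
  have hak : 0 < a (k + 1) := by have := h0 k; omega
  have s2 : (∑ l ∈ Finset.range (L + 1), (d + 6 + 6 * l) * ((k : ℤ) + 1 - 2 * l * (l + 1))) *
      a (k + 1) ≤
      ((k : ℤ) + 1) * ∑ l ∈ Finset.range (L + 1), (d + 6 + 6 * l) * a (k + 1 + l) := by
    rw [Finset.sum_mul, Finset.mul_sum]
    apply Finset.sum_le_sum
    intro l _
    have := seqB' h0 hD hcon.le l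
    have h5 := mul_le_mul_of_nonneg_left this (by positivity : (0 : ℤ) ≤ d + 6 + 6 * l)
    linarith
  have s3 := sumL (d + 6) 6 ((k : ℤ) + 1) L
  set T := ∑ l ∈ Finset.range (L + 1), (d + 6 + 6 * l) * ((k : ℤ) + 1 - 2 * l * (l + 1)) with hT
  have b1 : ((k : ℤ) + 1) * (4 * L + 2) ≤ 6 * (L + 1) * ((k : ℤ) + 1) -
      4 * L * (L + 1) * (L + 2) := by
    nlinarith
  have b2 : ((k : ℤ) + 1) * (3 * L ^ 2 - L - 2) ≤
      2 * (3 * ((k : ℤ) + 1) * L * (L + 1) - L * (L + 1) * (L + 2) * (3 * L + 1)) := by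
    have : 0 ≤ ((k : ℤ) + 1 - 2 * (L : ℤ) * (L + 1)) * (((L : ℤ) + 2) * (3 * L + 1)) :=
      mul_nonneg (by linarith) (by positivity)
    nlinarith
  have b3 := mul_le_mul_of_nonneg_left b1 (by positivity : (0 : ℤ) ≤ d + 6)
  have t1 : ((k : ℤ) + 1) * ((d + 6) * (4 * L + 2) + (9 * L ^ 2 - 3 * L - 6)) ≤ 6 * T := by
    rw [s3]
    nlinarith
  have t2 : 6 * (3 * (k : ℤ) - d) < (d + 6) * (4 * L + 2) + (9 * L ^ 2 - 3 * L - 6) := by
    nlinarith
  have t3 : 0 < (d + 6) * (4 * (L : ℤ) + 2) + (9 * L ^ 2 - 3 * L - 6) := by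
    nlinarith
  have t4 : 0 < T := by
    have : 0 < ((k : ℤ) + 1) * ((d + 6) * (4 * L + 2) + (9 * L ^ 2 - 3 * L - 6)) :=
      mul_pos (by positivity) t3
    linarith
  have u2 : T * a (k + 1) ≤ ((k : ℤ) + 1) * ((3 * (k : ℤ) - d) * a k) :=
    s2.trans (mul_le_mul_of_nonneg_left (hS L) (by positivity))
  rcases le_or_gt (3 * (k : ℤ) - d) 0 with hn | hp
  · have v1 : (3 * (k : ℤ) - d) * a k ≤ 0 := mul_nonpos_of_nonpos_of_nonneg hn (h0 k)
    have v2 : ((k : ℤ) + 1) * ((3 * (k : ℤ) - d) * a k) ≤ 0 :=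
      mul_nonpos_of_nonneg_of_nonpos (by positivity) v1
    have v3 : 0 < T * a (k + 1) := mul_pos t4 hak
    linarith
  · have v1 : (3 * (k : ℤ) - d) * a k ≤ (3 * (k : ℤ) - d) * a (k + 1) :=
      mul_le_mul_of_nonneg_left hcon.le hp.le
    have v2 := mul_le_mul_of_nonneg_left v1 (by positivity : (0 : ℤ) ≤ (k : ℤ) + 1)
    have v3 : T * a (k + 1) ≤ (((k : ℤ) + 1) * (3 * (k : ℤ) - d)) * a (k + 1) := by
      linarith
    have v4 := le_of_mul_le_mul_right v3 hak
    have v5 : ((k : ℤ) + 1) * (6 * (3 * (k : ℤ) - d)) <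
        ((k : ℤ) + 1) * ((d + 6) * (4 * L + 2) + (9 * L ^ 2 - 3 * L - 6)) :=
      mul_lt_mul_of_pos_left t2 (by positivity)
    linarith

variable {V : Type*}

/-- the tail sums -/
theorem tail_sums [Fintype V] (G : SimpleGraph V) (hG : G.IsAcyclic) (k : ℕ)
    (hk : 2 * G.indepNum + Fintype.card V ≤ 6 * k) (M : ℕ) :
    ∑ l ∈ Finset.range (M + 1), ((6 * (k : ℤ) - (2 * G.indepNum + Fintype.card V)) + 6 + 6 * l) *
      (indepSeq G (k + 1 + l) : ℤ) ≤
        (3 * (k : ℤ) - (6 * (k : ℤ) - (2 * G.indepNum + Fintype.card V))) *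
          (indepSeq G k : ℤ) := by
  obtain ⟨f, hf, hv⟩ := F.exists_fits G (degen_of_acyclic hG) _ (Finset.univ : Finset V) rfl
  have hsz : F.sz f = Fintype.card V := by
    rw [F.sz_eq G f hf, hv, Finset.card_univ]
  have hal : al f ≤ G.indepNum := by
    obtain ⟨J, -, j2, j3, -⟩ := greedy G f hf
    rw [← j3]
    apply SimpleGraph.IsIndepSet.card_le_indepNum
    intro a ha b hb _
    exact j2 a ha b hb
  set W : ℤ := 2 * (al f : ℤ) + (Fintype.card V : ℤ) with hW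
  have hWle : W ≤ 2 * (G.indepNum : ℤ) + (Fintype.card V : ℤ) := by
    have : (al f : ℤ) ≤ (G.indepNum : ℤ) := by exact_mod_cast hal
    linarith
  have hWk : 2 * (G.indepNum : ℤ) + (Fintype.card V : ℤ) ≤ 6 * k := by exact_mod_cast hk
  rcases Nat.eq_zero_or_pos k with hk0 | hk0
  · -- then there are no vertices
    subst hk0
    have hn : Fintype.card V = 0 := by omega
    have hi : G.indepNum = 0 := by omega
    have hz : ∀ j : ℕ, 0 < j → indepSeq G j = 0 := by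
      intro j hj
      rw [indepSeq_eq']
      apply cnt_eq_zero
      rw [Finset.card_univ, hn]
      exact hj
    rw [hn, hi]
    apply le_of_eq
    rw [Finset.sum_eq_zero]
    · simp
    · intro l _
      rw [hz (0 + 1 + l) (by omega)]
      simp
  obtain ⟨k, rfl⟩ : ∃ k', k = k' + 1 := ⟨k - 1, by omega⟩
  obtain ⟨N₀, hN₀⟩ := (ineqT f).sum
  set N := N₀ + (k + 1 + 1 + (M + 1)) + Fintype.card V + 1 with hN
  have h1 := hN₀ k N (by omega) (by omega)
  have hco : ∀ j : ℕ, (-EP 3 3 2 1 f).coeff j = W * (indepSeq G j : ℤ) -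
      3 * ((j : ℤ) + 1) * (indepSeq G (j + 1) : ℤ) - 3 * (j : ℤ) * (indepSeq G j : ℤ) := by
    intro j
    rw [coeff_neg, EP_coeff G hf, hv, hsz, ← indepSeq_eq', ← indepSeq_eq', hW]
    ring
  have hsum : ∀ B : ℕ, k + 2 ≤ B → ∑ j ∈ Finset.Ico (k + 1) B, (-EP 3 3 2 1 f).coeff j =
      (W - 3 * ((k : ℤ) + 1)) * (indepSeq G (k + 1) : ℤ) -
        (∑ j ∈ Finset.Ico (k + 2) B, (6 * (j : ℤ) - W) * (indepSeq G j : ℤ)) -
        3 * (B : ℤ) * (indepSeq G B : ℤ) := by
    intro B hB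
    induction B, hB using Nat.le_induction with
    | base =>
      rw [Finset.sum_Ico_succ_top (by omega : k + 1 ≤ k + 1), Finset.Ico_self, Finset.sum_empty,
        Finset.Ico_self, Finset.sum_empty, hco]
      push_cast
      ring
    | succ B hB ih =>
      rw [Finset.sum_Ico_succ_top (by omega : k + 1 ≤ B), ih, hco,
        Finset.sum_Ico_succ_top (by omega : k + 2 ≤ B)]
      push_cast
      ring
  have hN0 : indepSeq G N = 0 := by
    rw [indepSeq_eq']
    apply cnt_eq_zero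
    rw [Finset.card_univ]
    omega
  rw [hsum N (by omega), hN0] at h1
  have h2 : ∑ l ∈ Finset.range (M + 1), (6 * ((k + 1 + 1 + l : ℕ) : ℤ) - W) *
      (indepSeq G (k + 1 + 1 + l) : ℤ) ≤
      ∑ j ∈ Finset.Ico (k + 2) N, (6 * (j : ℤ) - W) * (indepSeq G j : ℤ) := by
    have e : ∑ l ∈ Finset.range (M + 1), (6 * ((k + 1 + 1 + l : ℕ) : ℤ) - W) *
        (indepSeq G (k + 1 + 1 + l) : ℤ) =
        ∑ j ∈ Finset.Ico (k + 2) (k + 2 + (M + 1)), (6 * (j : ℤ) - W) * (indepSeq G j : ℤ) := by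
      rw [Finset.sum_Ico_eq_sum_range, Nat.add_sub_cancel_left]
    rw [e]
    apply Finset.sum_le_sum_of_subset_of_nonneg
    · apply Finset.Ico_subset_Ico le_rfl
      omega
    · intro j hj _
      rw [Finset.mem_Ico] at hj
      apply mul_nonneg _ (Int.natCast_nonneg _)
      have : ((k : ℤ) + 1) ≤ j := by exact_mod_cast (by omega : k + 1 ≤ j)
      push_cast at hWk
      linarith
  refine le_trans (Finset.sum_le_sum fun l _ => ?_) (h2.trans (le_trans (?_ : _ ≤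
    (W - 3 * ((k : ℤ) + 1)) * (indepSeq G (k + 1) : ℤ)) ?_))
  · apply mul_le_mul_of_nonneg_right _ (Int.natCast_nonneg _)
    push_cast
    linarith
  · push_cast at h1
    linarith
  · apply mul_le_mul_of_nonneg_right _ (Int.natCast_nonneg _)
    push_cast
    linarith

/-- `i_{k+1} ≤ i_k` for `2 α + n + 5 √(k + 1) + 8 ≤ 6 k`. -/
theorem last [Fintype V] (G : SimpleGraph V) (hG : G.IsAcyclic) (k : ℕ)
    (hk : 2 * (G.indepNum : ℝ) + (Fintype.card V : ℝ) + 5 * Real.sqrt ((k : ℝ) + 1) + 8 ≤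
      6 * (k : ℝ)) :
    indepSeq G (k + 1) ≤ indepSeq G k := by
  have hs := Real.sqrt_nonneg ((k : ℝ) + 1)
  have hk1 : 2 * G.indepNum + Fintype.card V ≤ 6 * k := by
    have : 2 * (G.indepNum : ℝ) + (Fintype.card V : ℝ) ≤ 6 * (k : ℝ) := by linarith
    exact_mod_cast this
  have hk2 : 2 * (G.indepNum : ℤ) + (Fintype.card V : ℤ) ≤ 6 * k := by exact_mod_cast hk1
  have key := seqTail (a := fun j => (indepSeq G j : ℤ)) (k := k)
    (6 * (k : ℤ) - (2 * G.indepNum + Fintype.card V)) (by linarith)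
    (fun j => Int.natCast_nonneg _) (drop' G hG) (tail_sums G hG k hk1) ?_
  · exact_mod_cast key
  · intro L hL
    have hL' : 2 * (L : ℝ) * (L + 1) ≤ (k : ℝ) + 1 := by exact_mod_cast hL
    have hL0 : (0 : ℝ) ≤ L := Nat.cast_nonneg L
    have h1 : 7 * (L : ℝ) / 5 ≤ Real.sqrt ((k : ℝ) + 1) := by
      apply Real.le_sqrt_of_sq_le
      nlinarith
    have h2 : 7 * (L : ℝ) + 8 ≤ 6 * (k : ℝ) - (2 * G.indepNum + Fintype.card V) := by linarith
    exact_mod_cast h2

end Pool.Agent.Lib.MP_24a1b5_co.Init
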