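import Mathlib

/-!
# The scalar inequality behind the variance bound, for fugacity up to `6 / 5`
-/

set_option autoImplicit false

namespace Pool.Agent.Lib.MP_24a1b5_co.Gap

/-- a quadratic lower bound of the exponential -/
noncomputable def lo (s : ℝ) : ℝ :=
  5148 / 1000 + 4827 / 1000 * (s - 5 / 3) + 128 / 100 * (s - 5 / 3) ^ 2

lemma lo_le {s : ℝ} (hs : 0 ≤ s) : lo s ≤ Real.exp s := by
  have h := Real.sum_le_exp_of_nonneg hs 5
  simp only [Finset.sum_range_succ, Finset.sum_range_zero] at h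
  norm_num [Nat.factorial] at h
  refine le_trans ?_ h
  rw [lo]
  nlinarith [sq_nonneg (s - 5 / 3), mul_nonneg hs (sq_nonneg (s - 5 / 3)),
    sq_nonneg (s ^ 2 - 25 / 9), sq_nonneg ((s - 5 / 3) * (s + 1))]

lemma brk2 {s Q : ℝ} (hs : 0 ≤ s) (hQ0 : 0 < Q) (hQ : Q * Real.exp s ≤ 1) :
    Q * (2 + 6 / 5 * Q) * (11 / 5 * (s - 1) + 6 / 5 * Q * s) ≤ 84 / 100 := by
  obtain ⟨y, hy⟩ : ∃ y : ℝ, Q * y = 1 := ⟨Q⁻¹, mul_inv_cancel₀ hQ0.ne'⟩
  have hyE : Real.exp s ≤ y := by
    by_contra h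
    push Not at h
    nlinarith
  have hE : 2.718 * s ≤ y := by
    have h1 : s ≤ Real.exp (s - 1) := by
      have := Real.add_one_le_exp (s - 1)
      linarith
    have h2 : Real.exp s = Real.exp 1 * Real.exp (s - 1) := by
      rw [← Real.exp_add]
      congr 1
      ring
    have h3 := Real.exp_one_gt_d9
    rw [h2] at hyE
    nlinarith
  have hlo := (lo_le hs).trans hyE
  have hy1 : 1 ≤ y := (Real.one_le_exp hs).trans hyE
  clear hyE
  have k1 : 0 ≤ 0.84 * y ^ 2 - 4.4 * (s - 1) * y - 5.04 * s + 2.1 := by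
    have e1 : 0.84 * y ^ 2 - 4.4 * (s - 1) * y - 5.04 * s + 2.1 =
        (0.84 * lo s ^ 2 - 4.4 * (s - 1) * lo s - 5.04 * s + 2.1) +
        (y - lo s) * (1.68 * lo s - 4.4 * (s - 1)) + 0.84 * (y - lo s) ^ 2 := by ring
    rw [e1]
    have e2 : 0 ≤ 1.68 * lo s - 4.4 * (s - 1) := by
      rw [lo]
      nlinarith [sq_nonneg (s - 5 / 3), sq_nonneg (s - 5 / 3 + 0.8)]
    have e3 : 0 ≤ 0.84 * lo s ^ 2 - 4.4 * (s - 1) * lo s - 5.04 * s + 2.1 := by
      have : ∀ u : ℝ, s = u + 5 / 3 → 0 ≤ 0.84 * lo s ^ 2 - 4.4 * (s - 1) * lo s - 5.04 * s + 2.1 := by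
        intro u hu
        have hl : lo s = 5148 / 1000 + 4827 / 1000 * u + 128 / 100 * u ^ 2 := by
          rw [lo, hu]; ring
        rw [hl, hu]
        nlinarith [sq_nonneg u, sq_nonneg (u * (u + 1.7)), sq_nonneg (u - 0.1), sq_nonneg (u ^ 2),
          sq_nonneg (u * (u + 1.8))]
      exact this (s - 5 / 3) (by ring)
    have e4 := mul_nonneg (sub_nonneg.2 hlo) e2
    nlinarith [sq_nonneg (y - lo s)]
  have k2 : (2 * y + 1.2) * (2.2 * (s - 1) * y + 1.2 * s) ≤ 0.84 * y ^ 3 := by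
    have := mul_nonneg (by linarith : (0:ℝ) ≤ y) k1
    nlinarith
  have k3 : Q * (2 + 6 / 5 * Q) * (11 / 5 * (s - 1) + 6 / 5 * Q * s)
      = Q ^ 3 * ((2 * y + 1.2) * (2.2 * (s - 1) * y + 1.2 * s)) := by
    have e1 : Q * (2 + 6 / 5 * Q) * (11 / 5 * (s - 1) + 6 / 5 * Q * s)
      = Q * (2 * (Q * y) + 6 / 5 * Q) * (11 / 5 * (s - 1) * (Q * y) + 6 / 5 * Q * s) := by
      rw [hy]; ring
    rw [e1]; ring
  rw [k3]
  have hQ3 : 0 < Q ^ 3 := pow_pos hQ0 3
  have k4 : Q ^ 3 * (0.84 * y ^ 3) = 0.84 := by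
    have : Q ^ 3 * (0.84 * y ^ 3) = 0.84 * (Q * y) ^ 3 := by ring
    rw [this, hy]; norm_num
  have k5 := mul_le_mul_of_nonneg_left k2 hQ3.le
  rw [k4] at k5
  norm_num at k5 ⊢
  exact k5

lemma disc2 {s Q t : ℝ} (hs : 0 ≤ s) (hQ0 : 0 < Q) (hQ : Q * Real.exp s ≤ 1)
    (ht : 0 < t) (ht1 : t ≤ 6 / 5) :
    (2 * (1 + t) - t * (1 + t * Q) ^ 2) ^ 2 ≤
      4 * (1 + t) * (1 + t * Q + t) * (1 + t * Q - s * (t * Q) * (2 + t * Q)) := by
  have hT : 1 + s + s ^ 2 / 2 + s ^ 3 / 6 ≤ Real.exp s := by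
    have := Real.sum_le_exp_of_nonneg hs 4
    simp only [Finset.sum_range_succ, Finset.sum_range_zero] at this
    norm_num [Nat.factorial] at this
    linarith
  have hQT : Q * (1 + s + s ^ 2 / 2 + s ^ 3 / 6) ≤ 1 :=
    (mul_le_mul_of_nonneg_left hT hQ0.le).trans hQ
  have hQ1 : Q ≤ 1 := by
    have h3 : 0 ≤ s + s ^ 2 / 2 + s ^ 3 / 6 := by positivity
    nlinarith [mul_nonneg hQ0.le h3]
  have hb := brk2 hs hQ0 hQ
  have hr0 : 0 ≤ t * Q := by positivity
  have hrt : t * Q ≤ t := by nlinarith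
  have hrQ : t * Q ≤ 6 / 5 * Q := by nlinarith
  have e : 4 * (1 + t) * (1 + t * Q + t) * (1 + t * Q - s * (t * Q) * (2 + t * Q))
      - (2 * (1 + t) - t * (1 + t * Q) ^ 2) ^ 2
      = t * (4 * (1 + t) * ((1 + t * Q) - Q * (2 + t * Q) * ((1 + t * Q + t) * s - (1 + t)))
        - t * (1 + t * Q) ^ 4) := by ring
  suffices h : 0 ≤ 4 * (1 + t) * ((1 + t * Q) - Q * (2 + t * Q) * ((1 + t * Q + t) * s - (1 + t)))
        - t * (1 + t * Q) ^ 4 by
    have := mul_nonneg ht.le h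
    linarith
  set r := t * Q with hr
  -- `t (1 + r) ^ 4 ≤ 4 (1 + t) * (3 / 22) (1 + r) ^ 4`
  have ht4 : t * (1 + r) ^ 4 ≤ 4 * (1 + t) * (3 / 22 * (1 + r) ^ 4) := by
    have : 0 ≤ (1 + r) ^ 4 := by positivity
    nlinarith [mul_nonneg (sub_nonneg.2 ht1) this]
  suffices h : 0 ≤ (1 + r) - Q * (2 + r) * ((1 + r + t) * s - (1 + t)) - 3 / 22 * (1 + r) ^ 4 by
    have := mul_nonneg (by linarith : (0:ℝ) ≤ 4 * (1 + t)) h
    nlinarith
  rcases le_or_gt ((1 + r + t) * s) (1 + t) with hc | hc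
  · rcases le_or_gt r (94 / 100) with hr1 | hr1
    · have h1 : 0 ≤ Q * (2 + r) * ((1 + t) - (1 + r + t) * s) :=
        mul_nonneg (mul_nonneg hQ0.le (by linarith)) (by linarith)
      have h2 : 3 / 22 * (1 + r) ^ 4 ≤ 1 + r := by
        have h3 : (1 + r) ^ 3 ≤ (194 / 100) ^ 3 := pow_le_pow_left₀ (by linarith) (by linarith) 3
        have h4 : 3 / 22 * (1 + r) ^ 3 ≤ 1 := by
          refine (mul_le_mul_of_nonneg_left h3 (by norm_num)).trans (by norm_num)
        have := mul_le_mul_of_nonneg_right h4 (by linarith : (0:ℝ) ≤ 1 + r)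
        nlinarith
      nlinarith
    · have hQ2 : 78 / 100 ≤ Q := by linarith
      have hs1 : s ≤ 29 / 100 := by
        by_contra h
        push Not at h
        have : 0 ≤ s ^ 2 / 2 + s ^ 3 / 6 := by positivity
        nlinarith
      have ht2 : 94 / 100 ≤ t := by linarith
      have h1 : 1 ≤ (1 + t) - (1 + r + t) * s := by
        have : (1 + r + t) * s ≤ (1 + 2 * t) * (29 / 100) := by
          apply mul_le_mul (by linarith) hs1 hs (by linarith)
        linarith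
      have h2 : 78 / 100 * (294 / 100) ≤ Q * (2 + r) := by
        apply mul_le_mul hQ2 (by linarith) (by norm_num) hQ0.le
      have h3 : 78 / 100 * (294 / 100) * 1 ≤ Q * (2 + r) * ((1 + t) - (1 + r + t) * s) :=
        mul_le_mul h2 h1 (by norm_num) (by positivity)
      have h4 : (1 + r) ^ 4 ≤ (11 / 5) ^ 4 := pow_le_pow_left₀ (by linarith) (by linarith) 4
      norm_num at h4
      nlinarith
  · have hs34 : 3 / 4 ≤ s := by
      by_contra h
      push Not at h
      have h1 : 0 < (1 + t) * (s - 1) + t * Q * s := by nlinarith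
      have h2 : 0 < 11 / 6 * (s - 1) + Q * s := by
        have h3 : 0 ≤ (6 / 5 - t) * (1 - s) := mul_nonneg (by linarith) (by linarith)
        have : 0 < t * (11 / 6 * (s - 1) + Q * s) := by nlinarith
        exact (mul_pos_iff_of_pos_left ht).1 this
      have h3 : 0 ≤ s ^ 2 / 2 := by positivity
      have hQ3 : Q * (1 + s + s ^ 2 / 2) ≤ 1 := by
        have : 0 ≤ Q * (s ^ 3 / 6) := by positivity
        nlinarith
      have h4 : 0 < (11 / 6 * (s - 1) + Q * s) * (1 + s + s ^ 2 / 2) := by positivity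
      have h5 : s * (Q * (1 + s + s ^ 2 / 2)) ≤ s * 1 := mul_le_mul_of_nonneg_left hQ3 hs
      have h6 : s ^ 3 ≤ 3 / 4 * s ^ 2 := by nlinarith [sq_nonneg s]
      nlinarith
    have hD : (1 + r + t) * s - (1 + t) ≤ 11 / 5 * (s - 1) + 6 / 5 * Q * s := by
      have hd : 0 ≤ (s - 1) + Q * s := by
        rcases le_or_gt 1 s with h1 | h1
        · nlinarith [mul_nonneg hQ0.le hs]
        · have : t * (1 - s) ≤ t * (Q * s) := by
            have : (1 + t) * (1 - s) < t * (Q * s) := by rw [hr] at hc; nlinarith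
            nlinarith
          have := le_of_mul_le_mul_left this ht
          linarith
      have : 11 / 5 * (s - 1) + 6 / 5 * Q * s - ((1 + r + t) * s - (1 + t)) =
          (6 / 5 - t) * ((s - 1) + Q * s) := by
        rw [hr]; ring
      have := mul_nonneg (sub_nonneg.2 ht1) hd
      linarith
    have hpos : 0 < (1 + r + t) * s - (1 + t) := by linarith
    have hB : Q * (2 + r) * ((1 + r + t) * s - (1 + t)) ≤
        Q * (2 + 6 / 5 * Q) * (11 / 5 * (s - 1) + 6 / 5 * Q * s) := by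
      refine mul_le_mul ?_ hD hpos.le (by positivity)
      exact mul_le_mul_of_nonneg_left (by linarith) hQ0.le
    rcases le_or_gt 1 s with h1 | h1
    · have hQe : Q ≤ 3679 / 10000 := by
        have h2 : Real.exp 1 ≤ Real.exp s := Real.exp_le_exp.2 h1
        have h3 := Real.exp_one_gt_d9
        by_contra h
        push Not at h
        nlinarith
      have hr2 : r ≤ 442 / 1000 := by linarith
      have h2 : 84 / 100 ≤ (1 + r) - 3 / 22 * (1 + r) ^ 4 := by
        nlinarith [mul_nonneg hr0 (sub_nonneg.2 hr2), mul_nonneg (mul_nonneg hr0 hr0)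
          (sub_nonneg.2 hr2), mul_nonneg (mul_nonneg (mul_nonneg hr0 hr0) hr0)
          (sub_nonneg.2 hr2)]
      linarith
    · have hQe : Q ≤ 476 / 1000 := by
        by_contra h
        push Not at h
        have h2 : (3 / 4 : ℝ) ^ 2 ≤ s ^ 2 := pow_le_pow_left₀ (by norm_num) hs34 2
        have h3 : (3 / 4 : ℝ) ^ 3 ≤ s ^ 3 := pow_le_pow_left₀ (by norm_num) hs34 3
        nlinarith
      have hr2 : r ≤ 572 / 1000 := by linarith
      have h3 : Q * (2 + 6 / 5 * Q) * (11 / 5 * (s - 1) + 6 / 5 * Q * s) ≤ 70 / 100 := by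
        have h4 : 11 / 5 * (s - 1) + 6 / 5 * Q * s ≤ 5712 / 10000 := by nlinarith
        have h5 : Q * (2 + 6 / 5 * Q) ≤ 476 / 1000 * (2 + 6 / 5 * (476 / 1000)) := by
          apply mul_le_mul hQe (by linarith) (by positivity) (by norm_num)
        have h6 : 0 ≤ 11 / 5 * (s - 1) + 6 / 5 * Q * s := hpos.le.trans hD
        calc _ ≤ 476 / 1000 * (2 + 6 / 5 * (476 / 1000)) * (5712 / 10000) :=
              mul_le_mul h5 h4 h6 (by norm_num)
          _ ≤ _ := by norm_num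
      have h2 : 70 / 100 ≤ (1 + r) - 3 / 22 * (1 + r) ^ 4 := by
        nlinarith [mul_nonneg hr0 (sub_nonneg.2 hr2), mul_nonneg (mul_nonneg hr0 hr0)
          (sub_nonneg.2 hr2), mul_nonneg (mul_nonneg (mul_nonneg hr0 hr0) hr0)
          (sub_nonneg.2 hr2)]
      linarith

end Pool.Agent.Lib.MP_24a1b5_co.Gap
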