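import Pool.Agent.Lib.MP_24a1b5_co.Wc
import Pool.Agent.Lib.MP_24a1b5_co.Init.VarScal

/-!
# Variance at most mean, for fugacity up to `6 / 5`

The induction of `Wc`, with the scalar inequality of `VarScal`.
-/

set_option autoImplicit false
open N36365310

namespace Pool.Agent.Lib.MP_24a1b5_co.Gap

open Polynomial
open scoped Classical
open Pool.Agent.Lib.MP_24a1b5_co.Wc (z m vr Out z_pos z_rec mean_rec var_rec
  nonneg_of_star out_of_star out_self out_union branch m_empty vr_empty)

lemma keyT2 {s w x Q t : ℝ} (hs : 0 ≤ s) (hx : 0 ≤ x) (hQ0 : 0 < Q) (hQs : 1 - s ≤ Q)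
    (hQe : Q * Real.exp s ≤ 1) (hxs : (s - w) ^ 2 ≤ x * s) (ht : 0 < t) (ht1 : t ≤ 6 / 5) :
    0 ≤ (1 + t) * ((1 + t * Q) * x + w * (2 * (t * Q)) - w ^ 2 * (t * Q) * (2 + t * Q)
      + (t * Q) ^ 2) + t * (w * (1 + t * Q) ^ 2 - t * Q * (1 + t * Q)) := by
  have hd := disc2 hs hQ0 hQe ht ht1
  have hQ1 : Q ≤ 1 := by
    have h3 := Real.one_le_exp hs
    nlinarith
  have hr0 : 0 < t * Q := by positivity
  have hsQ : s * Q ≤ 37 / 100 := by
    have h1 : s ≤ Real.exp (s - 1) := by
      have := Real.add_one_le_exp (s - 1)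
      linarith
    have h2 : Real.exp s = Real.exp 1 * Real.exp (s - 1) := by
      rw [← Real.exp_add]
      congr 1
      ring
    have h3 := Real.exp_one_gt_d9
    rw [h2] at hQe
    have h4 : Real.exp 1 * (s * Q) ≤ 1 := by
      have := mul_le_mul_of_nonneg_left h1 hQ0.le
      have h5 : Real.exp 1 * (Q * s) ≤ Real.exp 1 * (Q * Real.exp (s - 1)) :=
        mul_le_mul_of_nonneg_left this (Real.exp_pos 1).le
      nlinarith
    have h6 : 0 ≤ s * Q := by positivity
    nlinarith
  have hsr : s * (t * Q) ≤ 445 / 1000 := by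
    have : s * (t * Q) = t * (s * Q) := by ring
    rw [this]
    have h6 : 0 ≤ s * Q := by positivity
    nlinarith
  rcases hs.eq_or_lt with h0 | h0
  · subst h0
    have hw : w = 0 := by
      have : w ^ 2 ≤ 0 := by nlinarith
      exact pow_eq_zero_iff (two_ne_zero) |>.1 (le_antisymm this (sq_nonneg w))
    have hQ' : Q = 1 := le_antisymm hQ1 (by linarith)
    subst hw
    subst hQ'
    nlinarith [mul_nonneg (by linarith : (0:ℝ) ≤ 1 + t) (mul_nonneg (by linarith : (0:ℝ) ≤ 1 + t) hx)]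
  · set r := t * Q with hr
    have hr12 : r ≤ 6 / 5 := by nlinarith
    set B := 2 * (1 + t) - t * (1 + r) ^ 2 with hB
    set al := 1 + r - s * r * (2 + r) with hal
    have hal0 : 0 < al := by rw [hal]; nlinarith
    -- the quadratic form
    have hquad : 0 ≤ (1 + t) * al * w ^ 2 - s * B * w + s ^ 2 * (1 + r + t) := by
      have h4 : 0 < 4 * ((1 + t) * al) := by positivity
      have : 0 ≤ 4 * ((1 + t) * al) * ((1 + t) * al * w ^ 2 - s * B * w + s ^ 2 * (1 + r + t)) := by
        have e : 4 * ((1 + t) * al) * ((1 + t) * al * w ^ 2 - s * B * w + s ^ 2 * (1 + r + t))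
          = (2 * ((1 + t) * al) * w - s * B) ^ 2
            + s ^ 2 * (4 * (1 + t) * (1 + r + t) * al - B ^ 2) := by ring
        rw [e]
        have := mul_nonneg (sq_nonneg s) (sub_nonneg.2 hd)
        nlinarith [sq_nonneg (2 * ((1 + t) * al) * w - s * B)]
      exact nonneg_of_mul_nonneg_right this h4
    refine nonneg_of_mul_nonneg_right (a := s) ?_ h0
    have h5 : 0 ≤ (1 + t) * (1 + r) * (x * s - (s - w) ^ 2) :=
      mul_nonneg (by positivity) (sub_nonneg.2 hxs)
    have h6 : 0 ≤ s * (r * t) * (Q - (1 - s)) :=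
      mul_nonneg (by positivity) (sub_nonneg.2 hQs)
    have e : s * ((1 + t) * ((1 + r) * x + w * (2 * r) - w ^ 2 * r * (2 + r)
      + r ^ 2) + t * (w * (1 + r) ^ 2 - r * (1 + r)))
      = ((1 + t) * al * w ^ 2 - s * B * w + s ^ 2 * (1 + r + t))
        + (1 + t) * (1 + r) * (x * s - (s - w) ^ 2) + s * (r * t) * (Q - (1 - s))
        + s * r * (r - t * Q) := by
      rw [hal, hB]; ring
    have e2 : s * r * (r - t * Q) = 0 := by rw [hr]; ring
    rw [e, e2]
    linarith

lemma keyIII2 {s w x Q t p p0 : ℝ} (hs : 0 ≤ s) (hx : 0 ≤ x) (hQ0 : 0 < Q) (hQs : 1 - s ≤ Q)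
    (hQe : Q * Real.exp s ≤ 1) (hxs : (s - w) ^ 2 ≤ x * s) (ht : 0 < t) (ht1 : t ≤ 6 / 5)
    (hp : p = t * Q / (1 + t * Q)) (hp0 : p0 = t / (1 + t)) :
    p * (w ^ 2 + p0 * (1 - w)) ≤ p - p * (1 - p) * (1 - w) ^ 2 + (1 - p) * (x + p0 * w) := by
  have h := keyT2 hs hx hQ0 hQs hQe hxs ht ht1
  have hr : 0 < 1 + t * Q := by positivity
  have ht' : 0 < 1 + t := by linarith
  have e : p - p * (1 - p) * (1 - w) ^ 2 + (1 - p) * (x + p0 * w)
      - p * (w ^ 2 + p0 * (1 - w))
      = ((1 + t) * ((1 + t * Q) * x + w * (2 * (t * Q)) - w ^ 2 * (t * Q) * (2 + t * Q)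
      + (t * Q) ^ 2) + t * (w * (1 + t * Q) ^ 2 - t * Q * (1 + t * Q)))
        / ((1 + t * Q) ^ 2 * (1 + t)) := by
    rw [hp, hp0]
    field_simp
    ring
  have h2 := div_nonneg h (by positivity : (0:ℝ) ≤ (1 + t * Q) ^ 2 * (1 + t))
  rw [← e] at h2
  linarith

variable {V : Type*}

lemma star_of_out2 (G : SimpleGraph V) {t : ℝ} (ht : 0 < t) (ht1 : t ≤ 6 / 5) {S : Finset V}
    {v : V} (hv : v ∈ S) (h : Out G t (S.erase v) (del G v S)) : Wc.Star G t S v := by
  obtain ⟨s, w, x, hs, hx, hQs, hQe, hm, hvr, hxs, hB⟩ := h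
  have hA0 := z_pos G ht (S.erase v)
  have hB0 := z_pos G ht (del G v S)
  have hS0 := z_pos G ht S
  have hQ0 : 0 < z G t (del G v S) / z G t (S.erase v) := by positivity
  have hp : t * z G t (del G v S) / z G t S = t * (z G t (del G v S) / z G t (S.erase v)) /
      (1 + t * (z G t (del G v S) / z G t (S.erase v))) := by
    have e := z_rec G (t := t) hv
    rw [e] at hS0 ⊢
    field_simp
  have key := keyIII2 hs hx hQ0 hQs hQe hxs ht ht1 hp rfl
  rw [Wc.Star]
  have hw : m G t (S.erase v) - m G t (del G v S) = w := by linarith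
  rw [hw, mean_rec G ht hv, var_rec G ht hv, hm]
  set p := t * z G t (del G v S) / z G t S with hpd
  have hp0 : 0 ≤ p := by rw [hpd]; positivity
  have hp1 : 0 ≤ 1 - p := by
    have : p ≤ 1 := by
      rw [hpd, div_le_one hS0, z_rec G hv]
      linarith
    linarith
  have h1 := mul_nonneg hp0 hB
  have h2 := mul_le_mul_of_nonneg_left hvr hp1
  rw [hm] at h1
  nlinarith

lemma out_all2 {G : SimpleGraph V} (hG : G.IsAcyclic) {t : ℝ} (ht : 0 < t) (ht1 : t ≤ 6 / 5) :
    ∀ (n : ℕ) (S : Finset V), S.card = n → ∀ v ∈ S, Out G t (S.erase v) (del G v S) := by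
  intro n
  induction n using Nat.strong_induction_on with
  | _ n ih =>
    have hst : ∀ T : Finset V, T.card < n → ∀ c ∈ T, Wc.Star G t T c := fun T hT c hc =>
      star_of_out2 G ht ht1 hc (ih _ hT T rfl c hc)
    have hnn : ∀ T : Finset V, T.card < n → 0 ≤ m G t T - vr G t T := by
      intro T hT
      rcases T.eq_empty_or_nonempty with rfl | ⟨c, hc⟩
      · simp [m_empty, vr_empty]
      · exact nonneg_of_star G ht (hst T hT c hc)
    intro S hS v hv
    have hlt : (S.erase v).card < n := by rw [← hS]; exact Finset.card_erase_lt_of_mem hv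
    by_cases hc : ∃ c ∈ S, G.Adj v c
    · obtain ⟨c, hcS, hvc⟩ := hc
      obtain ⟨A, hA, hcA, hA2, hA3⟩ := branch hG hcS hvc
      have hvA : v ∉ A := fun h => Finset.notMem_erase v S (hA h)
      have hAn : A.card < n := lt_of_le_of_lt (Finset.card_le_card hA) hlt
      have hAS : A ⊆ S := hA.trans (Finset.erase_subset _ _)
      have h1 : Out G t A (A.erase c) := by
        refine out_of_star G ht hcA (hst A hAn c hcA) (hnn _ ?_)
        exact lt_of_le_of_lt (Finset.card_le_card (Finset.erase_subset _ _)) hAn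
      have hvS2 : v ∈ S \ A := Finset.mem_sdiff.2 ⟨hv, hvA⟩
      have hS2 : (S \ A).card < n := by
        rw [← hS]
        apply Finset.card_lt_card
        rw [Finset.ssubset_iff_of_subset Finset.sdiff_subset]
        exact ⟨c, hcS, fun h => (Finset.mem_sdiff.1 h).2 hcA⟩
      have h2 := ih _ hS2 (S \ A) rfl v hvS2
      have e1 : S.erase v = A ∪ (S \ A).erase v := by
        ext x
        simp only [Finset.mem_erase, Finset.mem_union, Finset.mem_sdiff]
        constructor
        · rintro ⟨a1, a2⟩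
          by_cases hx : x ∈ A
          · exact Or.inl hx
          · exact Or.inr ⟨a1, a2, hx⟩
        · rintro (a1 | ⟨a1, a2, -⟩)
          · exact Finset.mem_erase.1 (hA a1)
          · exact ⟨a1, a2⟩
      have e2 : del G v S = A.erase c ∪ del G v (S \ A) := by
        ext x
        simp only [mem_del, Finset.mem_erase, Finset.mem_union, Finset.mem_sdiff]
        constructor
        · rintro ⟨a1, a2, a3⟩
          by_cases hx : x ∈ A
          · exact Or.inl ⟨fun h => a3 (h ▸ hvc), hx⟩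
          · exact Or.inr ⟨⟨a1, hx⟩, a2, a3⟩
        · rintro (⟨a1, a2⟩ | ⟨⟨a1, -⟩, a2, a3⟩)
          · exact ⟨hAS a2, fun h => hvA (h ▸ a2), fun h => a1 (hA2 x a2 h)⟩
          · exact ⟨a1, a2, a3⟩
      rw [e1, e2]
      refine out_union G ht h1 h2 ?_ ?_ (Finset.erase_subset _ _) (del_subset_erase _ _ _)
      · rw [Finset.disjoint_left]
        intro x hx hx2
        exact (Finset.mem_sdiff.1 (Finset.mem_of_mem_erase hx2)).2 hx
      · intro x hx y hy
        rw [Finset.mem_erase, Finset.mem_sdiff] at hy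
        exact hA3 x hx y hy.2.1 hy.1 hy.2.2
    · push Not at hc
      have e2 : del G v S = S.erase v := by
        ext x
        rw [mem_del, Finset.mem_erase]
        exact ⟨fun h => ⟨h.2.1, h.1⟩, fun h => ⟨h.2, h.1, hc x h.2⟩⟩
      rw [e2]
      exact out_self G ht (hnn _ hlt)

/-- the variance is at most the mean -/
lemma var_le_mean2 {G : SimpleGraph V} (hG : G.IsAcyclic) {t : ℝ} (ht : 0 < t) (ht1 : t ≤ 6 / 5)
    (S : Finset V) : vr G t S ≤ m G t S := by
  rcases S.eq_empty_or_nonempty with rfl | ⟨v, hv⟩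
  · simp [m_empty, vr_empty]
  · have := nonneg_of_star G ht (star_of_out2 G ht ht1 hv (out_all2 hG ht ht1 _ S rfl v hv))
    linarith

end Pool.Agent.Lib.MP_24a1b5_co.Gap
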