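import Pool.Agent.Lib.MP_24a1b5_co.Init.Shift
import Pool.Agent.Lib.MP_24a1b5_co.Init.TailFinal

/-!
# The independence sequence of a forest is monotone away from the mean
-/

set_option autoImplicit false
open N36365310 Polynomial
open scoped Classical

namespace Pool.Agent.Lib.MP_24a1b5_co.Gap

variable {U : Type*}

section
variable [Fintype U] (G : SimpleGraph U)

lemma cheb_low {t c : ℝ} (ht : 0 < t) (k : ℕ) (hc : 0 < c) (h : (k : ℝ) + c ≤ mn G t)
    (hv : 2 * va G t ≤ c ^ 2) :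
    zz G t ≤ 2 * ∑ j ∈ (Finset.range (Fintype.card U + 1)).filter (k ≤ ·), wt G t j := by
  have hz := zz_pos G ht
  have h1 := second_moment G ht (mn G t)
  rw [sub_self, zero_pow two_ne_zero, add_zero] at h1
  have h2 : c ^ 2 * ∑ j ∈ (Finset.range (Fintype.card U + 1)).filter (fun j => ¬ k ≤ j),
      wt G t j ≤ ∑ j ∈ Finset.range (Fintype.card U + 1), ((j : ℝ) - mn G t) ^ 2 * wt G t j := by
    rw [Finset.mul_sum]
    refine le_trans (Finset.sum_le_sum (g := fun j : ℕ => ((j : ℝ) - mn G t) ^ 2 * wt G t j) ?_) ?_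
    · intro j hj
      apply mul_le_mul_of_nonneg_right _ (wt_nonneg G ht.le j)
      rw [Finset.mem_filter, not_le] at hj
      have hj2 : (j : ℝ) ≤ k := by exact_mod_cast hj.2.le
      nlinarith
    · apply Finset.sum_le_sum_of_subset_of_nonneg (Finset.filter_subset _ _)
      intro j _ _
      exact mul_nonneg (sq_nonneg _) (wt_nonneg G ht.le j)
  have h3 := Finset.sum_filter_add_sum_filter_not (Finset.range (Fintype.card U + 1)) (k ≤ ·)
    (wt G t)
  rw [← zz_eq] at h3
  rw [h1] at h2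
  have h4 : c ^ 2 * (2 * ∑ j ∈ (Finset.range (Fintype.card U + 1)).filter (fun j => ¬ k ≤ j),
      wt G t j) ≤ c ^ 2 * zz G t := by nlinarith
  have h5 := le_of_mul_le_mul_left h4 (by positivity)
  linarith

lemma cheb_up {t c : ℝ} (ht : 0 < t) (k : ℕ) (hc : 0 < c) (h : mn G t + c ≤ (k : ℝ))
    (hv : 2 * va G t ≤ c ^ 2) :
    zz G t ≤ 2 * ∑ j ∈ (Finset.range (Fintype.card U + 1)).filter (· ≤ k), wt G t j := by
  have hz := zz_pos G ht
  have h1 := second_moment G ht (mn G t)
  rw [sub_self, zero_pow two_ne_zero, add_zero] at h1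
  have h2 : c ^ 2 * ∑ j ∈ (Finset.range (Fintype.card U + 1)).filter (fun j => ¬ j ≤ k),
      wt G t j ≤ ∑ j ∈ Finset.range (Fintype.card U + 1), ((j : ℝ) - mn G t) ^ 2 * wt G t j := by
    rw [Finset.mul_sum]
    refine le_trans (Finset.sum_le_sum (g := fun j : ℕ => ((j : ℝ) - mn G t) ^ 2 * wt G t j) ?_) ?_
    · intro j hj
      apply mul_le_mul_of_nonneg_right _ (wt_nonneg G ht.le j)
      rw [Finset.mem_filter, not_le] at hj
      have hj2 : (k : ℝ) ≤ j := by exact_mod_cast hj.2.le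
      nlinarith
    · apply Finset.sum_le_sum_of_subset_of_nonneg (Finset.filter_subset _ _)
      intro j _ _
      exact mul_nonneg (sq_nonneg _) (wt_nonneg G ht.le j)
  have h3 := Finset.sum_filter_add_sum_filter_not (Finset.range (Fintype.card U + 1)) (· ≤ k)
    (wt G t)
  rw [← zz_eq] at h3
  rw [h1] at h2
  have h4 : c ^ 2 * (2 * ∑ j ∈ (Finset.range (Fintype.card U + 1)).filter (fun j => ¬ j ≤ k),
      wt G t j) ≤ c ^ 2 * zz G t := by nlinarith
  have h5 := le_of_mul_le_mul_left h4 (by positivity)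
  linarith

/-- the drop inequality in the form used by the lemmas on sequences -/
lemma dropI (hG : G.IsAcyclic) (j : ℕ) :
    ((j : ℤ) + 1) * (indepSeq G (j + 1) : ℤ) ^ 2 ≤
      (indepSeq G j : ℤ) * (((j : ℤ) + 2) * (indepSeq G (j + 2) : ℤ) +
        3 * (indepSeq G (j + 1) : ℤ)) := Init.drop' G hG j

/-- abstract decay: `q`-decreasing steps give `q ^ m` -/
lemma steps_low {w : ℕ → ℝ} {q : ℝ} {A B : ℕ} (hq : 0 ≤ q)
    (h : ∀ i, A ≤ i → i < B → w (i + 1) ≤ q * w i) : ∀ (m i : ℕ), A ≤ i → i + m ≤ B →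
      w (i + m) ≤ q ^ m * w i
  | 0, i, _, _ => by simp
  | m + 1, i, h1, h2 => by
      have h3 := steps_low hq h m i h1 (by omega)
      have h4 := h (i + m) (by omega) (by omega)
      calc w (i + (m + 1)) = w (i + m + 1) := rfl
        _ ≤ q * w (i + m) := h4
        _ ≤ q * (q ^ m * w i) := mul_le_mul_of_nonneg_left h3 hq
        _ = _ := by ring

/-- the lower side, given the numerical inequalities -/
lemma low_aux (hG : G.IsAcyclic) {k m : ℕ} {η c : ℝ} (hk : indepSeq G (k + 1) < indepSeq G k)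
    (hη : 0 < η) (hη1 : η < 1) (hm : 0 < m) (h16 : 16 * (m : ℝ) ≤ η * ((k : ℝ) + 1))
    (hc : 0 < c) (hkc : (k : ℝ) + c ≤ mn G (1 - η)) (hv : 2 * va G (1 - η) ≤ c ^ 2) :
    (m : ℝ) ^ 2 ≤ 102 * k * (1 - η / 2) ^ m := by
  have ht : 0 < 1 - η := by linarith
  have hm' : (0 : ℝ) < m := by exact_mod_cast hm
  have hq : 0 ≤ 1 - η / 2 := by linarith
  have h2m : 2 * m ≤ k := by
    have : 16 * (m : ℝ) < (k : ℝ) + 1 := by nlinarith [Nat.cast_nonneg (α := ℝ) k]
    have : 16 * m < k + 1 := by exact_mod_cast this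
    omega
  set w := wt G (1 - η) with hw
  have hw0 : ∀ j, 0 ≤ w j := wt_nonneg G ht.le
  -- the steps
  have hstep : ∀ i, k - 2 * m + 1 ≤ i → i < k → w (i + 1) ≤ (1 - η / 2) * w i := by
    intro i hi1 hi2
    obtain ⟨j, hj⟩ : ∃ j, i + j = k := ⟨k - i, by omega⟩
    have hj2 : j < 2 * m := by omega
    obtain ⟨h1, h2⟩ := Init.seqA (a := fun j => (indepSeq G j : ℤ)) (k := k)
      (fun j => Int.natCast_nonneg _) (dropI G hG) (by exact_mod_cast hk) j i hj
    have h3 : ((i : ℝ) + 1) * (indepSeq G (i + 1) : ℝ) ≤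
        ((k : ℝ) + 1 + 3 * j) * (indepSeq G i : ℝ) := by exact_mod_cast h2
    have hi : (i : ℝ) + 1 = (k : ℝ) + 1 - j := by
      have : (i : ℝ) + j = k := by exact_mod_cast hj
      linarith
    have hj3 : (j : ℝ) ≤ 2 * m := by exact_mod_cast hj2.le
    have hj0 : (0 : ℝ) ≤ j := Nat.cast_nonneg j
    have h4 : (1 - η) * ((k : ℝ) + 1 + 3 * j) ≤ (1 - η / 2) * ((i : ℝ) + 1) := by
      rw [hi]
      have : 0 ≤ η * j := by positivity
      nlinarith
    have h5 : ((i : ℝ) + 1) * w (i + 1) ≤ ((i : ℝ) + 1) * ((1 - η / 2) * w i) := by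
      have e1 : w (i + 1) = (1 - η) * ((indepSeq G (i + 1) : ℝ) * (1 - η) ^ i) := by
        rw [hw, wt, pow_succ]; ring
      have e2 : w i = (indepSeq G i : ℝ) * (1 - η) ^ i := rfl
      have h6 : 0 ≤ (1 - η) ^ i := by positivity
      rw [e1]
      calc ((i : ℝ) + 1) * ((1 - η) * ((indepSeq G (i + 1) : ℝ) * (1 - η) ^ i)) =
            (1 - η) * (((i : ℝ) + 1) * (indepSeq G (i + 1) : ℝ)) * (1 - η) ^ i := by ring
        _ ≤ (1 - η) * (((k : ℝ) + 1 + 3 * j) * (indepSeq G i : ℝ)) * (1 - η) ^ i := by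
            apply mul_le_mul_of_nonneg_right _ h6
            exact mul_le_mul_of_nonneg_left h3 ht.le
        _ = ((1 - η) * ((k : ℝ) + 1 + 3 * j)) * w i := by rw [e2]; ring
        _ ≤ ((1 - η / 2) * ((i : ℝ) + 1)) * w i := mul_le_mul_of_nonneg_right h4 (hw0 i)
        _ = _ := by ring
    exact le_of_mul_le_mul_left h5 (by positivity)
  have hsm := steps_low hq hstep
  -- the valley
  have hW : 0 < ∑ j ∈ Finset.range (Fintype.card U + 1), w j := by
    rw [hw, ← zz_eq]; exact zz_pos G ht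
  have hval := valley (w := w) (N := Fintype.card U + 1) (p := k - m) (m := m) (K := 51) hm
    (by norm_num) hw0 hW (fun h => poincare_seq G hG ht (by linarith) h)
  have hcheb := cheb_low G ht k hc hkc hv
  rw [zz_eq] at hcheb
  rw [show k - m + m = k by omega] at hval
  have hkm : ((k - m : ℕ) : ℝ) + m = k := by
    rw [Nat.cast_sub (by omega)]; ring
  rw [hkm] at hval
  set W := ∑ j ∈ Finset.range (Fintype.card U + 1), w j with hWd
  set L := ∑ j ∈ (Finset.range (Fintype.card U + 1)).filter (· ≤ k - m), w j with hL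
  set UU := ∑ j ∈ (Finset.range (Fintype.card U + 1)).filter (k ≤ ·), w j with hUU
  have hL0 : 0 < L := by
    have h1 : w 0 ≤ L := by
      apply Finset.single_le_sum (fun j _ => hw0 j)
      rw [Finset.mem_filter, Finset.mem_range]
      exact ⟨by omega, Nat.zero_le _⟩
    have h2 : w 0 = 1 := by
      rw [hw, wt, In.indepSeq_eq_cnt, cnt_zero]; simp
    linarith
  have hS : ∑ i ∈ Finset.Ico (k - m) k, w (i + 1) ≤ (1 - η / 2) ^ m * L := by
    have h1 : ∀ i ∈ Finset.Ico (k - m) k, w (i + 1) ≤ (1 - η / 2) ^ m * w (i + 1 - m) := by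
      intro i hi
      rw [Finset.mem_Ico] at hi
      have := hsm m (i + 1 - m) (by omega) (by omega)
      rwa [show i + 1 - m + m = i + 1 by omega] at this
    refine (Finset.sum_le_sum h1).trans ?_
    rw [← Finset.mul_sum]
    apply mul_le_mul_of_nonneg_left _ (by positivity)
    have h2 : ∑ i ∈ Finset.Ico (k - m) k, w (i + 1 - m) =
        ∑ j ∈ (Finset.Ico (k - m) k).image (fun i => i + 1 - m), w j := by
      rw [Finset.sum_image]
      intro a ha b hb hab
      rw [Finset.coe_Ico, Set.mem_Ico] at ha hb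
      simp only at hab
      omega
    rw [h2]
    have hkn : k ≤ Fintype.card U := by
      by_contra hcon
      rw [not_le] at hcon
      rw [indepSeq_zero_of_lt G hcon] at hk
      omega
    apply Finset.sum_le_sum_of_subset_of_nonneg
    · intro x hx
      rw [Finset.mem_image] at hx
      obtain ⟨i, hi, rfl⟩ := hx
      rw [Finset.mem_Ico] at hi
      rw [Finset.mem_filter, Finset.mem_range]
      omega
    · intro j _ _
      exact hw0 j
  -- conclusion
  have h1 : L * W ≤ L * (2 * UU) := mul_le_mul_of_nonneg_left hcheb hL0.le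
  have h2 : W * (51 * ((k : ℝ) / m ^ 2 * ∑ i ∈ Finset.Ico (k - m) k, w (i + 1))) ≤
      W * (51 * ((k : ℝ) / m ^ 2 * ((1 - η / 2) ^ m * L))) := by
    apply mul_le_mul_of_nonneg_left _ hW.le
    apply mul_le_mul_of_nonneg_left _ (by norm_num)
    exact mul_le_mul_of_nonneg_left hS (by positivity)
  have h3 : (W * L) * 1 ≤ (W * L) * (102 * ((k : ℝ) / m ^ 2) * (1 - η / 2) ^ m) := by
    nlinarith
  have h4 := le_of_mul_le_mul_left h3 (by positivity)
  have h5 : 102 * ((k : ℝ) / m ^ 2) * (1 - η / 2) ^ m =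
      (102 * k * (1 - η / 2) ^ m) / m ^ 2 := by ring
  rw [h5, le_div_iff₀ (by positivity), one_mul] at h4
  exact h4

end

end Pool.Agent.Lib.MP_24a1b5_co.Gap
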