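import Pool.Agent.Lib.MP_24a1b5_co.Init.Window

/-!
# The independence sequence of a forest is monotone away from the mean: the theorem
-/

set_option autoImplicit false
open N36365310 Polynomial
open scoped Classical

namespace Pool.Agent.Lib.MP_24a1b5_co.Gap

variable {U : Type*}

lemma steps_up {w : ℕ → ℝ} {q : ℝ} {A B : ℕ} (hq : 0 ≤ q)
    (h : ∀ i, A ≤ i → i < B → q * w i ≤ w (i + 1)) : ∀ (m i : ℕ), A ≤ i → i + m ≤ B →
      q ^ m * w i ≤ w (i + m)
  | 0, i, _, _ => by simp
  | m + 1, i, h1, h2 => by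
      have h3 := steps_up hq h m i h1 (by omega)
      have h4 := h (i + m) (by omega) (by omega)
      calc q ^ (m + 1) * w i = q * (q ^ m * w i) := by ring
        _ ≤ q * w (i + m) := mul_le_mul_of_nonneg_left h3 hq
        _ ≤ w (i + m + 1) := h4
        _ = _ := rfl

section
variable [Fintype U] (G : SimpleGraph U)

/-- the upper side, given the numerical inequalities -/
lemma up_aux (hG : G.IsAcyclic) {k m : ℕ} {η c : ℝ} (hk : indepSeq G k < indepSeq G (k + 1))
    (hη : 0 < η) (hη1 : η ≤ 1 / 5) (hm : 0 < m) (h19 : 19 * (m : ℝ) ≤ η * ((k : ℝ) + 1))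
    (hc : 0 < c) (hkc : mn G (1 + η) + c ≤ (k : ℝ)) (hv : 2 * va G (1 + η) ≤ c ^ 2) :
    (m : ℝ) ^ 2 * (1 + η / 2) ^ m ≤ 102 * ((k : ℝ) + m) := by
  have ht : 0 < 1 + η := by linarith
  have hm' : (0 : ℝ) < m := by exact_mod_cast hm
  have hq : 0 ≤ 1 + η / 2 := by linarith
  set w := wt G (1 + η) with hw
  have hw0 : ∀ j, 0 ≤ w j := wt_nonneg G ht.le
  -- the steps
  have hstep : ∀ i, k ≤ i → i < k + 2 * m → (1 + η / 2) * w i ≤ w (i + 1) := by
    intro i hi1 hi2
    obtain ⟨j, rfl⟩ : ∃ j, i = k + j := ⟨i - k, by omega⟩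
    have hj2 : j < 2 * m := by omega
    have h2 := Init.seqA' (a := fun j => (indepSeq G j : ℤ)) (k := k)
      (fun j => Int.natCast_nonneg _) (dropI G hG) (by exact_mod_cast hk.le) j
    have h3 : ((k : ℝ) + 1 - 3 * j) * (indepSeq G (k + j) : ℝ) ≤
        ((k : ℝ) + j + 1) * (indepSeq G (k + j + 1) : ℝ) := by exact_mod_cast h2
    have hj3 : (j : ℝ) ≤ 2 * m := by exact_mod_cast hj2.le
    have hj0 : (0 : ℝ) ≤ j := Nat.cast_nonneg j
    have h4 : (1 + η / 2) * ((k : ℝ) + j + 1) ≤ (1 + η) * ((k : ℝ) + 1 - 3 * j) := by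
      have : η * j ≤ 1 / 5 * j := mul_le_mul_of_nonneg_right hη1 hj0
      nlinarith
    have h5 : ((k : ℝ) + j + 1) * ((1 + η / 2) * w (k + j)) ≤ ((k : ℝ) + j + 1) * w (k + j + 1) := by
      have e1 : w (k + j + 1) = (1 + η) * ((indepSeq G (k + j + 1) : ℝ) * (1 + η) ^ (k + j)) := by
        rw [hw, wt, pow_succ]; ring
      have e2 : w (k + j) = (indepSeq G (k + j) : ℝ) * (1 + η) ^ (k + j) := rfl
      have h6 : 0 ≤ (1 + η) ^ (k + j) := by positivity
      calc ((k : ℝ) + j + 1) * ((1 + η / 2) * w (k + j)) =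
            ((1 + η / 2) * ((k : ℝ) + j + 1)) * w (k + j) := by ring
        _ ≤ ((1 + η) * ((k : ℝ) + 1 - 3 * j)) * w (k + j) :=
            mul_le_mul_of_nonneg_right h4 (hw0 _)
        _ = (1 + η) * (((k : ℝ) + 1 - 3 * j) * (indepSeq G (k + j) : ℝ)) * (1 + η) ^ (k + j) := by
            rw [e2]; ring
        _ ≤ (1 + η) * (((k : ℝ) + j + 1) * (indepSeq G (k + j + 1) : ℝ)) * (1 + η) ^ (k + j) := by
            apply mul_le_mul_of_nonneg_right _ h6
            exact mul_le_mul_of_nonneg_left h3 ht.le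
        _ = _ := by rw [e1]; ring
    exact le_of_mul_le_mul_left h5 (by positivity)
  have hsm := steps_up hq hstep
  -- the valley
  have hW : 0 < ∑ j ∈ Finset.range (Fintype.card U + 1), w j := by
    rw [hw, ← zz_eq]; exact zz_pos G ht
  have hval := valley (w := w) (N := Fintype.card U + 1) (p := k) (m := m) (K := 51) hm
    (by norm_num) hw0 hW (fun h => poincare_seq G hG ht (by linarith) h)
  have hcheb := cheb_up G ht k hc hkc hv
  rw [zz_eq] at hcheb
  set W := ∑ j ∈ Finset.range (Fintype.card U + 1), w j with hWd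
  set L := ∑ j ∈ (Finset.range (Fintype.card U + 1)).filter (· ≤ k), w j with hL
  set UU := ∑ j ∈ (Finset.range (Fintype.card U + 1)).filter (k + m ≤ ·), w j with hUU
  have hwz : ∀ j, Fintype.card U < j → w j = 0 := by
    intro j hj
    rw [hw, wt, indepSeq_zero_of_lt G hj]
    simp
  have hq1 : 1 ≤ 1 + η / 2 := by linarith
  have hUU0 : 0 < UU := by
    have h1 : 0 < w (k + 1) := by
      rw [hw, wt]
      have : (0 : ℝ) < (indepSeq G (k + 1) : ℝ) := by exact_mod_cast (by omega)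
      positivity
    have h2 := hsm (m - 1) (k + 1) (by omega) (by omega)
    rw [show k + 1 + (m - 1) = k + m by omega] at h2
    have h3 : w (k + 1) ≤ w (k + m) := by
      refine le_trans ?_ h2
      have := one_le_pow₀ hq1 (n := m - 1)
      nlinarith
    have h4 : k + m ≤ Fintype.card U := by
      by_contra hcon
      rw [not_le] at hcon
      have := hwz _ hcon
      linarith
    have h5 : w (k + m) ≤ UU := by
      apply Finset.single_le_sum (fun j _ => hw0 j)
      rw [Finset.mem_filter, Finset.mem_range]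
      omega
    linarith
  have hS : (1 + η / 2) ^ m * ∑ i ∈ Finset.Ico k (k + m), w (i + 1) ≤ UU := by
    have h1 : ∀ i ∈ Finset.Ico k (k + m), (1 + η / 2) ^ m * w (i + 1) ≤
        if i + 1 + m ≤ Fintype.card U then w (i + 1 + m) else 0 := by
      intro i hi
      rw [Finset.mem_Ico] at hi
      have h2 := hsm m (i + 1) (by omega) (by omega)
      split_ifs with h3
      · exact h2
      · rwa [hwz (i + 1 + m) (by omega)] at h2
    rw [Finset.mul_sum]
    refine (Finset.sum_le_sum h1).trans ?_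
    rw [← Finset.sum_filter]
    have h2 : ∑ i ∈ (Finset.Ico k (k + m)).filter (fun i => i + 1 + m ≤ Fintype.card U),
        w (i + 1 + m) =
        ∑ j ∈ ((Finset.Ico k (k + m)).filter (fun i => i + 1 + m ≤ Fintype.card U)).image
          (fun i => i + 1 + m), w j := by
      rw [Finset.sum_image]
      intro a _ b _ hab
      simp only at hab
      omega
    rw [h2]
    apply Finset.sum_le_sum_of_subset_of_nonneg
    · intro x hx
      rw [Finset.mem_image] at hx
      obtain ⟨i, hi, rfl⟩ := hx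
      rw [Finset.mem_filter, Finset.mem_Ico] at hi
      rw [Finset.mem_filter, Finset.mem_range]
      omega
    · intro j _ _
      exact hw0 j
  -- conclusion
  set S := ∑ i ∈ Finset.Ico k (k + m), w (i + 1) with hSd
  have hS0 : 0 ≤ S := Finset.sum_nonneg fun i _ => hw0 _
  have h1 : W * UU ≤ 2 * L * UU := mul_le_mul_of_nonneg_right hcheb hUU0.le
  have h2 : W * UU ≤ W * (102 * (((k : ℝ) + m) / m ^ 2) * S) := by
    nlinarith
  have h3 := le_of_mul_le_mul_left h2 hW
  have hq2 : 0 < (1 + η / 2) ^ m := by positivity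
  have h4 : UU * (1 + η / 2) ^ m ≤ UU * (102 * (((k : ℝ) + m) / m ^ 2)) := by
    calc UU * (1 + η / 2) ^ m ≤ (102 * (((k : ℝ) + m) / m ^ 2) * S) * (1 + η / 2) ^ m :=
          mul_le_mul_of_nonneg_right h3 hq2.le
      _ = (102 * (((k : ℝ) + m) / m ^ 2)) * ((1 + η / 2) ^ m * S) := by ring
      _ ≤ (102 * (((k : ℝ) + m) / m ^ 2)) * UU := by
          apply mul_le_mul_of_nonneg_left hS
          positivity
      _ = _ := by ring
  have h5 := le_of_mul_le_mul_left h4 hUU0
  have h6 : 102 * (((k : ℝ) + m) / m ^ 2) = (102 * ((k : ℝ) + m)) / m ^ 2 := by ring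
  rw [h6, le_div_iff₀ (by positivity)] at h5
  linarith

/-- lower side -/
theorem window_low (hG : G.IsAcyclic) (k : ℕ)
    (hk : (k : ℝ) + 18 * Real.sqrt (Fintype.card U : ℝ) < mn G 1) :
    indepSeq G k ≤ indepSeq G (k + 1) := by
  by_contra hcon
  rw [not_le] at hcon
  have h4k : Fintype.card U ≤ 4 * k := by
    by_contra h
    have := (In.main' G hG k).2.2 (Or.inr (by omega))
    omega
  set n : ℝ := (Fintype.card U : ℝ) with hn
  set R := Real.sqrt n with hR
  have hn0 : 0 ≤ n := Nat.cast_nonneg _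
  have hR0 : 0 ≤ R := Real.sqrt_nonneg _
  have hRR : R * R = n := Real.mul_self_sqrt hn0
  have h4k' : n ≤ 4 * (k : ℝ) := by rw [hn]; exact_mod_cast h4k
  have hmn1 : mn G 1 ≤ n / 2 := by
    have := mn_le G (t := 1) one_pos
    rw [mul_one, ← hn] at this
    linarith
  have hRpos : 0 < R := by
    rcases hR0.lt_or_eq with h | h
    · exact h
    · exfalso
      rw [← h] at hRR hk
      have : (0 : ℝ) ≤ k := Nat.cast_nonneg k
      nlinarith
  have hR72 : 72 < R := by
    have : 18 * R < R * R / 4 := by nlinarith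
    nlinarith
  set η := 27 / R with hη
  have hηR : η * R = 27 := by rw [hη]; field_simp
  have hη0 : 0 < η := by positivity
  have hη1 : η < 3 / 8 := by
    rw [hη, div_lt_iff₀ hRpos]
    linarith
  have hK : R * R / 4 ≤ (k : ℝ) := by linarith
  obtain ⟨m, hm1, hm2⟩ : ∃ m : ℕ, 16 * (m : ℝ) ≤ η * ((k : ℝ) + 1) ∧
      η * ((k : ℝ) + 1) < 16 * ((m : ℝ) + 1) := by
    refine ⟨⌊η * ((k : ℝ) + 1) / 16⌋₊, ?_, ?_⟩
    · have := Nat.floor_le (show 0 ≤ η * ((k : ℝ) + 1) / 16 by positivity)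
      linarith
    · have := Nat.lt_floor_add_one (η * ((k : ℝ) + 1) / 16)
      linarith
  have hηK : 27 / 4 * R ≤ η * k := by
    have := mul_le_mul_of_nonneg_left hK hη0.le
    nlinarith
  have hm : 0 < m := by
    rcases Nat.eq_zero_or_pos m with h | h
    · rw [h] at hm2
      push_cast at hm2
      nlinarith
    · exact h
  -- the shift of the mean
  have hsh := mn_shift G hG (s := 1 - η) (t := 1) (by linarith) (by linarith) (by norm_num)
  have hsh2 : n / (1 + (1 - η)) * (1 - (1 - η)) ≤ 17 * R := by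
    have e : n / (1 + (1 - η)) * (1 - (1 - η)) = n * η / (2 - η) := by ring
    rw [e, div_le_iff₀ (by linarith), ← hRR]
    nlinarith
  have hva : 2 * va G (1 - η) ≤ R ^ 2 := by
    have h1 : va G (1 - η) ≤ mn G (1 - η) := var_le_mean2 hG (by linarith) (by linarith) _
    have h2 := mn_le G (t := 1 - η) (by linarith)
    have h3 : n * (1 - η) / (1 + (1 - η)) ≤ n / 2 := by
      rw [div_le_div_iff₀ (by linarith) (by norm_num)]
      nlinarith
    rw [← hn] at h2
    nlinarith
  have key := low_aux G hG hcon hη0 (by linarith) hm hm1 hRpos (c := R)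
    (by rw [← hn] at hsh; linarith) hva
  -- numerics
  have hm3 : 6 / 100 * (η * k) ≤ m := by linarith
  have hm3' : 0 ≤ 6 / 100 * (η * (k : ℝ)) := by positivity
  have hm4 : (6 / 100 * (η * k)) * (6 / 100 * (η * k)) ≤ (m : ℝ) * m :=
    mul_le_mul hm3 hm3 hm3' (by positivity)
  have hz : 182 ≤ η * (η * k) := by
    have := mul_le_mul_of_nonneg_left hηK hη0.le
    nlinarith
  have hm5 : 65 / 100 * (k : ℝ) ≤ (m : ℝ) ^ 2 := by
    have : 182 * (k : ℝ) ≤ η * (η * k) * k := mul_le_mul_of_nonneg_right hz (Nat.cast_nonneg k)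
    nlinarith
  have hm6 : 109 / 10 ≤ η * m := by
    have := mul_le_mul_of_nonneg_left hm3 hη0.le
    nlinarith
  have hpow : (1 - η / 2) ^ m ≤ Real.exp (-(η * m / 2)) := by
    have h1 : 1 - η / 2 ≤ Real.exp (-(η / 2)) := by
      have := Real.add_one_le_exp (-(η / 2))
      linarith
    have h2 := pow_le_pow_left₀ (by linarith : (0:ℝ) ≤ 1 - η / 2) h1 m
    rw [← Real.exp_nat_mul] at h2
    refine h2.trans (le_of_eq ?_)
    congr 1
    ring
  have hexp : Real.exp (-(η * m / 2)) ≤ 1 / 200 := by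
    rw [Real.exp_neg, one_div]
    apply inv_anti₀ (by norm_num)
    have h1 : Real.exp 5.45 ≤ Real.exp (η * m / 2) := Real.exp_le_exp.2 (by linarith)
    refine le_trans ?_ h1
    have h2 : Real.exp 5.45 = Real.exp 1 ^ 5 * Real.exp 0.45 := by
      rw [← Real.exp_nat_mul, ← Real.exp_add]
      norm_num
    rw [h2]
    have h3 := Real.exp_one_gt_d9
    have h4 : (2.718 : ℝ) ^ 5 ≤ Real.exp 1 ^ 5 := pow_le_pow_left₀ (by norm_num) (by linarith) 5
    have h5 : (1.45 : ℝ) ≤ Real.exp 0.45 := by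
      have := Real.add_one_le_exp (0.45 : ℝ)
      linarith
    calc (200 : ℝ) ≤ 2.718 ^ 5 * 1.45 := by norm_num
      _ ≤ _ := mul_le_mul h4 h5 (by norm_num) (by positivity)
  have h1 : 102 * (k : ℝ) * (1 - η / 2) ^ m ≤ 102 * k * (1 / 200) :=
    mul_le_mul_of_nonneg_left (hpow.trans hexp) (by positivity)
  have hk0 : 0 < (k : ℝ) := by nlinarith
  linarith

/-- upper side -/
theorem window_up (hG : G.IsAcyclic) (k : ℕ)
    (hk : mn G 1 + 38 * Real.sqrt (Fintype.card U : ℝ) ≤ (k : ℝ)) :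
    indepSeq G (k + 1) ≤ indepSeq G k := by
  by_contra hcon
  rw [not_le] at hcon
  have hext := ext_bound G k
  set n : ℝ := (Fintype.card U : ℝ) with hn
  set R := Real.sqrt n with hR
  have hn0 : 0 ≤ n := Nat.cast_nonneg _
  have hR0 : 0 ≤ R := Real.sqrt_nonneg _
  have hRR : R * R = n := Real.mul_self_sqrt hn0
  have hk0 : (0 : ℝ) ≤ k := Nat.cast_nonneg k
  have hcon' : (indepSeq G k : ℝ) < indepSeq G (k + 1) := by exact_mod_cast hcon
  have ha0 : (0 : ℝ) ≤ indepSeq G k := Nat.cast_nonneg _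
  have h2k : 2 * (k : ℝ) + 1 < n := by
    have h1 : ((k : ℝ) + 1) * (indepSeq G k : ℝ) < ((k : ℝ) + 1) * (indepSeq G (k + 1) : ℝ) :=
      mul_lt_mul_of_pos_left hcon' (by linarith)
    have h2 : (2 * (k : ℝ) + 1) * (indepSeq G k : ℝ) < n * (indepSeq G k : ℝ) := by nlinarith
    exact lt_of_mul_lt_mul_right h2 ha0
  have hmn1 := mn_ge G hG
  rw [← hn] at hmn1
  have hRpos : 0 < R := by
    rcases hR0.lt_or_eq with h | h
    · exact h
    · exfalso
      rw [← h] at hRR
      nlinarith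
  have hR152 : 152 < R := by
    have : 38 * R < R * R / 4 := by nlinarith
    nlinarith
  set η := 30 / R with hη
  have hηR : η * R = 30 := by rw [hη]; field_simp
  have hη0 : 0 < η := by positivity
  have hη1 : η < 1974 / 10000 := by
    rw [hη, div_lt_iff₀ hRpos]
    linarith
  have hK : R * R / 4 ≤ (k : ℝ) := by nlinarith
  obtain ⟨m, hm1, hm2⟩ : ∃ m : ℕ, 19 * (m : ℝ) ≤ η * ((k : ℝ) + 1) ∧
      η * ((k : ℝ) + 1) < 19 * ((m : ℝ) + 1) := by
    refine ⟨⌊η * ((k : ℝ) + 1) / 19⌋₊, ?_, ?_⟩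
    · have := Nat.floor_le (show 0 ≤ η * ((k : ℝ) + 1) / 19 by positivity)
      linarith
    · have := Nat.lt_floor_add_one (η * ((k : ℝ) + 1) / 19)
      linarith
  have hηK : 15 / 2 * R ≤ η * k := by
    have := mul_le_mul_of_nonneg_left hK hη0.le
    nlinarith
  have hm : 0 < m := by
    rcases Nat.eq_zero_or_pos m with h | h
    · rw [h] at hm2
      push_cast at hm2
      nlinarith
    · exact h
  -- the shift of the mean
  have hsh := mn_shift G hG (s := 1) (t := 1 + η) (by norm_num) (by linarith) (by linarith)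
  have hsh2 : n / (1 + 1) * (1 + η - 1) = 15 * R := by
    rw [← hRR]
    nlinarith
  have hva : 2 * va G (1 + η) ≤ (105 / 100 * R) ^ 2 := by
    have h1 : va G (1 + η) ≤ mn G (1 + η) := var_le_mean2 hG (by linarith) (by linarith) _
    have h2 := mn_le G (t := 1 + η) (by linarith)
    have h3 : n * (1 + η) / (1 + (1 + η)) ≤ 55 / 100 * n := by
      rw [div_le_iff₀ (by linarith)]
      nlinarith
    rw [← hn] at h2
    nlinarith
  have key := up_aux G hG hcon hη0 (by linarith) hm hm1 (c := 105 / 100 * R) (by positivity)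
    (by rw [← hn] at hsh; linarith) hva
  -- numerics
  have hm3 : 517 / 10000 * (η * k) ≤ m := by linarith
  have hm3' : 0 ≤ 517 / 10000 * (η * (k : ℝ)) := by positivity
  have hm4 : (517 / 10000 * (η * k)) * (517 / 10000 * (η * k)) ≤ (m : ℝ) * m :=
    mul_le_mul hm3 hm3 hm3' (by positivity)
  have hz : 225 ≤ η * (η * k) := by
    have := mul_le_mul_of_nonneg_left hηK hη0.le
    nlinarith
  have hm5 : 6 / 10 * (k : ℝ) ≤ (m : ℝ) ^ 2 := by
    have : 225 * (k : ℝ) ≤ η * (η * k) * k := mul_le_mul_of_nonneg_right hz (Nat.cast_nonneg k)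
    nlinarith
  have hm6 : 116 / 10 ≤ η * m := by
    have := mul_le_mul_of_nonneg_left hm3 hη0.le
    nlinarith
  have hpow : Real.exp (455 / 1000 * (η * m)) ≤ (1 + η / 2) ^ m := by
    have h1 : Real.exp (455 / 1000 * η) ≤ 1 + η / 2 := by
      have h2 : 1 - 455 / 1000 * η ≤ Real.exp (-(455 / 1000 * η)) := by
        have := Real.add_one_le_exp (-(455 / 1000 * η))
        linarith
      have h3 : 1 ≤ (1 + η / 2) * (1 - 455 / 1000 * η) := by nlinarith
      have h4 : Real.exp (455 / 1000 * η) * Real.exp (-(455 / 1000 * η)) = 1 := by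
        rw [← Real.exp_add]; simp
      have h5 : (1 + η / 2) * (1 - 455 / 1000 * η) ≤
          (1 + η / 2) * Real.exp (-(455 / 1000 * η)) := mul_le_mul_of_nonneg_left h2 (by linarith)
      have h6 : Real.exp (455 / 1000 * η) * Real.exp (-(455 / 1000 * η)) ≤
          (1 + η / 2) * Real.exp (-(455 / 1000 * η)) := by linarith
      exact le_of_mul_le_mul_right h6 (Real.exp_pos _)
    have h2 := pow_le_pow_left₀ (Real.exp_pos _).le h1 m
    rw [← Real.exp_nat_mul] at h2
    refine (le_of_eq ?_).trans h2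
    congr 1
    ring
  have hexp : 180 ≤ Real.exp (455 / 1000 * (η * m)) := by
    have h1 : Real.exp 5.25 ≤ Real.exp (455 / 1000 * (η * m)) := Real.exp_le_exp.2 (by linarith)
    refine le_trans ?_ h1
    have h2 : Real.exp 5.25 = Real.exp 1 ^ 5 * Real.exp 0.25 := by
      rw [← Real.exp_nat_mul, ← Real.exp_add]
      norm_num
    rw [h2]
    have h3 := Real.exp_one_gt_d9
    have h4 : (2.718 : ℝ) ^ 5 ≤ Real.exp 1 ^ 5 := pow_le_pow_left₀ (by norm_num) (by linarith) 5
    have h5 : (1.25 : ℝ) ≤ Real.exp 0.25 := by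
      have := Real.add_one_le_exp (0.25 : ℝ)
      linarith
    calc (180 : ℝ) ≤ 2.718 ^ 5 * 1.25 := by norm_num
      _ ≤ _ := mul_le_mul h4 h5 (by norm_num) (by positivity)
  have hk5000 : 5000 ≤ (k : ℝ) := by nlinarith
  have h1 : 6 / 10 * (k : ℝ) * 180 ≤ (m : ℝ) ^ 2 * (1 + η / 2) ^ m :=
    mul_le_mul hm5 (hexp.trans hpow) (by norm_num) (by positivity)
  have h2 : (m : ℝ) ≤ 11 / 1000 * k := by nlinarith
  linarith

end

end Pool.Agent.Lib.MP_24a1b5_co.Gap
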